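import Pool.Agent.AIP.Level

/-!
# Claims of level zero
-/

namespace AIP

open NExp Cmd

/-! ### Commands -/

/-- Check `y = 2 y' + r b` for the arrays `6` (`y`), `7` (`y'`) and `1` (`b`), where `X` subtracts
`r b` from the cell `(2, 1)`. -/
def vecCmd (X : ℕ → Cmd) : Cmd := rng 6 fun e => seq (sub 2 (lit 1) 6 (lit e) 7 (lit e))
  (seq (sub 2 (lit 1) 2 (lit 1) 7 (lit e)) (seq (X e) (guard 2 (lit 1))))

/-- Check `y = 2 y' + r b` for the digit `r = 0`, `1` or `-1` told by the cells `(2, 3)` and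
`(2, 4)`. -/
def branchCmd : Cmd := ifzero 2 (lit 3) (vecCmd fun _ => skip)
  (ifzero 2 (lit 4) (vecCmd fun e => sub 2 (lit 1) 2 (lit 1) 1 (lit e))
    (vecCmd fun e => add 2 (lit 1) 2 (lit 1) 1 (lit e)))

/-- One binary digit: receive `y'` and two reals which tell the digit `r`, check
`y = 2 y' + r b`, and replace `y` by `y'`. -/
def digitStep : Cmd := seq (rng 6 fun e => ask 3 (lit 0) 7 (lit e))
  (seq (ask 3 (lit 0) 2 (lit 3)) (seq (ask 3 (lit 0) 2 (lit 4))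
  (seq branchCmd (rng 6 fun e => copy 6 (lit e) 7 (lit e)))))

/-- Check that the array `6` is an integer multiple of `b`. -/
def digitsCmd : Cmd := seq (loop 7 (ctr 2) digitStep) (rng 6 fun e => guard 6 (lit e))

/-- Check one claim. -/
def claimCmd : Cmd := seq (rng 6 fun e => seq (sub 2 (lit 1) (16 + e) (ctr 4) (10 + e) (ctr 4))
    (seq (sub 2 (lit 1) 2 (lit 1) (10 + e) (ctr 4)) (guard 2 (lit 1))))
  (seq (rng 6 fun e => copy 6 (lit e) (22 + e) (ctr 4)) digitsCmd)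

/-- Check all claims. -/
def baseCmd : Cmd := loop 4 (ctr 1) claimCmd

/-! ### Guards -/

theorem exec0_seq (a b : Cmd) (s : S0) (K : S0 → ITree) :
    exec0 (seq a b) s K = exec0 a s (fun s' => exec0 b s' K) := rfl

theorem exec0_ask (A : ℕ) (e : NExp) (C : ℕ) (f : NExp) (s : S0) (K : S0 → ITree) :
    exec0 (ask A e C f) s K =
      .ask (s.cell A (e.eval s.ctr)) (fun p => K (s.put C (f.eval s.ctr) p)) := rfl

/-- Only the array `2` may have changed. -/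
def Same (s s' : S0) : Prop := s'.ctr = s.ctr ∧ ∀ A i, A ≠ 2 → s'.cell A i = s.cell A i

theorem Same.refl (s : S0) : Same s s := ⟨rfl, fun _ _ _ => rfl⟩

theorem Same.trans {s s' s'' : S0} (h : Same s s') (h' : Same s' s'') : Same s s'' :=
  ⟨h'.1.trans h.1, fun A i hA => (h'.2 A i hA).trans (h.2 A i hA)⟩

theorem Same.put (s : S0) (i : ℕ) (v : ℝ) : Same s (s.put 2 i v) :=
  ⟨rfl, fun A j hA => by rw [S0.cell_put, if_neg (by omega)]⟩

theorem Same.base {n q ℓ : ℕ} {b : ℕ → ℝ} {s s' : S0} (h : Same s s') (hs : Base n q ℓ b s) :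
    Base n q ℓ b s' :=
  ⟨by rw [h.1]; exact hs.c0, by rw [h.1]; exact hs.c1, by rw [h.1]; exact hs.c2,
    fun e he => by rw [h.2 1 e (by norm_num)]; exact hs.hb e he⟩

theorem Same.rows {A N : ℕ} {r : ℕ → ℕ → ℝ} {s s' : S0} (h : Same s s') (hA : 2 < A)
    (hs : Rows A N r s) : Rows A N r s' := by
  intro i hi c hc
  rw [h.2 _ _ (by omega)]
  exact hs i hi c hc

theorem guard_eq (A : ℕ) (e : NExp) (s : S0) (K : S0 → ITree) :
    (s.cell A (e.eval s.ctr) = 0 → exec0 (guard A e) s K = K s) ∧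
    (s.cell A (e.eval s.ctr) ≠ 0 → exec0 (guard A e) s K = .halt false) := by
  constructor
  · intro h
    simp only [guard, exec0]
    rw [if_pos h]
  · intro h
    simp only [guard, exec0]
    rw [if_neg h]

/-- A sequence of checks `v 0 = 0, v 1 = 0, …`. -/
theorem chk_rule (Q : ITree → Prop) (f : ℕ → Cmd) (N : ℕ) (v : ℕ → ℝ) (s : S0) (K : S0 → ITree)
    (hQ : Q (.halt false) ∨ ∀ e < N, v e = 0)
    (hf : ∀ e < N, ∀ s' K, Same s s' →
      (v e = 0 → ∃ s'', Same s s'' ∧ exec0 (f e) s' K = K s'') ∧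
      (v e ≠ 0 → exec0 (f e) s' K = .halt false))
    (hK : ∀ s', Same s s' → (∀ e < N, v e = 0) → Q (K s')) : Q (exec0 (rng N f) s K) := by
  refine rng_det Q f N (fun j s' => Same s s' ∧ ∀ e < j, v e = 0) ?_ s K
    ⟨Same.refl s, fun e he => by omega⟩ (fun s' h => hK s' h.1 h.2)
  rintro j hj s' K ⟨h1, h2⟩ hK
  obtain ⟨f1, f2⟩ := hf j hj s' K h1
  by_cases hv : v j = 0
  · obtain ⟨s'', h3, h4⟩ := f1 hv
    rw [h4]
    refine hK s'' ⟨h3, fun e he => ?_⟩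
    rcases Nat.lt_succ_iff_lt_or_eq.1 he with h | h
    · exact h2 e h
    · rw [h]; exact hv
  · rw [f2 hv]
    rcases hQ with hQ | hQ
    · exact hQ
    · exact absurd (hQ j hj) hv

theorem vec_rule (Q : ITree → Prop) (X : ℕ → Cmd) (r : ℤ) (s : S0) (K : S0 → ITree)
    (hX : ∀ e s K, ∃ s', Same s s' ∧ s'.cell 2 1 = s.cell 2 1 - r * s.cell 1 e ∧
      exec0 (X e) s K = K s')
    (hQ : Q (.halt false) ∨ ∀ e < 6, s.cell 6 e - s.cell 7 e - s.cell 7 e - r * s.cell 1 e = 0)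
    (hK : ∀ s', Same s s' → (∀ e < 6, s.cell 6 e - s.cell 7 e - s.cell 7 e - r * s.cell 1 e = 0) →
      Q (K s')) : Q (exec0 (vecCmd X) s K) := by
  refine chk_rule Q _ 6 (fun e => s.cell 6 e - s.cell 7 e - s.cell 7 e - r * s.cell 1 e) s K hQ
    ?_ hK
  intro e he s' K hs
  let s₁ := s'.put 2 1 (s'.cell 6 e - s'.cell 7 e)
  let s₂ := s₁.put 2 1 (s₁.cell 2 1 - s₁.cell 7 e)
  obtain ⟨s₃, h1, h2, h3⟩ := hX e s₂ (fun s => exec0 (guard 2 (lit 1)) s K)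
  have e1 : exec0 (seq (sub 2 (lit 1) 6 (lit e) 7 (lit e))
      (seq (sub 2 (lit 1) 2 (lit 1) 7 (lit e)) (seq (X e) (guard 2 (lit 1))))) s' K =
      exec0 (guard 2 (lit 1)) s₃ K := by
    rw [← h3]
    rfl
  have hs₁ : Same s' s₁ := Same.put _ _ _
  have hs₂ : Same s₁ s₂ := Same.put _ _ _
  have hall : Same s s₃ := ((hs.trans hs₁).trans hs₂).trans h1
  have e2 : s₃.cell 2 1 = s.cell 6 e - s.cell 7 e - s.cell 7 e - r * s.cell 1 e := by
    rw [h2, (hs.trans (hs₁.trans hs₂)).2 1 e (by norm_num)]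
    have e3 : s₂.cell 2 1 = s₁.cell 2 1 - s₁.cell 7 e := by
      simp only [s₂]
      rw [S0.cell_put, if_pos ⟨rfl, rfl⟩]
    have e4 : s₁.cell 2 1 = s'.cell 6 e - s'.cell 7 e := by
      simp only [s₁]
      rw [S0.cell_put, if_pos ⟨rfl, rfl⟩]
    rw [e3, e4, (hs.trans hs₁).2 7 e (by norm_num), hs.2 6 e (by norm_num),
      hs.2 7 e (by norm_num)]
  rw [e1]
  obtain ⟨g1, g2⟩ := guard_eq 2 (lit 1) s₃ K
  refine ⟨fun hv => ⟨s₃, hall, g1 ?_⟩, fun hv => g2 ?_⟩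
  · exact e2.trans hv
  · intro h
    exact hv (e2.symm.trans h)

theorem X0 (e : ℕ) (s : S0) (K : S0 → ITree) : ∃ s', Same s s' ∧
    s'.cell 2 1 = s.cell 2 1 - ((0 : ℤ) : ℝ) * s.cell 1 e ∧ exec0 skip s K = K s' :=
  ⟨s, Same.refl s, by simp, rfl⟩

theorem X1 (e : ℕ) (s : S0) (K : S0 → ITree) : ∃ s', Same s s' ∧
    s'.cell 2 1 = s.cell 2 1 - ((1 : ℤ) : ℝ) * s.cell 1 e ∧
    exec0 (sub 2 (lit 1) 2 (lit 1) 1 (lit e)) s K = K s' :=
  ⟨_, Same.put s 1 (s.cell 2 1 - s.cell 1 e), by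
    rw [S0.cell_put, if_pos ⟨rfl, rfl⟩]; simp, rfl⟩

theorem X2 (e : ℕ) (s : S0) (K : S0 → ITree) : ∃ s', Same s s' ∧
    s'.cell 2 1 = s.cell 2 1 - ((-1 : ℤ) : ℝ) * s.cell 1 e ∧
    exec0 (add 2 (lit 1) 2 (lit 1) 1 (lit e)) s K = K s' :=
  ⟨_, Same.put s 1 (s.cell 2 1 + s.cell 1 e), by
    rw [S0.cell_put, if_pos ⟨rfl, rfl⟩]; push_cast; ring, rfl⟩

/-- The copying at the end of a digit step. -/
theorem copy_rule (Q : ITree → Prop) (A : ℕ) (hA : A ≠ 6) (s : S0) (K : S0 → ITree)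
    (hK : ∀ s', s'.ctr = s.ctr → (∀ B i, B ≠ 6 → s'.cell B i = s.cell B i) →
      (∀ e < 6, s'.cell 6 e = s.cell A e) → Q (K s')) :
    Q (exec0 (rng 6 fun e => copy 6 (lit e) A (lit e)) s K) := by
  refine rng_det Q _ 6 (fun c s' => s'.ctr = s.ctr ∧ (∀ B i, B ≠ 6 → s'.cell B i = s.cell B i) ∧
    ∀ e < c, s'.cell 6 e = s.cell A e) ?_ s K ⟨rfl, fun _ _ _ => rfl, fun e he => by omega⟩
    (fun s' h => hK s' h.1 h.2.1 h.2.2)
  rintro c hc s' K ⟨h1, h2, h3⟩ hK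
  simp only [exec0, NExp.eval]
  refine hK _ ⟨h1, fun B i hB => ?_, fun e he => ?_⟩
  · rw [S0.cell_put, if_neg (by omega)]
    exact h2 B i hB
  · rw [S0.cell_put]
    by_cases h : e = c
    · rw [if_pos ⟨rfl, h⟩, h2 A c hA, h]
    · rw [if_neg (by omega)]
      exact h3 e (by omega)

theorem branch_eq (s : S0) (K : S0 → ITree) :
    (s.cell 2 3 = 0 → exec0 branchCmd s K = exec0 (vecCmd fun _ => skip) s K) ∧
    (s.cell 2 3 ≠ 0 → s.cell 2 4 = 0 → exec0 branchCmd s K =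
      exec0 (vecCmd fun e => sub 2 (lit 1) 2 (lit 1) 1 (lit e)) s K) ∧
    (s.cell 2 3 ≠ 0 → s.cell 2 4 ≠ 0 → exec0 branchCmd s K =
      exec0 (vecCmd fun e => add 2 (lit 1) 2 (lit 1) 1 (lit e)) s K) := by
  refine ⟨fun h => ?_, fun h h' => ?_, fun h h' => ?_⟩
  · simp only [branchCmd]
    exact if_pos h
  · simp only [branchCmd]
    exact (if_neg h).trans (if_pos h')
  · simp only [branchCmd]
    exact (if_neg h).trans (if_neg h')

theorem digitStep_eq (s : S0) (K : S0 → ITree) : exec0 digitStep s K =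
    exec0 (rng 6 fun e => ask 3 (lit 0) 7 (lit e)) s (fun s' => .ask (s'.cell 3 0) fun p =>
      .ask ((s'.put 2 3 p).cell 3 0) fun p' => exec0 branchCmd ((s'.put 2 3 p).put 2 4 p')
        (fun s'' => exec0 (rng 6 fun e => copy 6 (lit e) 7 (lit e)) s'' K)) := by
  simp only [digitStep, exec0_seq, exec0_ask, NExp.eval]

theorem digitStep_W {n q ℓ : ℕ} {b : ℕ → ℝ} {cl : ℕ → ℕ → ℝ} (z z' r : ℤ)
    (hz : z = 2 * z' + r) (hr : r = 0 ∨ r = 1 ∨ r = -1) (s : S0) (K : S0 → ITree)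
    (hs : Base n q ℓ b s) (hcl : Rows 10 q cl s) (hy : ∀ e < 6, s.cell 6 e = z * b e)
    (hK : ∀ s', Base n q ℓ b s' → Rows 10 q cl s' → (∀ e < 6, s'.cell 6 e = z' * b e) →
      W (K s')) : W (exec0 digitStep s K) := by
  rw [digitStep_eq]
  refine rng_det W _ 6 (fun c s' => Base n q ℓ b s' ∧ Rows 10 q cl s' ∧
    (∀ e < 6, s'.cell 6 e = z * b e) ∧ ∀ e < c, s'.cell 7 e = z' * b e) ?_ _ _
    ⟨hs, hcl, hy, fun e he => by omega⟩ ?_
  · rintro c hc s K ⟨h1, h2, h3, h4⟩ hK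
    refine W_ask _ _ (z' * b c) (hK _ ⟨h1.put _ _ _ (by omega), h2.put _ _ _ (by omega), ?_, ?_⟩)
    · intro e he
      simp only [NExp.eval]
      rw [S0.cell_put, if_neg (by omega)]
      exact h3 e he
    · intro e he
      simp only [NExp.eval]
      rw [S0.cell_put]
      by_cases h : e = c
      · rw [if_pos ⟨rfl, h⟩, h]
      · rw [if_neg (by omega)]
        exact h4 e (by omega)
  rintro s₀ ⟨h1, h2, h3, h4⟩
  refine W_ask _ _ (if r = 0 then 0 else 1) ?_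
  refine W_ask _ _ (if r = 1 then 0 else 1) ?_
  set s₁ := (s₀.put 2 3 (if r = 0 then 0 else 1)).put 2 4 (if r = 1 then 0 else 1) with hs₁
  have hS : Same s₀ s₁ := (Same.put s₀ 3 _).trans (Same.put _ 4 _)
  have c3 : s₁.cell 2 3 = if r = 0 then 0 else 1 := by
    rw [hs₁, S0.cell_put, if_neg (by norm_num), S0.cell_put, if_pos ⟨rfl, rfl⟩]
  have c4 : s₁.cell 2 4 = if r = 1 then 0 else 1 := by
    rw [hs₁, S0.cell_put, if_pos ⟨rfl, rfl⟩]
  -- the end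
  have hend : ∀ s', Same s₁ s' → W (exec0 (rng 6 fun e => copy 6 (lit e) 7 (lit e)) s' K) := by
    intro s' hs'
    have hS' := hS.trans hs'
    refine copy_rule W 7 (by norm_num) s' K fun s'' k1 k2 k3 => ?_
    have b' := hS'.base h1
    refine hK s'' ⟨by rw [k1]; exact b'.c0, by rw [k1]; exact b'.c1, by rw [k1]; exact b'.c2,
      fun e he => by rw [k2 1 e (by norm_num)]; exact b'.hb e he⟩ ?_ ?_
    · intro i hi c hc
      rw [k2 _ _ (by omega)]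
      exact hS'.rows (by norm_num) h2 i hi c hc
    · intro e he
      rw [k3 e he, hS'.2 7 e (by norm_num)]
      exact h4 e he
  have hv : ∀ e < 6, s₁.cell 6 e - s₁.cell 7 e - s₁.cell 7 e - r * s₁.cell 1 e = 0 := by
    intro e he
    rw [hS.2 6 e (by norm_num), hS.2 7 e (by norm_num), hS.2 1 e (by norm_num), h3 e he,
      h4 e he, h1.hb e he, hz]
    push_cast
    ring
  have h01 : (1 : ℝ) ≠ 0 := one_ne_zero
  rcases hr with hr | hr | hr
  · have q3 : s₁.cell 2 3 = 0 := by rw [c3, if_pos hr]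
    rw [(branch_eq _ _).1 q3]
    subst hr
    exact vec_rule W _ 0 s₁ _ X0 (Or.inr hv) (fun s' h _ => hend s' h)
  · have q3 : s₁.cell 2 3 ≠ 0 := by rw [c3, if_neg (by omega)]; exact h01
    have q4 : s₁.cell 2 4 = 0 := by rw [c4, if_pos hr]
    rw [(branch_eq _ _).2.1 q3 q4]
    subst hr
    exact vec_rule W _ 1 s₁ _ X1 (Or.inr hv) (fun s' h _ => hend s' h)
  · have q3 : s₁.cell 2 3 ≠ 0 := by rw [c3, if_neg (by omega)]; exact h01
    have q4 : s₁.cell 2 4 ≠ 0 := by rw [c4, if_neg (by omega)]; exact h01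
    rw [(branch_eq _ _).2.2 q3 q4]
    subst hr
    exact vec_rule W _ (-1) s₁ _ X2 (Or.inr hv) (fun s' h _ => hend s' h)

theorem digitStep_B {n q ℓ : ℕ} {b : ℕ → ℝ} {cl : ℕ → ℕ → ℝ} (ε : ℝ) (hε : 0 ≤ ε)
    (s : S0) (K : S0 → ITree) (hs : Base n q ℓ b s) (hcl : Rows 10 q cl s)
    (hK : ∀ s', Base n q ℓ b s' → Rows 10 q cl s' →
      (∃ r : ℤ, ∀ e < 6, s.cell 6 e = 2 * s'.cell 6 e + r * b e) →
      B ε (K s')) : B ε (exec0 digitStep s K) := by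
  rw [digitStep_eq]
  refine rng_det (B ε) _ 6 (fun _ s' => Base n q ℓ b s' ∧ Rows 10 q cl s' ∧
    (∀ e < 6, s'.cell 6 e = s.cell 6 e)) ?_ _ _ ⟨hs, hcl, fun _ _ => rfl⟩ ?_
  · rintro c hc s K ⟨h1, h2, h3⟩ hK
    refine B_ask _ _ _ fun p => hK _ ⟨h1.put _ _ _ (by omega), h2.put _ _ _ (by omega), ?_⟩
    intro e he
    simp only [NExp.eval]
    rw [S0.cell_put, if_neg (by omega)]
    exact h3 e he
  rintro s₀ ⟨h1, h2, h3⟩
  refine B_ask _ _ _ fun p => B_ask _ _ _ fun p' => ?_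
  set s₁ := (s₀.put 2 3 p).put 2 4 p' with hs₁
  have hS : Same s₀ s₁ := (Same.put s₀ 3 _).trans (Same.put _ 4 _)
  -- the end
  have hend : ∀ (r : ℤ) s', Same s₁ s' →
      (∀ e < 6, s₁.cell 6 e - s₁.cell 7 e - s₁.cell 7 e - r * s₁.cell 1 e = 0) →
      B ε (exec0 (rng 6 fun e => copy 6 (lit e) 7 (lit e)) s' K) := by
    intro r s' hs' hr
    have hS' := hS.trans hs'
    refine copy_rule (B ε) 7 (by norm_num) s' K fun s'' k1 k2 k3 => ?_
    have b' := hS'.base h1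
    refine hK s'' ⟨by rw [k1]; exact b'.c0, by rw [k1]; exact b'.c1, by rw [k1]; exact b'.c2,
      fun e he => by rw [k2 1 e (by norm_num)]; exact b'.hb e he⟩ ?_ ⟨r, ?_⟩
    · intro i hi c hc
      rw [k2 _ _ (by omega)]
      exact hS'.rows (by norm_num) h2 i hi c hc
    · intro e he
      have := hr e he
      rw [hS.2 6 e (by norm_num), hS.2 1 e (by norm_num), h3 e he, h1.hb e he] at this
      rw [k3 e he, hs'.2 7 e (by norm_num)]
      linarith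
  have hh : B ε (.halt false) := B_halt ε hε
  by_cases q3 : s₁.cell 2 3 = 0
  · rw [(branch_eq _ _).1 q3]
    exact vec_rule (B ε) _ 0 s₁ _ X0 (Or.inl hh) (fun s' h h' => hend 0 s' h h')
  by_cases q4 : s₁.cell 2 4 = 0
  · rw [(branch_eq _ _).2.1 q3 q4]
    exact vec_rule (B ε) _ 1 s₁ _ X1 (Or.inl hh) (fun s' h h' => hend 1 s' h h')
  · rw [(branch_eq _ _).2.2 q3 q4]
    exact vec_rule (B ε) _ (-1) s₁ _ X2 (Or.inl hh) (fun s' h h' => hend (-1) s' h h')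

theorem guards6 (Q : ITree → Prop) (s : S0) (K : S0 → ITree)
    (hQ : Q (.halt false) ∨ ∀ e < 6, s.cell 6 e = 0)
    (hK : ∀ s', Same s s' → (∀ e < 6, s.cell 6 e = 0) → Q (K s')) :
    Q (exec0 (rng 6 fun e => guard 6 (lit e)) s K) := by
  refine chk_rule Q _ 6 (fun e => s.cell 6 e) s K hQ ?_ hK
  intro e he s' K hs
  obtain ⟨g1, g2⟩ := guard_eq 6 (lit e) s' K
  refine ⟨fun hv => ⟨s', hs, g1 ?_⟩, fun hv => g2 ?_⟩
  · exact (hs.2 6 e (by norm_num)).trans hv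
  · intro h
    exact hv ((hs.2 6 e (by norm_num)).symm.trans h)

theorem digits_W {n q ℓ : ℕ} {b : ℕ → ℝ} {cl : ℕ → ℕ → ℝ} (z : ℤ) (hz : |z| < 2 ^ ℓ) (s : S0)
    (K : S0 → ITree) (hs : Base n q ℓ b s) (hcl : Rows 10 q cl s)
    (hy : ∀ e < 6, s.cell 6 e = z * b e)
    (hK : ∀ s', Base n q ℓ b s' → Rows 10 q cl s' → W (K s')) :
    W (exec0 digitsCmd s K) := by
  simp only [digitsCmd]
  change W (exec0 (loop 7 (ctr 2) digitStep) s _)
  refine loop_det W 7 (ctr 2) _ ℓ (fun j s => Base n q ℓ b s ∧ Rows 10 q cl s ∧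
    ∃ z : ℤ, |z| < 2 ^ (ℓ - j) ∧ ∀ e < 6, s.cell 6 e = z * b e) ?_ s _ hs.c2
    ⟨hs, hcl, z, by simpa using hz, hy⟩ ?_
  · rintro j hj s K ⟨h1, h2, z, h3, h4⟩ hK
    obtain ⟨z', r, e1, e2, e3⟩ := exists_div z 2 (by norm_num)
    refine digitStep_W z z' r e1 ?_ _ K (h1.setCtr 7 j (by norm_num)) h2 h4
      fun s' k1 k2 k3 => hK s' ⟨k1, k2, z', ?_, k3⟩
    · rw [abs_lt] at e2
      omega
    · rw [show ℓ - j = (ℓ - (j + 1)) + 1 by omega, pow_succ] at h3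
      by_contra hcon
      push Not at hcon
      have : 2 ^ (ℓ - (j + 1)) * 2 ≤ |z'| * 2 := mul_le_mul_of_nonneg_right hcon (by norm_num)
      linarith
  · rintro s' ⟨h1, h2, z, h3, h4⟩
    rw [Nat.sub_self, pow_zero] at h3
    have hz0 : z = 0 := Int.abs_lt_one_iff.mp h3
    refine guards6 W s' K (Or.inr fun e he => by rw [h4 e he, hz0]; simp) fun s'' k _ => ?_
    exact hK s'' (k.base h1) (k.rows (by norm_num) h2)

theorem digits_B {n q ℓ : ℕ} {b : ℕ → ℝ} {cl : ℕ → ℕ → ℝ} (ε : ℝ) (hε : 0 ≤ ε) (s : S0)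
    (K : S0 → ITree) (hs : Base n q ℓ b s) (hcl : Rows 10 q cl s)
    (hK : ∀ s', Base n q ℓ b s' → Rows 10 q cl s' → (∃ z : ℤ, ∀ e < 6, s.cell 6 e = z * b e) →
      B ε (K s')) : B ε (exec0 digitsCmd s K) := by
  simp only [digitsCmd]
  change B ε (exec0 (loop 7 (ctr 2) digitStep) s _)
  refine loop_det (B ε) 7 (ctr 2) _ ℓ (fun j s' => Base n q ℓ b s' ∧ Rows 10 q cl s' ∧
    ∃ c r : ℤ, ∀ e < 6, s.cell 6 e = c * s'.cell 6 e + r * b e) ?_ s _ hs.c2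
    ⟨hs, hcl, 1, 0, fun e _ => by simp⟩ ?_
  · rintro j hj s' K ⟨h1, h2, c, r, h3⟩ hK
    refine digitStep_B ε hε _ K (h1.setCtr 7 j (by norm_num)) h2
      fun s'' k1 k2 k3 => hK s'' ⟨k1, k2, ?_⟩
    obtain ⟨r', k3⟩ := k3
    refine ⟨2 * c, c * r' + r, fun e he => ?_⟩
    have h5 : s'.cell 6 e = 2 * s''.cell 6 e + r' * b e := k3 e he
    rw [h3 e he, h5]
    push_cast
    ring
  · rintro s' ⟨h1, h2, c, r, h3⟩
    refine guards6 (B ε) s' K (Or.inl (B_halt ε hε)) fun s'' k h0 => ?_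
    refine hK s'' (k.base h1) (k.rows (by norm_num) h2) ⟨r, fun e he => ?_⟩
    rw [h3 e he, h0 e he]
    ring

/-- The first check of a claim. -/
theorem first_rule (Q : ITree → Prop) (i : ℕ) (g : ℕ → ℝ) (s : S0) (K : S0 → ITree)
    (hi : s.ctr 4 = i) (hg : ∀ c < 18, s.cell (10 + c) i = g c)
    (hQ : Q (.halt false) ∨ ∀ e < 6, g (6 + e) - g e - g e = 0)
    (hK : ∀ s', Same s s' → (∀ e < 6, g (6 + e) - g e - g e = 0) → Q (K s')) :
    Q (exec0 (rng 6 fun e => seq (sub 2 (lit 1) (16 + e) (ctr 4) (10 + e) (ctr 4))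
      (seq (sub 2 (lit 1) 2 (lit 1) (10 + e) (ctr 4)) (guard 2 (lit 1)))) s K) := by
  refine chk_rule Q _ 6 (fun e => g (6 + e) - g e - g e) s K hQ ?_ hK
  intro e he s' K hs
  let s₁ := s'.put 2 1 (s'.cell (16 + e) i - s'.cell (10 + e) i)
  let s₂ := s₁.put 2 1 (s₁.cell 2 1 - s₁.cell (10 + e) i)
  have hi' : s'.ctr 4 = i := by rw [hs.1]; exact hi
  have e1 : exec0 (seq (sub 2 (lit 1) (16 + e) (ctr 4) (10 + e) (ctr 4))
      (seq (sub 2 (lit 1) 2 (lit 1) (10 + e) (ctr 4)) (guard 2 (lit 1)))) s' K =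
      exec0 (guard 2 (lit 1)) s₂ K := by
    subst hi'
    rfl
  have hs₁ : Same s' s₁ := Same.put _ _ _
  have hs₂ : Same s₁ s₂ := Same.put _ _ _
  have hall : Same s s₂ := (hs.trans hs₁).trans hs₂
  have e2 : s₂.cell 2 1 = g (6 + e) - g e - g e := by
    have e3 : s₂.cell 2 1 = s₁.cell 2 1 - s₁.cell (10 + e) i := by
      simp only [s₂]
      rw [S0.cell_put, if_pos ⟨rfl, rfl⟩]
    have e4 : s₁.cell 2 1 = s'.cell (16 + e) i - s'.cell (10 + e) i := by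
      simp only [s₁]
      rw [S0.cell_put, if_pos ⟨rfl, rfl⟩]
    rw [e3, e4, (hs.trans hs₁).2 (10 + e) i (by omega), hs.2 (16 + e) i (by omega),
      hs.2 (10 + e) i (by omega), hg e (by omega), show 16 + e = 10 + (6 + e) by omega,
      hg (6 + e) (by omega)]
  rw [e1]
  obtain ⟨g1, g2⟩ := guard_eq 2 (lit 1) s₂ K
  refine ⟨fun hv => ⟨s₂, hall, g1 ?_⟩, fun hv => g2 ?_⟩
  · exact e2.trans hv
  · intro h
    exact hv (e2.symm.trans h)

/-- The copying of a claim. -/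
theorem copy2_rule (Q : ITree → Prop) (i : ℕ) (s : S0) (K : S0 → ITree) (hi : s.ctr 4 = i)
    (hK : ∀ s', s'.ctr = s.ctr → (∀ B i, B ≠ 6 → s'.cell B i = s.cell B i) →
      (∀ e < 6, s'.cell 6 e = s.cell (22 + e) i) → Q (K s')) :
    Q (exec0 (rng 6 fun e => copy 6 (lit e) (22 + e) (ctr 4)) s K) := by
  refine rng_det Q _ 6 (fun c s' => s'.ctr = s.ctr ∧ (∀ B i, B ≠ 6 → s'.cell B i = s.cell B i) ∧
    ∀ e < c, s'.cell 6 e = s.cell (22 + e) i) ?_ s K ⟨rfl, fun _ _ _ => rfl, fun e he => by omega⟩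
    (fun s' h => hK s' h.1 h.2.1 h.2.2)
  rintro c hc s' K ⟨h1, h2, h3⟩ hK
  simp only [exec0, NExp.eval, h1, hi]
  refine hK _ ⟨h1, fun B i hB => ?_, fun e he => ?_⟩
  · rw [S0.cell_put, if_neg (by omega)]
    exact h2 B i hB
  · rw [S0.cell_put]
    by_cases h : e = c
    · rw [if_pos ⟨rfl, h⟩, h2 _ _ (by omega), h]
    · rw [if_neg (by omega)]
      exact h3 e (by omega)

theorem claim_W {n q ℓ : ℕ} {b : ℕ → ℝ} {cl : ℕ → ℕ → ℝ} (i S : ℕ) (hS : 2 * S < 2 ^ ℓ) (s : S0)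
    (K : S0 → ITree) (hs : Base n q ℓ b s) (hcl : Rows 10 q cl s) (hi : s.ctr 4 = i)
    (hiq : i < q) (hgood : WG 0 (2 * S) b (cl i))
    (hK : ∀ s', Base n q ℓ b s' → Rows 10 q cl s' → W (K s')) :
    W (exec0 claimCmd s K) := by
  obtain ⟨g1, z, g3, g2⟩ := hgood
  simp only [claimCmd, exec0]
  refine first_rule W i (cl i) s _ hi (fun c hc => hcl i hiq c hc) (Or.inr fun e he => ?_)
    fun s₁ k1 _ => ?_
  · rw [g1 e he]; ring
  refine copy2_rule W i s₁ _ (by rw [k1.1]; exact hi) fun s₂ m1 m2 m3 => ?_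
  have b1 := k1.base hs
  have r1 := k1.rows (by norm_num) hcl
  have hz : |z| < 2 ^ ℓ := by
    have : (((2 * S : ℕ) : ℕ) : ℤ) < 2 ^ ℓ := by exact_mod_cast hS
    exact lt_of_le_of_lt g3 this
  refine digits_W z hz s₂ K ⟨by rw [m1]; exact b1.c0, by rw [m1]; exact b1.c1,
    by rw [m1]; exact b1.c2, fun e he => by rw [m2 1 e (by norm_num)]; exact b1.hb e he⟩ ?_ ?_ hK
  · intro i hi c hc
    rw [m2 _ _ (by omega)]
    exact r1 i hi c hc
  · intro e he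
    rw [m3 e he, show 22 + e = 10 + (12 + e) by omega, r1 i hiq (12 + e) (by omega), g2 e he]

theorem claim_B {n q ℓ : ℕ} {b : ℕ → ℝ} {cl : ℕ → ℕ → ℝ} (i : ℕ) (ε : ℝ) (hε : 0 ≤ ε) (s : S0)
    (K : S0 → ITree) (hs : Base n q ℓ b s) (hcl : Rows 10 q cl s) (hi : s.ctr 4 = i)
    (hiq : i < q)
    (hK : ∀ s', Base n q ℓ b s' → Rows 10 q cl s' → InG 0 b (cl i) → B ε (K s')) :
    B ε (exec0 claimCmd s K) := by
  simp only [claimCmd, exec0]
  refine first_rule (B ε) i (cl i) s _ hi (fun c hc => hcl i hiq c hc) (Or.inl (B_halt ε hε))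
    fun s₁ k1 k2 => ?_
  refine copy2_rule (B ε) i s₁ _ (by rw [k1.1]; exact hi) fun s₂ m1 m2 m3 => ?_
  have b1 := k1.base hs
  have r1 := k1.rows (by norm_num) hcl
  refine digits_B (n := n) (q := q) (ℓ := ℓ) (b := b) (cl := cl) ε hε s₂ K ⟨by rw [m1]; exact b1.c0, by rw [m1]; exact b1.c1,
    by rw [m1]; exact b1.c2, fun e he => by rw [m2 1 e (by norm_num)]; exact b1.hb e he⟩ ?_
    fun s₃ p1 p2 p3 => ?_
  · intro i hi c hc
    rw [m2 _ _ (by omega)]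
    exact r1 i hi c hc
  · refine hK s₃ p1 p2 ⟨fun e he => ?_, ?_⟩
    · have := k2 e he
      rw [pow_zero, pow_one]
      linarith
    · obtain ⟨z, hz⟩ := p3
      refine ⟨z, fun e he => ?_⟩
      rw [← hz e he, m3 e he, show 22 + e = 10 + (12 + e) by omega,
        r1 i hiq (12 + e) (by omega)]

theorem base_W {n q ℓ : ℕ} {b : ℕ → ℝ} (S : ℕ) (hS : 2 * S < 2 ^ ℓ) (s : S0)
    (K : S0 → ITree) (hs : Base n q ℓ b s)
    (hgood : ∀ i < q, WG 0 (2 * S) b (row s 10 i))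
    (hK : ∀ s', Base n q ℓ b s' → W (K s')) :
    W (exec0 baseCmd s K) := by
  refine loop_det W 4 (ctr 1) _ q (fun _ s' => Base n q ℓ b s' ∧ Rows 10 q (row s 10) s') ?_ s _
    hs.c1 ⟨hs, rows_row 10 q s⟩ (fun s' h => hK s' h.1)
  rintro j hj s' K ⟨h1, h2⟩ hK
  refine claim_W j S hS _ K (h1.setCtr 4 j (by norm_num)) h2 (by rw [S0.ctr_setCtr]; simp) hj
    (hgood j hj) fun s'' k1 k2 => hK s'' ⟨k1, k2⟩

theorem base_B {n q ℓ : ℕ} {b : ℕ → ℝ} (s : S0) (K : S0 → ITree) (hs : Base n q ℓ b s)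
    (hbad : ∃ i < q, ¬ InG 0 b (row s 10 i)) :
    B 0 (exec0 baseCmd s K) := by
  refine loop_det (B 0) 4 (ctr 1) _ q (fun j s' => Base n q ℓ b s' ∧ Rows 10 q (row s 10) s' ∧
    ∀ i < j, InG 0 b (row s 10 i)) ?_ s _ hs.c1 ⟨hs, rows_row 10 q s, fun i hi => by omega⟩ ?_
  · rintro j hj s' K ⟨h1, h2, h3⟩ hK
    refine claim_B j 0 le_rfl _ K (h1.setCtr 4 j (by norm_num)) h2 (by rw [S0.ctr_setCtr]; simp)
      hj fun s'' k1 k2 k3 => hK s'' ⟨k1, k2, fun i hi => ?_⟩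
    rcases Nat.lt_succ_iff_lt_or_eq.1 hi with h | h
    · exact h3 i h
    · rw [h]; exact k3
  · rintro s' ⟨h1, h2, h3⟩
    obtain ⟨i, hi, hb⟩ := hbad
    exact absurd (h3 i hi) hb

end AIP
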