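import Pool.Agent.AIP.Symb

/-!
# The lower bound for programs
-/

namespace AIP

open MvPolynomial

variable {n : ℕ}

/-- The forms at distance `j` from the root have degree at most `2 ^ (e + j)`. -/
def SDeg : STree n → ℕ → Prop
  | .halt _, _ => True
  | .tick t, e => SDeg t (e + 1)
  | .coin t u, e => SDeg t (e + 1) ∧ SDeg u (e + 1)
  | .sgn f t u, e => f.totalDegree ≤ 2 ^ e ∧ SDeg t (e + 1) ∧ SDeg u (e + 1)
  | .test φ t u, e => φ.DegLE (2 ^ e) ∧ SDeg t (e + 1) ∧ SDeg u (e + 1)
  | .round φ t, e => φ.DegLE (2 ^ e) ∧ SDeg t (e + 1)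

/-- All cells have degree at most `2 ^ e`. -/
def StDeg (σ : SSt n) (e : ℕ) : Prop := ∀ A i, (σ.cell A i).DegLE (2 ^ e)

theorem DegLE_mono {φ : AForm n} {d d' : ℕ} (h : φ.DegLE d) (hd : d ≤ d') : φ.DegLE d' :=
  ⟨fun i => (h.1 i).trans hd, h.2.trans hd⟩

theorem StDeg_mono {σ : SSt n} {e e' : ℕ} (h : StDeg σ e) (he : e ≤ e') : StDeg σ e' :=
  fun A i => DegLE_mono (h A i) (Nat.pow_le_pow_right (by norm_num) he)

theorem StDeg_put {σ : SSt n} {e : ℕ} (h : StDeg σ e) (A i : ℕ) (φ : AForm n) (t : Bool)
    (hφ : φ.DegLE (2 ^ (e + 1))) : StDeg (σ.put A i φ t) (e + 1) := by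
  intro A' i'
  simp only [SSt.put]
  have hh := StDeg_mono h (Nat.le_succ e)
  by_cases hA : A' = A
  · subst hA
    by_cases hi : i' = i
    · subst hi
      simpa using hφ
    · simp only [Function.update_self, Function.update_of_ne hi]
      exact hh A' i'
  · simp only [Function.update_of_ne hA]
    exact hh A' i'

theorem sdeg_sexec (c : Cmd) (σ : SSt n) (K : SSt n → STree n) (e : ℕ) (hσ : StDeg σ e)
    (hK : ∀ σ' e', e ≤ e' → StDeg σ' e' → SDeg (K σ') e') : SDeg (sexec c σ K) e := by
  have hpow : 2 ^ (e + 1) = 2 ^ e + 2 ^ e := by rw [pow_succ]; ring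
  have hle : 2 ^ e ≤ 2 ^ (e + 1) := Nat.pow_le_pow_right (by norm_num) (Nat.le_succ e)
  induction c generalizing σ K e with
  | skip => exact hK σ (e + 1) (by omega) (StDeg_mono hσ (by omega))
  | halt b => trivial
  | seq a b iha ihb =>
    refine iha σ _ e hσ (fun σ' e' he' h' => ihb σ' K e' h' (fun σ'' e'' he'' h'' =>
      hK σ'' e'' (by omega) h'') ?_ ?_) hpow hle
    · rw [pow_succ]; ring
    · exact Nat.pow_le_pow_right (by norm_num) (by omega)
  | set i f => exact hK _ (e + 1) (by omega) (StDeg_mono (σ := σ.setCtr _ _) hσ (by omega))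
  | const A f r =>
    exact hK _ (e + 1) (by omega) (StDeg_put hσ _ _ _ _ (fPoly_deg _ _ (by simp)))
  | nat A f g =>
    exact hK _ (e + 1) (by omega) (StDeg_put hσ _ _ _ _ (fPoly_deg _ _ (by
      rw [totalDegree_C]; exact Nat.zero_le _)))
  | copy A f B g =>
    exact hK _ (e + 1) (by omega) (StDeg_put hσ _ _ _ _ (DegLE_mono (hσ _ _) hle))
  | add A f B g C' h =>
    exact hK _ (e + 1) (by omega) (StDeg_put hσ _ _ _ _ (DegLE_mono
      (fAdd_deg _ _ _ (hσ _ _) (hσ _ _)) hle))
  | sub A f B g C' h =>
    refine hK _ (e + 1) (by omega) (StDeg_put hσ _ _ _ _ ?_)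
    refine fAdd_deg _ _ _ (DegLE_mono (hσ _ _) hle) ?_
    rw [hpow]
    exact fScale_deg _ _ _ (by rw [totalDegree_C]; exact Nat.zero_le _) (hσ _ _)
  | mul A f B g C' h =>
    simp only [sexec]
    split_ifs with h1 h2
    · trivial
    · refine hK _ (e + 1) (by omega) (StDeg_put hσ _ _ _ _ ?_)
      rw [hpow]
      exact fScale_deg _ _ _ (hσ _ _).2 (hσ _ _)
    · refine hK _ (e + 1) (by omega) (StDeg_put hσ _ _ _ _ ?_)
      rw [hpow]
      exact fScale_deg _ _ _ (hσ _ _).2 (hσ _ _)
  | ifle f g a b iha ihb =>
    have hσ' := StDeg_mono hσ (Nat.le_succ e)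
    have hK' : ∀ σ' e', e + 1 ≤ e' → StDeg σ' e' → SDeg (K σ') e' :=
      fun σ' e' he' h' => hK σ' e' (by omega) h'
    simp only [sexec]
    change SDeg (if _ then _ else _) (e + 1)
    split_ifs
    · exact iha σ K (e + 1) hσ' hK' (by rw [pow_succ]; ring)
        (Nat.pow_le_pow_right (by norm_num) (by omega))
    · exact ihb σ K (e + 1) hσ' hK' (by rw [pow_succ]; ring)
        (Nat.pow_le_pow_right (by norm_num) (by omega))
  | ifzero A f a b iha ihb =>
    have hσ' := StDeg_mono hσ (Nat.le_succ e)
    have hK' : ∀ σ' e', e + 1 ≤ e' → StDeg σ' e' → SDeg (K σ') e' :=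
      fun σ' e' he' h' => hK σ' e' (by omega) h'
    exact ⟨hσ _ _, iha σ K (e + 1) hσ' hK' (by rw [pow_succ]; ring)
        (Nat.pow_le_pow_right (by norm_num) (by omega)),
      ihb σ K (e + 1) hσ' hK' (by rw [pow_succ]; ring)
        (Nat.pow_le_pow_right (by norm_num) (by omega))⟩
  | ifnonneg A f a b iha ihb =>
    have hσ' := StDeg_mono hσ (Nat.le_succ e)
    have hK' : ∀ σ' e', e + 1 ≤ e' → StDeg σ' e' → SDeg (K σ') e' :=
      fun σ' e' he' h' => hK σ' e' (by omega) h'
    simp only [sexec]
    split_ifs
    · trivial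
    · exact ⟨(hσ _ _).2, iha σ K (e + 1) hσ' hK' (by rw [pow_succ]; ring)
          (Nat.pow_le_pow_right (by norm_num) (by omega)),
        ihb σ K (e + 1) hσ' hK' (by rw [pow_succ]; ring)
          (Nat.pow_le_pow_right (by norm_num) (by omega))⟩
  | flip i =>
    exact ⟨hK _ (e + 1) (by omega) (StDeg_mono (σ := σ.setCtr _ _) hσ (by omega)),
      hK _ (e + 1) (by omega) (StDeg_mono (σ := σ.setCtr _ _) hσ (by omega))⟩
  | ask A f B g =>
    refine ⟨hσ _ _, hK _ (e + 1) (by omega) ?_⟩
    have h1 := StDeg_put hσ B (g.eval σ.ctr) (fMsg σ.k) true (fMsg_deg _ _)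
    exact h1
  | loop i f a iha =>
    have hloop : ∀ (r j : ℕ) (σ : SSt n) (e : ℕ), StDeg σ e →
        (∀ σ' e', e ≤ e' → StDeg σ' e' → SDeg (K σ') e') →
        SDeg (siter (sexec a) i r j K σ) e := by
      intro r
      induction r with
      | zero => intro j σ e h1 h2; exact h2 σ e le_rfl h1
      | succ r ihr =>
        intro j σ e h1 h2
        refine iha (σ.setCtr i j) _ (e + 1) (StDeg_mono (σ := σ.setCtr _ _) h1 (by omega))
          (fun σ' e' he' h' => ihr (j + 1) σ' e' h' (fun σ'' e'' he'' h'' =>
            h2 σ'' e'' (by omega) h'')) (by rw [pow_succ]; ring)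
            (Nat.pow_le_pow_right (by norm_num) (by omega))
    exact hloop _ 0 σ (e + 1) (StDeg_mono hσ (by omega))
      (fun σ' e' he' h' => hK σ' e' (by omega) h')

/-- The verifier tree of a symbolic tree for given coins, cut after `T` steps. -/
def cut : STree n → ℕ → List Bool → VTree n
  | .halt b, _, _ => .halt b
  | .tick _, 0, _ => .halt false
  | .tick t, T + 1, r => cut t T r
  | .coin _ _, 0, _ => .halt false
  | .coin t u, T + 1, r => match r with
      | [] => .halt false
      | false :: r' => cut t T r'
      | true :: r' => cut u T r'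
  | .sgn _ _ _, 0, _ => .halt false
  | .sgn f t u, T + 1, r => .sgn f (cut t T r) (cut u T r)
  | .test _ _ _, 0, _ => .halt false
  | .test φ t u, T + 1, r => .test φ (cut t T r) (cut u T r)
  | .round _ _, 0, _ => .halt false
  | .round φ t, T + 1, r => .round φ (cut t T r)

theorem cut_depth (t : STree n) (T : ℕ) (r : List Bool) : (cut t T r).depth ≤ T := by
  induction t generalizing T r with
  | halt b => simp [cut, VTree.depth]
  | tick t ih =>
    cases T with
    | zero => simp [cut, VTree.depth]
    | succ T => exact (ih T r).trans (Nat.le_succ T)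
  | coin t u iht ihu =>
    cases T with
    | zero => simp [cut, VTree.depth]
    | succ T =>
      match r with
      | [] => simp [cut, VTree.depth]
      | false :: r' => exact (iht T r').trans (Nat.le_succ T)
      | true :: r' => exact (ihu T r').trans (Nat.le_succ T)
  | sgn f t u iht ihu =>
    cases T with
    | zero => simp [cut, VTree.depth]
    | succ T =>
      simp only [cut, VTree.depth]
      have := iht T r
      have := ihu T r
      omega
  | test f t u iht ihu =>
    cases T with
    | zero => simp [cut, VTree.depth]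
    | succ T =>
      simp only [cut, VTree.depth]
      have := iht T r
      have := ihu T r
      omega
  | round f t iht =>
    cases T with
    | zero => simp [cut, VTree.depth]
    | succ T =>
      simp only [cut, VTree.depth]
      have := iht T r
      omega

theorem cut_deg (t : STree n) (T e : ℕ) (r : List Bool) (h : SDeg t e) :
    (cut t T r).DegLE (2 ^ (e + T)) := by
  induction t generalizing T e r with
  | halt b => trivial
  | tick t ih =>
    cases T with
    | zero => trivial
    | succ T =>
      have := ih T (e + 1) r h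
      rwa [show e + 1 + T = e + (T + 1) by omega] at this
  | coin t u iht ihu =>
    cases T with
    | zero => trivial
    | succ T =>
      match r with
      | [] => trivial
      | false :: r' =>
        have := iht T (e + 1) r' h.1
        rwa [show e + 1 + T = e + (T + 1) by omega] at this
      | true :: r' =>
        have := ihu T (e + 1) r' h.2
        rwa [show e + 1 + T = e + (T + 1) by omega] at this
  | sgn f t u iht ihu =>
    cases T with
    | zero => trivial
    | succ T =>
      obtain ⟨h1, h2, h3⟩ := h
      have h4 := iht T (e + 1) r h2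
      have h5 := ihu T (e + 1) r h3
      rw [show e + 1 + T = e + (T + 1) by omega] at h4 h5
      exact ⟨h1.trans (Nat.pow_le_pow_right (by norm_num) (by omega)), h4, h5⟩
  | test f t u iht ihu =>
    cases T with
    | zero => trivial
    | succ T =>
      obtain ⟨h1, h2, h3⟩ := h
      have h4 := iht T (e + 1) r h2
      have h5 := ihu T (e + 1) r h3
      rw [show e + 1 + T = e + (T + 1) by omega] at h4 h5
      exact ⟨DegLE_mono h1 (Nat.pow_le_pow_right (by norm_num) (by omega)), h4, h5⟩
  | round f t iht =>
    cases T with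
    | zero => trivial
    | succ T =>
      obtain ⟨h1, h2⟩ := h
      have h4 := iht T (e + 1) r h2
      rw [show e + 1 + T = e + (T + 1) by omega] at h4
      exact ⟨DegLE_mono h1 (Nat.pow_le_pow_right (by norm_num) (by omega)), h4⟩

/-- The answer for given coins. -/
noncomputable def ITree.out : ITree → List Bool → (List ℝ → ℝ) → Bool
  | .halt b, _, _ => b
  | .tick t, r, P => t.out r P
  | .coin t u, r, P => match r with
      | [] => false
      | false :: r' => t.out r' P
      | true :: r' => u.out r' P
  | .ask w f, r, P => (f (P [w])).out r (fun h => P (w :: h))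

theorem TimeLE_mono (t : ITree) (T : ℕ) (h : t.TimeLE T) : t.TimeLE (T + 1) := by
  induction t generalizing T with
  | halt b => trivial
  | tick t ih =>
    cases T with
    | zero => exact h.elim
    | succ T => exact ih T h
  | coin t u iht ihu =>
    cases T with
    | zero => exact h.elim
    | succ T => exact ⟨iht T h.1, ihu T h.2⟩
  | ask w f ih =>
    cases T with
    | zero => exact h.elim
    | succ T => exact fun p => ih p T (h p)

theorem acc_out (t : ITree) (T : ℕ) (h : t.TimeLE T) (P : List ℝ → ℝ) :
    t.acc P = (∑ r : Fin T → Bool, if t.out (List.ofFn r) P = true then (1 : ℝ) else 0) /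
      2 ^ T := by
  induction t generalizing T P with
  | halt b =>
    cases b <;> simp [ITree.acc, ITree.out]
  | tick t ih =>
    cases T with
    | zero => exact h.elim
    | succ T => exact ih (T + 1) (TimeLE_mono t T h) P
  | ask w f ih =>
    cases T with
    | zero => exact h.elim
    | succ T => exact ih _ (T + 1) (TimeLE_mono _ T (h _)) _
  | coin t u iht ihu =>
    cases T with
    | zero => exact h.elim
    | succ T =>
      rw [← (Fin.consEquiv (fun _ : Fin (T + 1) => Bool)).sum_comp, Fintype.sum_prod_type,
        Fintype.sum_bool]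
      simp only [ITree.acc]
      rw [iht T h.1 P, ihu T h.2 P]
      have h1 : ∀ b (r : Fin T → Bool), (ITree.coin t u).out (List.ofFn
          ((Fin.consEquiv (fun _ : Fin (T + 1) => Bool)) (b, r))) P =
          (match b with
            | false => t.out (List.ofFn r) P
            | true => u.out (List.ofFn r) P) := by
        intro b r
        simp only [Fin.consEquiv, Equiv.coe_fn_mk, List.ofFn_succ, Fin.cons_zero, Fin.cons_succ]
        cases b <;> rfl
      simp only [h1]
      rw [pow_succ]
      have : (2 : ℝ) ^ T ≠ 0 := by positivity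
      field_simp
      ring

theorem run_cut (x : Fin n → ℝ) (t : STree n) (T k : ℕ) (s : ℕ → ℝ) (r : List Bool)
    (P : List ℝ → ℝ) (h : (inst x t k s).TimeLE T) :
    (cut t T r).run x k s P = (inst x t k s).out r P := by
  induction t generalizing T k s r P with
  | halt b => rfl
  | tick t ih =>
    cases T with
    | zero => exact h.elim
    | succ T => exact ih T k s r P h
  | coin t u iht ihu =>
    cases T with
    | zero => exact h.elim
    | succ T =>
      match r with
      | [] => rfl
      | false :: r' => exact iht T k s r' P h.1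
      | true :: r' => exact ihu T k s r' P h.2
  | sgn f t u iht ihu =>
    cases T with
    | zero => exact h.elim
    | succ T =>
      simp only [cut, VTree.run, inst, ITree.out]
      simp only [inst, ITree.TimeLE] at h
      split_ifs with h0
      · rw [if_pos h0] at h
        exact iht T k s r P h
      · rw [if_neg h0] at h
        exact ihu T k s r P h
  | test f t u iht ihu =>
    cases T with
    | zero => exact h.elim
    | succ T =>
      simp only [cut, VTree.run, inst, ITree.out]
      simp only [inst, ITree.TimeLE] at h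
      split_ifs with h0
      · rw [if_pos h0] at h
        exact iht T k s r P h
      · rw [if_neg h0] at h
        exact ihu T k s r P h
  | round f t iht =>
    cases T with
    | zero => exact h.elim
    | succ T => exact iht T (k + 1) _ r _ (h _)

/-- The initial symbolic state. -/
noncomputable def sinit (n : ℕ) : SSt n where
  ctr := fun i => if i = 0 then n else 0
  cell := fun A i => fPoly (if h : A = 0 ∧ i < n then X ⟨i, h.2⟩ else 0)
  tag := fun _ _ => false
  k := 0

theorem inst_sinit (x : Fin n → ℝ) (s : ℕ → ℝ) : instSt x (sinit n) s = init x := by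
  unfold instSt sinit init
  simp only
  congr 1
  ext A i
  rw [fPoly_val]
  split_ifs <;> simp

/-- **Lower bound for programs.** -/
theorem lower_prog (hn : 2 ≤ n) (c : Cmd) (T : ℕ) (hT : 18 * T + 8 ≤ 2 ^ n)
    (htime : ∀ x : Fin n → ℝ, (comput c x).TimeLE T) (a : ℝ)
    (hc : ∀ x ∉ Lang n, ∃ P, a ≤ (comput c x).acc P) :
    ∃ x ∈ Lang n, ∃ P, a ≤ (comput c x).acc P := by
  let S : STree n := sexec c (sinit n) (fun _ => .halt false)
  let W : Verifier n := ⟨T, fun r => cut S T (List.ofFn r)⟩
  have hwf : WF (sinit n) := by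
    intro A i
    exact ⟨fun _ => rfl, fun _ _ => rfl⟩
  have hinst : ∀ x : Fin n → ℝ, inst x S 0 0 = comput c x := by
    intro x
    have := inst_sexec x c (sinit n) 0 (fun _ => .halt false) (fun _ => .halt false) hwf
      (fun _ _ _ => rfl)
    rw [inst_sinit] at this
    exact this
  have hdeg : StDeg (sinit n) 0 := by
    intro A i
    refine fPoly_deg _ _ ?_
    split_ifs
    · simp
    · simp
  have hS : SDeg S 0 := sdeg_sexec c (sinit n) _ 0 hdeg (fun _ _ _ _ => trivial)
  have hfits : W.Fits T := by
    refine ⟨le_rfl, fun r => ⟨cut_depth _ _ _, ?_⟩⟩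
    have := cut_deg S T 0 (List.ofFn r) hS
    rwa [zero_add] at this
  have hacc : ∀ (x : Fin n → ℝ) (P : List ℝ → ℝ), W.acc x P = (comput c x).acc P := by
    intro x P
    rw [acc_out _ T (htime x) P]
    unfold Verifier.acc
    rw [Finset.card_filter]
    push_cast
    congr 1
    refine Finset.sum_congr rfl fun r _ => ?_
    have := run_cut x S T 0 0 (List.ofFn r) P (by rw [hinst]; exact htime x)
    rw [hinst] at this
    simp only [W, this]
  obtain ⟨x, hx, P, hP⟩ := lower hn W T hfits hT a (fun x hx => by
    obtain ⟨P, hP⟩ := hc x hx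
    exact ⟨P, by rw [hacc]; exact hP⟩)
  exact ⟨x, hx, P, by rw [← hacc]; exact hP⟩

end AIP
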