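import Pool.Agent.AIP.Final
import Pool.Agent.AIP.Transfer

/-!
# The time of the program
-/

namespace AIP

open NExp Cmd

variable {n : ℕ}

theorem TimeLE_mono' (t : ITree) {T T' : ℕ} (h : T ≤ T') (ht : t.TimeLE T) : t.TimeLE T' := by
  induction T', h using Nat.le_induction with
  | base => exact ht
  | succ T' _ ih => exact TimeLE_mono t T' ih

/-- The counters `0`, `1`, `2` have the values `n`, `q`, `ℓ`. -/
def Ctrs (n q ℓ : ℕ) (c : ℕ → ℕ) : Prop := c 0 = n ∧ c 1 = q ∧ c 2 = ℓ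

/-- The counters `0`, `1`, `2` are never changed and all loops are executed at most `L` times. -/
def Cmd.Tame (n q ℓ L : ℕ) : Cmd → Prop
  | .seq a b => a.Tame n q ℓ L ∧ b.Tame n q ℓ L
  | .set i _ => 3 ≤ i
  | .ifle _ _ a b => a.Tame n q ℓ L ∧ b.Tame n q ℓ L
  | .ifzero _ _ a b => a.Tame n q ℓ L ∧ b.Tame n q ℓ L
  | .ifnonneg _ _ a b => a.Tame n q ℓ L ∧ b.Tame n q ℓ L
  | .flip i => 3 ≤ i
  | .loop i e a => 3 ≤ i ∧ (∀ c, Ctrs n q ℓ c → e.eval c ≤ L) ∧ a.Tame n q ℓ L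
  | _ => True

/-- Bound for the time. -/
def Cmd.cost (L : ℕ) : Cmd → ℕ
  | .seq a b => a.cost L + b.cost L
  | .ifle _ _ a b => 1 + max (a.cost L) (b.cost L)
  | .ifzero _ _ a b => 1 + max (a.cost L) (b.cost L)
  | .ifnonneg _ _ a b => 1 + max (a.cost L) (b.cost L)
  | .loop _ _ a => 1 + L * (1 + a.cost L)
  | _ => 1

theorem ctrs_setCtr {n q ℓ : ℕ} {s : St} (h : Ctrs n q ℓ s.ctr) (i v : ℕ) (hi : 3 ≤ i) :
    Ctrs n q ℓ (s.setCtr i v).ctr := by
  obtain ⟨h0, h1, h2⟩ := h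
  refine ⟨?_, ?_, ?_⟩
  · simp only [St.setCtr]
    rw [Function.update_of_ne (by omega)]
    exact h0
  · simp only [St.setCtr]
    rw [Function.update_of_ne (by omega)]
    exact h1
  · simp only [St.setCtr]
    rw [Function.update_of_ne (by omega)]
    exact h2

theorem time_exec {n q ℓ L : ℕ} (c : Cmd) (hc : c.Tame n q ℓ L) (T : ℕ) (K : St → ITree)
    (hK : ∀ s, Ctrs n q ℓ s.ctr → (K s).TimeLE T) (s : St) (hs : Ctrs n q ℓ s.ctr) :
    (exec c s K).TimeLE (c.cost L + T) := by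
  have tick1 : ∀ (t : ITree) (T : ℕ), t.TimeLE T → (ITree.tick t).TimeLE (1 + T) := by
    intro t T h
    rw [add_comm]
    exact h
  induction c generalizing T K s with
  | skip => exact tick1 _ _ (hK s hs)
  | halt b => trivial
  | seq a b iha ihb =>
    have := iha hc.1 (b.cost L + T) _ (fun s' hs' => ihb hc.2 T K hK s' hs') s hs
    rwa [← add_assoc] at this
  | set i e => exact tick1 _ _ (hK _ (ctrs_setCtr hs _ _ hc))
  | const A e r => exact tick1 _ _ (hK _ hs)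
  | nat A e f => exact tick1 _ _ (hK _ hs)
  | copy A e B f => exact tick1 _ _ (hK _ hs)
  | add A e B f C g => exact tick1 _ _ (hK _ hs)
  | sub A e B f C g => exact tick1 _ _ (hK _ hs)
  | mul A e B f C g =>
    simp only [exec]
    split_ifs
    · trivial
    · exact tick1 _ _ (hK _ hs)
  | ifle e f a b iha ihb =>
    simp only [exec, Cmd.cost]
    rw [add_assoc]
    refine tick1 _ _ ?_
    split_ifs
    · exact TimeLE_mono' _ (by omega) (iha hc.1 T K hK s hs)
    · exact TimeLE_mono' _ (by omega) (ihb hc.2 T K hK s hs)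
  | ifzero A e a b iha ihb =>
    simp only [exec, Cmd.cost]
    rw [add_assoc]
    refine tick1 _ _ ?_
    split_ifs
    · exact TimeLE_mono' _ (by omega) (iha hc.1 T K hK s hs)
    · exact TimeLE_mono' _ (by omega) (ihb hc.2 T K hK s hs)
  | ifnonneg A e a b iha ihb =>
    simp only [exec, Cmd.cost]
    rw [add_assoc]
    by_cases ht : s.tag A (e.eval s.ctr) = true
    · rw [if_pos ht]
      trivial
    · rw [if_neg ht]
      refine tick1 _ _ ?_
      split_ifs
      · exact TimeLE_mono' _ (by omega) (iha hc.1 T K hK s hs)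
      · exact TimeLE_mono' _ (by omega) (ihb hc.2 T K hK s hs)
  | flip i =>
    simp only [exec, Cmd.cost]
    rw [add_comm]
    exact ⟨hK _ (ctrs_setCtr hs _ _ hc), hK _ (ctrs_setCtr hs _ _ hc)⟩
  | ask A e B f =>
    simp only [exec, Cmd.cost]
    rw [add_comm]
    exact fun p => hK _ hs
  | loop i e a iha =>
    obtain ⟨hi, he, ha⟩ := hc
    have hloop : ∀ (r j : ℕ) (s : St), Ctrs n q ℓ s.ctr →
        (iter (exec a) i r j K s).TimeLE (r * (1 + a.cost L) + T) := by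
      intro r
      induction r with
      | zero => intro j s hs; simpa [iter] using hK s hs
      | succ r ihr =>
        intro j s hs
        simp only [iter]
        have h1 := iha ha (r * (1 + a.cost L) + T) _ (fun s' hs' => ihr (j + 1) s' hs')
          (s.setCtr i j) (ctrs_setCtr hs _ _ hi)
        have h2 := tick1 _ _ h1
        refine TimeLE_mono' _ ?_ h2
        rw [Nat.succ_mul]
        omega
    simp only [exec, Cmd.cost]
    rw [add_assoc]
    refine tick1 _ _ (TimeLE_mono' _ ?_ (hloop _ 0 s hs))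
    exact Nat.add_le_add_right (Nat.mul_le_mul_right _ (he _ hs)) _

/-! ### The program -/

theorem tame_rng {n q ℓ L : ℕ} (N : ℕ) (f : ℕ → Cmd) (h : ∀ j, (f j).Tame n q ℓ L) :
    (rng N f).Tame n q ℓ L := by
  induction N with
  | zero => trivial
  | succ N ih => exact ⟨ih, h N⟩

theorem tame_guard {n q ℓ L : ℕ} (A : ℕ) (e : NExp) : (guard A e).Tame n q ℓ L :=
  ⟨trivial, trivial⟩

theorem cost_rng (L N M : ℕ) (f : ℕ → Cmd) (h : ∀ j, (f j).cost L ≤ M) :
    (rng N f).cost L ≤ 1 + N * M := by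
  induction N with
  | zero => simp [rng, Cmd.cost]
  | succ N ih =>
    simp only [rng, Cmd.cost]
    have := h N
    rw [Nat.succ_mul]
    omega

section

variable {q ℓ L : ℕ} (h0 : n ≤ L) (h1 : 3 * q ≤ L) (h2 : ℓ ≤ L)

include h0 in
theorem t0 : ∀ c, Ctrs n q ℓ c → (ctr 0).eval c ≤ L := fun c hc => by
  simp only [NExp.eval]; rw [hc.1]; exact h0

include h1 in
theorem t1 : ∀ c, Ctrs n q ℓ c → (ctr 1).eval c ≤ L := fun c hc => by
  simp only [NExp.eval]; rw [hc.2.1]; omega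

include h1 in
theorem t13 : ∀ c, Ctrs n q ℓ c → (three (ctr 1)).eval c ≤ L := fun c hc => by
  rw [three_eval]; simp only [NExp.eval]; rw [hc.2.1]; exact h1

include h2 in
theorem t2 : ∀ c, Ctrs n q ℓ c → (ctr 2).eval c ≤ L := fun c hc => by
  simp only [NExp.eval]; rw [hc.2.2]; exact h2

include h1 in
theorem tame_level : levelCmd.Tame n q ℓ L := by
  refine ⟨⟨by norm_num, t1 h1, tame_rng _ _ fun c => trivial⟩,
    ⟨by norm_num, t1 h1, tame_rng _ _ fun c => ?_, tame_rng _ _ fun c => ?_,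
      tame_rng _ _ fun c => ?_⟩,
    ⟨by norm_num, t1 h1, tame_rng _ _ fun c => trivial, by norm_num, t13 h1,
      (by norm_num : 3 ≤ 6), trivial, trivial, tame_rng _ _ fun c => trivial, trivial⟩,
    ⟨by norm_num, t1 h1, tame_rng _ _ fun c => trivial⟩⟩
  · split_ifs <;> trivial
  · split_ifs <;> trivial
  · split_ifs <;> trivial

theorem tame_vec (X : ℕ → Cmd) (h : ∀ j, (X j).Tame n q ℓ L) : (vecCmd X).Tame n q ℓ L :=
  tame_rng _ _ fun e => ⟨trivial, trivial, h e, tame_guard _ _⟩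

include h1 h2 in
theorem tame_base : baseCmd.Tame n q ℓ L := by
  refine ⟨by norm_num, t1 h1, tame_rng _ _ fun c => ⟨trivial, trivial, tame_guard _ _⟩,
    tame_rng _ _ fun c => trivial,
    ⟨by norm_num, t2 h2, tame_rng _ _ fun c => trivial, trivial, trivial,
      ⟨tame_vec _ fun _ => trivial, tame_vec _ fun _ => trivial, tame_vec _ fun _ => trivial⟩,
      tame_rng _ _ fun c => trivial⟩,
    tame_rng _ _ fun c => tame_guard _ _⟩

include h0 h1 h2 in
theorem tame_body : bodyCmd.Tame n q ℓ L := by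
  refine ⟨⟨trivial, trivial, tame_rng _ _ fun c => trivial, trivial,
      tame_rng _ _ fun c => trivial⟩,
    ⟨tame_rng _ _ fun c => ⟨trivial, tame_guard _ _⟩, trivial, tame_rng _ _ fun c => trivial,
      trivial, tame_guard _ _⟩, ⟨trivial, trivial, tame_rng _ _ fun c => trivial⟩,
      ⟨by norm_num, t0 h0, tame_level h1⟩, tame_base h1 h2, trivial⟩

end

theorem cost_level (L : ℕ) : levelCmd.cost L ≤ 4 + 120 * L + 24 * (L * L) := by
  have r1 : (rng 18 fun c => ask 3 (lit 0) (30 + c) (ctr 4)).cost L ≤ 1 + 18 * 1 :=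
    cost_rng _ _ _ _ fun _ => le_rfl
  have r2 : (rng 18 fun c => if c < 6 then copy (70 + c) (three (ctr 4)) (10 + c) (ctr 4)
      else copy (70 + c) (three (ctr 4)) (24 + c) (ctr 4)).cost L ≤ 1 + 18 * 1 :=
    cost_rng _ _ _ _ fun _ => by split_ifs <;> exact le_rfl
  have r3 : (rng 18 fun c => if c < 6 then
      copy (70 + c) (add (three (ctr 4)) (lit 1)) (30 + c) (ctr 4)
      else if c < 12 then
      copy (70 + c) (add (three (ctr 4)) (lit 1)) (10 + c) (ctr 4)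
      else sub (70 + c) (add (three (ctr 4)) (lit 1)) (10 + c) (ctr 4) (30 + c)
        (ctr 4)).cost L ≤ 1 + 18 * 1 :=
    cost_rng _ _ _ _ fun _ => by split_ifs <;> exact le_rfl
  have r4 : (rng 18 fun c => if c < 12 then
      copy (70 + c) (add (three (ctr 4)) (lit 2)) (36 + c) (ctr 4)
      else sub (70 + c) (add (three (ctr 4)) (lit 2)) 2 (lit 0) 2 (lit 0)).cost L ≤
        1 + 18 * 1 :=
    cost_rng _ _ _ _ fun _ => by split_ifs <;> exact le_rfl
  have r5 : (rng 18 fun c => Cmd.add (50 + c) (ctr 5) (50 + c) (ctr 5) (70 + c) (ctr 4)).cost L ≤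
      1 + 18 * 1 := cost_rng _ _ _ _ fun _ => le_rfl
  have r6 : (rng 18 fun c => sub (50 + c) (ctr 5) 2 (lit 0) 2 (lit 0)).cost L ≤ 1 + 18 * 1 :=
    cost_rng _ _ _ _ fun _ => le_rfl
  have r7 : (rng 18 fun c => copy (10 + c) (ctr 4) (50 + c) (ctr 4)).cost L ≤ 1 + 18 * 1 :=
    cost_rng _ _ _ _ fun _ => le_rfl
  have c1 : coinCmd.cost L ≤ 23 := by
    simp only [coinCmd, Cmd.cost]
    omega
  have c2 : recvCmd.cost L ≤ 1 + L * 20 := by
    simp only [recvCmd, Cmd.cost]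
    exact Nat.add_le_add_left (Nat.mul_le_mul_left _ (by omega)) _
  have c3 : gensCmd.cost L ≤ 1 + L * 58 := by
    simp only [gensCmd, Cmd.cost]
    exact Nat.add_le_add_left (Nat.mul_le_mul_left _ (by omega)) _
  have c4 : randCmd.cost L ≤ 1 + L * (21 + L * 24) := by
    simp only [randCmd, Cmd.cost]
    have : L * (1 + coinCmd.cost L) ≤ L * 24 := Nat.mul_le_mul_left _ (by omega)
    exact Nat.add_le_add_left (Nat.mul_le_mul_left _ (by omega)) _
  have c5 : backCmd.cost L ≤ 1 + L * 20 := by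
    simp only [backCmd, Cmd.cost]
    exact Nat.add_le_add_left (Nat.mul_le_mul_left _ (by omega)) _
  simp only [levelCmd, Cmd.cost]
  nlinarith

theorem cost_vec (L : ℕ) (X : ℕ → Cmd) (h : ∀ j, (X j).cost L ≤ 1) : (vecCmd X).cost L ≤ 31 := by
  refine (cost_rng L 6 5 _ fun j => ?_).trans (by norm_num)
  simp only [Cmd.cost, guard]
  have := h j
  omega

theorem cost_base (L : ℕ) : baseCmd.cost L ≤ 1 + 47 * L + 50 * (L * L) := by
  have r1 : (rng 6 fun e => seq (sub 2 (lit 1) (16 + e) (ctr 4) (10 + e) (ctr 4))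
    (seq (sub 2 (lit 1) 2 (lit 1) (10 + e) (ctr 4)) (guard 2 (lit 1)))).cost L ≤ 1 + 6 * 4 :=
    cost_rng _ _ _ _ fun _ => by simp [Cmd.cost, guard]
  have r2 : (rng 6 fun e => copy 6 (lit e) (22 + e) (ctr 4)).cost L ≤ 1 + 6 * 1 :=
    cost_rng _ _ _ _ fun _ => le_rfl
  have r3 : (rng 6 fun e => guard 6 (lit e)).cost L ≤ 1 + 6 * 2 :=
    cost_rng _ _ _ _ fun _ => by simp [Cmd.cost, guard]
  have r4 : (rng 6 fun e => ask 3 (lit 0) 7 (lit e)).cost L ≤ 1 + 6 * 1 :=
    cost_rng _ _ _ _ fun _ => le_rfl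
  have r5 : (rng 6 fun e => copy 6 (lit e) 7 (lit e)).cost L ≤ 1 + 6 * 1 :=
    cost_rng _ _ _ _ fun _ => le_rfl
  have v0 := cost_vec L (fun _ => skip) fun _ => le_rfl
  have v1 := cost_vec L (fun e => sub 2 (lit 1) 2 (lit 1) 1 (lit e)) fun _ => le_rfl
  have v2 := cost_vec L (fun e => Cmd.add 2 (lit 1) 2 (lit 1) 1 (lit e)) fun _ => le_rfl
  have b1 : branchCmd.cost L ≤ 33 := by
    simp only [branchCmd, Cmd.cost]
    omega
  have d1 : digitStep.cost L ≤ 49 := by
    simp only [digitStep, Cmd.cost]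
    omega
  have d2 : digitsCmd.cost L ≤ 14 + L * 50 := by
    simp only [digitsCmd, Cmd.cost]
    have : L * (1 + digitStep.cost L) ≤ L * 50 := Nat.mul_le_mul_left _ (by omega)
    omega
  have k1 : claimCmd.cost L ≤ 46 + L * 50 := by
    simp only [claimCmd, Cmd.cost]
    omega
  simp only [baseCmd, Cmd.cost]
  have : L * (1 + claimCmd.cost L) ≤ L * (47 + L * 50) := Nat.mul_le_mul_left _ (by omega)
  nlinarith

theorem cost_body (L : ℕ) (hL : 1 ≤ L) : bodyCmd.cost L ≤ 1000 * L ^ 3 := by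
  have r1 : (rng 4 fun i => ask 3 (lit 0) 1 (lit (i + 2))).cost L ≤ 1 + 4 * 1 :=
    cost_rng _ _ _ _ fun _ => le_rfl
  have r2 : (rng 30 fun c => ask 3 (lit 0) 4 (lit c)).cost L ≤ 1 + 30 * 1 :=
    cost_rng _ _ _ _ fun _ => le_rfl
  have r3 : (rng 5 fun i => seq (sub 2 (lit 1) 4 (lit (6 * i)) 1 (lit (i + 1)))
      (guard 2 (lit 1))).cost L ≤ 1 + 5 * 3 :=
    cost_rng _ _ _ _ fun _ => by simp [Cmd.cost, guard]
  have r4 : (rng 5 fun i => Cmd.add 2 (lit 2) 2 (lit 2) 4 (lit (7 * i + 1))).cost L ≤ 1 + 5 * 1 :=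
    cost_rng _ _ _ _ fun _ => le_rfl
  have r5 : (rng 30 fun k => copy (22 + k % 6) (lit (k / 6)) 4 (lit k)).cost L ≤ 1 + 30 * 1 :=
    cost_rng _ _ _ _ fun _ => le_rfl
  have s1 : setupCmd.cost L ≤ 39 := by
    simp only [setupCmd, Cmd.cost]
    omega
  have g2 : (guard 2 (lit 2)).cost L = 2 := rfl
  have s2 : checkCmd.cost L ≤ 26 := by
    simp only [checkCmd, Cmd.cost]
    omega
  have s3 : initCmd.cost L ≤ 33 := by
    simp only [initCmd, Cmd.cost]
    omega
  have h1 := cost_level L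
  have h2 := cost_base L
  have h3 : L * (1 + levelCmd.cost L) ≤ L * (5 + 120 * L + 24 * (L * L)) :=
    Nat.mul_le_mul_left _ (by omega)
  have hb : bodyCmd.cost L ≤ 39 + 26 + 33 + (1 + L * (5 + 120 * L + 24 * (L * L))) +
      (1 + 47 * L + 50 * (L * L)) + 1 := by
    simp only [bodyCmd, Cmd.cost]
    omega
  refine hb.trans ?_
  have e1 : L ≤ L ^ 3 := Nat.le_self_pow (by norm_num) L
  have e2 : L * L ≤ L ^ 3 := by
    calc L * L = L * L * 1 := by ring
      _ ≤ L * L * L := Nat.mul_le_mul_left _ hL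
      _ = L ^ 3 := by ring
  have e3 : 1 ≤ L ^ 3 := Nat.one_le_pow _ _ hL
  have e4 : L * (5 + 120 * L + 24 * (L * L)) = 5 * L + 120 * (L * L) + 24 * L ^ 3 := by ring
  rw [e4]
  omega

theorem time_size (x : Fin n → ℝ) (T : ℕ) (K : St → ITree)
    (hK : ∀ s, Ctrs n (n + 5) ((n + 5) * n + 2) s.ctr → (K s).TimeLE T) :
    (exec sizeCmd (init x) K).TimeLE (2 * n + T + 3) := by
  have hloop : ∀ (r j : ℕ) (s : St), s.ctr 0 = n → s.ctr 1 = n + 5 →
      s.ctr 2 + r * (n + 5) = (n + 5) * n + 2 →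
      (iter (exec (set 2 (add (ctr 2) (ctr 1)))) 3 r j K s).TimeLE (2 * r + T) := by
    intro r
    induction r with
    | zero =>
      intro j s h0 h1 h2
      simpa [iter] using hK s ⟨h0, h1, by simpa using h2⟩
    | succ r ihr =>
      intro j s h0 h1 h2
      rw [show 2 * (r + 1) + T = (2 * r + T) + 1 + 1 by ring]
      have e0 : ((s.setCtr 3 j).setCtr 2 ((s.setCtr 3 j).ctr 2 + (s.setCtr 3 j).ctr 1)).ctr 0 =
          n := by simpa [St.setCtr] using h0
      have e1 : ((s.setCtr 3 j).setCtr 2 ((s.setCtr 3 j).ctr 2 + (s.setCtr 3 j).ctr 1)).ctr 1 =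
          n + 5 := by simpa [St.setCtr] using h1
      have e2 : ((s.setCtr 3 j).setCtr 2 ((s.setCtr 3 j).ctr 2 + (s.setCtr 3 j).ctr 1)).ctr 2 =
          s.ctr 2 + s.ctr 1 := by simp [St.setCtr]
      refine ihr (j + 1) ((s.setCtr 3 j).setCtr 2 ((s.setCtr 3 j).ctr 2 + (s.setCtr 3 j).ctr 1))
        e0 e1 ?_
      rw [e2, h1, ← h2]
      ring
  have h0 : (init x).ctr 0 = n := by simp [init]
  have e0 : (((init x).setCtr 1 (n + 5)).setCtr 2 2).ctr 0 = n := by simp [St.setCtr, init]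
  have e1 : (((init x).setCtr 1 (n + 5)).setCtr 2 2).ctr 1 = n + 5 := by simp [St.setCtr]
  have e2 : (((init x).setCtr 1 (n + 5)).setCtr 2 2).ctr 2 = 2 := by simp [St.setCtr]
  have h := hloop n 0 (((init x).setCtr 1 (n + 5)).setCtr 2 2) e0 e1 (by rw [e2]; ring)
  have e3 : exec sizeCmd (init x) K = .tick (.tick (.tick
      (iter (exec (set 2 (add (ctr 2) (ctr 1)))) 3
        ((((init x).setCtr 1 ((init x).ctr 0 + 5)).setCtr 2 2).ctr 0) 0 K
        (((init x).setCtr 1 ((init x).ctr 0 + 5)).setCtr 2 2)))) := rfl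
  rw [e3, h0, e0]
  exact h

theorem top_time (x : Fin n → ℝ) : (comput topCmd x).TimeLE (10 ^ 7 * (n + 1) ^ 6) := by
  have h0 : (init x).ctr 0 = n := by simp [init]
  have e2 : comput topCmd x = .tick (if (init x).ctr 0 ≤ 1 then .halt false else
      exec sizeCmd (init x) (fun s => exec bodyCmd s (fun _ => .halt false))) := rfl
  rw [e2, h0]
  have hbig : ∃ M, 10 ^ 7 * (n + 1) ^ 6 = M + 1 ∧
      2 * n + 1000 * (17 * (n + 1) ^ 2) ^ 3 + 3 ≤ M := by
    have hpow : n + 1 ≤ (n + 1) ^ 6 := Nat.le_self_pow (by norm_num) _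
    refine ⟨10 ^ 7 * (n + 1) ^ 6 - 1, by omega, ?_⟩
    have : 1000 * (17 * (n + 1) ^ 2) ^ 3 = 4913000 * (n + 1) ^ 6 := by ring
    rw [this]
    omega
  obtain ⟨M, hM1, hM2⟩ := hbig
  rw [hM1]
  simp only [ITree.TimeLE]
  split_ifs with hn
  · trivial
  · set L := 17 * (n + 1) ^ 2 with hL
    have q0 : n ≤ L := by rw [hL]; nlinarith
    have q1 : 3 * (n + 5) ≤ L := by rw [hL]; nlinarith
    have q2 : (n + 5) * n + 2 ≤ L := by rw [hL]; nlinarith
    have q3 : 1 ≤ L := by rw [hL]; nlinarith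
    refine TimeLE_mono' _ hM2 (time_size x _ _ fun s hs => ?_)
    have hk := time_exec (n := n) (q := n + 5) (ℓ := (n + 5) * n + 2) (L := L) bodyCmd
      (tame_body q0 q1 q2) 0 (fun _ => .halt false) (fun _ _ => trivial) s hs
    exact TimeLE_mono' _ (cost_body L q3) hk

/-- The program is a verifier for `Lang`. -/
theorem top_decides : Decides topCmd Lang := by
  refine ⟨10 ^ 7, fun n x => ⟨TimeLE_mono' _ ?_ (top_time x), top_complete' x, fun hx P =>
    (top_sound' x hx P).trans ?_⟩⟩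
  · exact Nat.mul_le_mul_left _ (Nat.pow_le_pow_right (by omega) (by norm_num))
  · rw [div_le_iff₀ (by positivity)]
    have h1 : (n : ℝ) ≤ 2 ^ n := by exact_mod_cast Nat.lt_two_pow_self.le
    rw [pow_add]
    have h2 : (0 : ℝ) ≤ 2 ^ n := by positivity
    linarith

/-- Polynomials are eventually smaller. -/
theorem exists_big (C : ℕ) : ∃ n, 2 ≤ n ∧ 18 * (C * (n + 1) ^ C) + 8 ≤ 2 ^ n := by
  have h := (tendsto_pow_const_div_const_pow_of_one_lt (C + 1) (r := (2 : ℝ)) (by norm_num))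
  have h2 := h.eventually_lt_const (show (0 : ℝ) < 1 / 4 by norm_num)
  obtain ⟨N, hN⟩ := Filter.eventually_atTop.1 h2
  let m := max N (18 * C + 10)
  have hm := hN (m + 1) (by omega)
  have hm2 : ((m + 1 : ℕ) : ℝ) ^ (C + 1) < 1 / 4 * 2 ^ (m + 1) := by
    rwa [div_lt_iff₀ (by positivity)] at hm
  have hm3 : 2 * (m + 1) ^ (C + 1) < 2 ^ m := by
    have : (2 : ℝ) * ((m + 1 : ℕ) : ℝ) ^ (C + 1) < 2 ^ m := by
      rw [pow_succ] at hm2
      rw [pow_succ (2 : ℝ) m] at hm2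
      rw [pow_succ]
      linarith
    exact_mod_cast this
  refine ⟨m, by omega, ?_⟩
  have h5 : 1 ≤ (m + 1) ^ C := Nat.one_le_pow _ _ (by omega)
  calc 18 * (C * (m + 1) ^ C) + 8 ≤ 18 * C * (m + 1) ^ C + 8 * (m + 1) ^ C := by
        rw [mul_assoc]; omega
    _ = (18 * C + 8) * (m + 1) ^ C := by ring
    _ ≤ (m + 1) * (m + 1) ^ C := Nat.mul_le_mul_right _ (by omega)
    _ = (m + 1) ^ (C + 1) := by rw [pow_succ]; ring
    _ ≤ 2 ^ m := by omega

theorem not_decides (c : Cmd) : ¬ Decides c fun n => (Lang n)ᶜ := by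
  rintro ⟨C, hC⟩
  obtain ⟨n, hn, hT⟩ := exists_big C
  obtain ⟨x, hx, P, hP⟩ := lower_prog hn c (C * (n + 1) ^ C) hT (fun x => (hC n x).1) 1
    fun x hx => by
      obtain ⟨P, hP⟩ := (hC n x).2.1 hx
      exact ⟨P, hP.ge⟩
  have := (hC n x).2.2 (fun h => h hx) P
  linarith

end AIP
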