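import Pool.Agent.AIP.Lang

/-!
# Real interactive protocols whose verifier is affine in the prover's messages

Verifiers for inputs `x ∈ ℝⁿ` are given nonuniformly, one computation tree for every string of
coins.  Quantities that do not involve the prover's messages are polynomials in `x` (and may be
tested for `≥ 0`), quantities that involve the messages are affine in them, with coefficients
polynomial in `x`, and may be tested for `= 0` and sent to the prover.
-/

namespace AIP

open MvPolynomial

/-- A quantity `∑ cᵢ(x) pᵢ + c(x)`, affine in the prover's messages `p₀, p₁, …`, whose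
coefficients are polynomials in the input `x`. -/
structure AForm (n : ℕ) where
  /-- coefficients of the messages -/
  coef : ℕ →₀ MvPolynomial (Fin n) ℝ
  /-- the part without messages -/
  const : MvPolynomial (Fin n) ℝ

/-- Value of the affine form at the input `x` and the messages `s`. -/
noncomputable def AForm.val {n : ℕ} (φ : AForm n) (x : Fin n → ℝ) (s : ℕ → ℝ) : ℝ :=
  (φ.coef.sum fun i c => eval x c * s i) + eval x φ.const

/-- Verifier for one fixed coin string: `halt b` stops and outputs `b`; `sgn f` tests whether
`f(x) ≥ 0`, where `f` does not involve messages; `test φ` tests whether `φ = 0`;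
`round φ` sends the real `φ` to the prover and receives one real. -/
inductive VTree (n : ℕ) : Type
  | halt (b : Bool) : VTree n
  | sgn (f : MvPolynomial (Fin n) ℝ) (ge lt : VTree n) : VTree n
  | test (φ : AForm n) (eq ne : VTree n) : VTree n
  | round (φ : AForm n) (next : VTree n) : VTree n

/-- The run of a verifier tree on the input `x`, after `k` rounds in which the messages
`s 0, …, s (k-1)` were received, against the prover `P`; the prover's reply is a function of the
list of all reals which the verifier sent so far (here: from now on). -/
noncomputable def VTree.run {n : ℕ} : VTree n → (Fin n → ℝ) → ℕ → (ℕ → ℝ) → (List ℝ → ℝ) → Bool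
  | .halt b, _, _, _, _ => b
  | .sgn f a b, x, k, s, P => open scoped Classical in
      if 0 ≤ eval x f then a.run x k s P else b.run x k s P
  | .test φ a b, x, k, s, P => open scoped Classical in
      if φ.val x s = 0 then a.run x k s P else b.run x k s P
  | .round φ t, x, k, s, P =>
      t.run x (k + 1) (Function.update s k (P [φ.val x s])) (fun h => P (φ.val x s :: h))

/-- The number of tests and rounds on a longest path. -/
def VTree.depth {n : ℕ} : VTree n → ℕ
  | .halt _ => 0
  | .sgn _ a b => max a.depth b.depth + 1
  | .test _ a b => max a.depth b.depth + 1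
  | .round _ t => t.depth + 1

/-- All polynomials in the form have total degree at most `d`. -/
def AForm.DegLE {n : ℕ} (d : ℕ) (φ : AForm n) : Prop :=
  (∀ i, (φ.coef i).totalDegree ≤ d) ∧ φ.const.totalDegree ≤ d

/-- All polynomials in the tree have total degree at most `d`. -/
def VTree.DegLE {n : ℕ} (d : ℕ) : VTree n → Prop
  | .halt _ => True
  | .sgn f a b => f.totalDegree ≤ d ∧ a.DegLE d ∧ b.DegLE d
  | .test φ a b => φ.DegLE d ∧ a.DegLE d ∧ b.DegLE d
  | .round φ t => φ.DegLE d ∧ t.DegLE d

/-- A form of an additive machine without real constants: an integer combination of the inputs,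
the messages and `1`, with sum of the absolute values of the coefficients at most `N`. -/
def AForm.IntLE {n : ℕ} (N : ℕ) (φ : AForm n) : Prop :=
  ∃ (c : ℕ →₀ ℤ) (e : Fin n → ℤ) (e₀ : ℤ),
    (∀ i, φ.coef i = C (c i : ℝ)) ∧ φ.const = (∑ j, C (e j : ℝ) * X j) + C (e₀ : ℝ) ∧
      (c.sum fun _ a => |a|) + (∑ j, |e j|) + |e₀| ≤ N

/-- The tree is the tree of an additive machine: no order tests, no products, all forms are
integer forms with coefficient sum at most `N`. -/
def VTree.IntLE {n : ℕ} (N : ℕ) : VTree n → Prop
  | .halt _ => True
  | .sgn _ _ _ => False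
  | .test φ a b => φ.IntLE N ∧ a.IntLE N ∧ b.IntLE N
  | .round φ t => φ.IntLE N ∧ t.IntLE N

/-- A verifier for inputs in `ℝⁿ`: the number of its coins and a tree for each coin string. -/
structure Verifier (n : ℕ) where
  /-- number of coins -/
  coins : ℕ
  /-- the computation for each value of the coins -/
  tree : (Fin coins → Bool) → VTree n

/-- Probability that the verifier accepts `x` with the prover `P`. -/
noncomputable def Verifier.acc {n : ℕ} (V : Verifier n) (x : Fin n → ℝ) (P : List ℝ → ℝ) : ℝ :=
  ((Finset.univ.filter fun r => (V.tree r).run x 0 0 P = true).card : ℝ) / 2 ^ V.coins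

/-- At most `T` coins, at most `T` tests and rounds, degrees at most `2 ^ T`
(as for a machine over `(ℝ,+,-,×,≥)` that runs in time `T`). -/
def Verifier.Fits {n : ℕ} (V : Verifier n) (T : ℕ) : Prop :=
  V.coins ≤ T ∧ ∀ r, (V.tree r).depth ≤ T ∧ (V.tree r).DegLE (2 ^ T)

/-- At most `T` coins, at most `T` tests and rounds, integer forms with coefficient sum at most
`2 ^ T`, no order tests, no products. -/
def Verifier.FitsAdd {n : ℕ} (V : Verifier n) (T : ℕ) : Prop :=
  V.coins ≤ T ∧ ∀ r, (V.tree r).depth ≤ T ∧ (V.tree r).IntLE (2 ^ T)

end AIP
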