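import Pool.Agent.AIP.Main

/-!
# Completeness and soundness of the program
-/

namespace AIP

open NExp Cmd

variable {n : ℕ}

theorem init_ctr (x : Fin n → ℝ) (i : ℕ) : (init x).er.ctr i = if i = 0 then n else 0 := rfl

theorem size_rule (Q : ITree → Prop) (hn : 2 ≤ n) (x : Fin n → ℝ) (K : S0 → ITree)
    (hK : ∀ s, Pre n (n + 5) ((n + 5) * n + 2) (x ⟨0, by omega⟩) (x ⟨1, by omega⟩) s →
      Q (K s)) : Q (exec0 sizeCmd (init x).er K) := by
  have e1 : ∀ (i : ℕ) (e : NExp) (s : S0) (K : S0 → ITree),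
    exec0 (set i e) s K = K (s.setCtr i (e.eval s.ctr)) := fun _ _ _ _ => rfl
  simp only [sizeCmd, exec0_seq, e1]
  refine loop_det Q 3 (ctr 0) _ n (fun j s => s.ctr 0 = n ∧ s.ctr 1 = n + 5 ∧
    s.ctr 2 = (n + 5) * j + 2 ∧ s.cell = (init x).er.cell) ?_ _ _ ?_ ⟨?_, ?_, ?_, rfl⟩ ?_
  · rintro j hj s K ⟨h0, h1, h2, h3⟩ hK
    rw [e1]
    refine hK _ ⟨?_, ?_, ?_, h3⟩
    · rw [S0.ctr_setCtr, if_neg (by norm_num), S0.ctr_setCtr, if_neg (by norm_num)]
      exact h0
    · rw [S0.ctr_setCtr, if_neg (by norm_num), S0.ctr_setCtr, if_neg (by norm_num)]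
      exact h1
    · rw [S0.ctr_setCtr, if_pos rfl]
      simp only [NExp.eval]
      rw [S0.ctr_setCtr, if_neg (by norm_num), S0.ctr_setCtr, if_neg (by norm_num), h1, h2]
      ring
  · simp [NExp.eval, S0.ctr_setCtr, init_ctr]
  · simp [S0.ctr_setCtr, init_ctr]
  · simp [NExp.eval, S0.ctr_setCtr, init_ctr]
  · simp [NExp.eval, S0.ctr_setCtr]
  · rintro s ⟨h0, h1, h2, h3⟩
    refine hK s ⟨h0, h1, h2, ?_, ?_, ?_⟩
    · rw [h3]
      simp only [St.er, init]
      rw [dif_pos ⟨trivial, by omega⟩]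
    · rw [h3]
      simp only [St.er, init]
      rw [dif_pos ⟨trivial, by omega⟩]
    · intro A i hA
      rw [h3]
      simp only [St.er, init]
      rw [dif_neg (by omega)]

theorem topCmd_eq (hn : 2 ≤ n) (x : Fin n → ℝ) (K : S0 → ITree) :
    exec0 topCmd (init x).er K = exec0 sizeCmd (init x).er (fun s => exec0 bodyCmd s K) := by
  have h2 : exec0 topCmd (init x).er K = if (init x).er.ctr 0 ≤ 1 then .halt false else
      exec0 sizeCmd (init x).er (fun s => exec0 bodyCmd s K) := rfl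
  rw [h2, if_neg (by rw [init_ctr, if_pos rfl]; omega)]

theorem topCmd_small (hn : ¬ 2 ≤ n) (x : Fin n → ℝ) (K : S0 → ITree) :
    exec0 topCmd (init x).er K = .halt false := by
  have h2 : exec0 topCmd (init x).er K = if (init x).er.ctr 0 ≤ 1 then .halt false else
      exec0 sizeCmd (init x).er (fun s => exec0 bodyCmd s K) := rfl
  rw [h2, if_pos (by rw [init_ctr, if_pos rfl]; omega)]

theorem three_mul_le (q : ℕ) (hq : 5 ≤ q) : 3 * q ≤ 2 ^ q := by
  induction q, hq using Nat.le_induction with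
  | base => norm_num
  | succ q hq ih =>
    rw [pow_succ]
    omega

theorem digits_enough (n : ℕ) : 2 * (3 * (n + 5)) ^ n < 2 ^ ((n + 5) * n + 2) := by
  have h1 : (3 * (n + 5)) ^ n ≤ (2 ^ (n + 5)) ^ n :=
    Nat.pow_le_pow_left (three_mul_le (n + 5) (by omega)) n
  rw [← pow_mul] at h1
  have h2 : 0 < 2 ^ ((n + 5) * n) := by positivity
  rw [pow_add]
  omega

theorem int_abs_le_sq (z : ℤ) : |z| ≤ z ^ 2 := by
  rw [← sq_abs]
  rcases (abs_nonneg z).eq_or_lt with h | h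
  · rw [← h]; norm_num
  · nlinarith

theorem body_W (hn : 2 ≤ n) (x : Fin n → ℝ) (hx : x ∈ Lang n) (s : S0)
    (hpre : Pre n (n + 5) ((n + 5) * n + 2) (x ⟨0, by omega⟩) (x ⟨1, by omega⟩) s) :
    W (exec0 bodyCmd s (fun _ => .halt false)) := by
  obtain ⟨_, a, ha, hax⟩ := hx
  obtain ⟨b1, b2, b3, b4, hsum⟩ := Nat.sum_four_squares (2 ^ 2 ^ n - a ^ 2).toNat
  have hsum' : a ^ 2 + (b1 : ℤ) ^ 2 + b2 ^ 2 + b3 ^ 2 + b4 ^ 2 = 2 ^ 2 ^ n := by
    have h1 : (((2 ^ 2 ^ n - a ^ 2).toNat : ℕ) : ℤ) = 2 ^ 2 ^ n - a ^ 2 :=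
      Int.toNat_of_nonneg (by linarith)
    rw [← hsum] at h1
    push_cast at h1
    linarith
  let A : ℕ → ℤ := fun i => if i = 0 then a else if i = 1 then b1 else if i = 2 then b2
    else if i = 3 then b3 else if i = 4 then b4 else 0
  have hA : A 0 ^ 2 + A 1 ^ 2 + A 2 ^ 2 + A 3 ^ 2 + A 4 ^ 2 = 2 ^ 2 ^ n := hsum'
  have hA' : ∀ i < 5, |A i| ≤ 2 ^ 2 ^ n := by
    intro i hi
    refine (int_abs_le_sq _).trans ?_
    have p0 := sq_nonneg (A 0)
    have p1 := sq_nonneg (A 1)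
    have p2 := sq_nonneg (A 2)
    have p3 := sq_nonneg (A 3)
    have p4 := sq_nonneg (A 4)
    rcases (show i = 0 ∨ i = 1 ∨ i = 2 ∨ i = 3 ∨ i = 4 by omega) with h | h | h | h | h <;>
      subst h <;> linarith
  set x0 : ℝ := x ⟨0, by omega⟩ with hx0
  let b : ℕ → ℝ := fun e => if e = 0 then x0 else A (e - 1) * x0
  let C : ℕ → ℝ := fun k => A (k / 6) * b (k % 6)
  let T : ℝ := 2 ^ 2 ^ n * x0
  have hb0 : b 0 = x0 := rfl
  have hbs : ∀ i, b (i + 1) = A i * x0 := by
    intro i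
    simp only [b]
    rw [if_neg (by omega), show i + 1 - 1 = i by omega]
  have hb1 : b 1 = x ⟨1, by omega⟩ := by
    rw [hbs 0, hax]
    rfl
  have hC : ∀ i e, e < 6 → C (6 * i + e) = A i * b e := by
    intro i e he
    simp only [C]
    rw [show (6 * i + e) / 6 = i by omega, show (6 * i + e) % 6 = e by omega]
  rw [← hb1, ← hb0] at hpre
  simp only [bodyCmd]
  rw [exec0_seq]
  refine setup_W b C T _ _ hpre fun s₁ h1 => ?_
  rw [exec0_seq]
  refine check_rule W s₁ _ h1 (Or.inr ⟨?_, ?_⟩) fun s₂ k _ _ => ?_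
  · intro i hi
    have := hC i 0 (by norm_num)
    rw [add_zero] at this
    rw [this, hbs, hb0]
    ring
  · unfold csum
    have e0 := hC 0 1 (by norm_num)
    have e1 := hC 1 2 (by norm_num)
    have e2 := hC 2 3 (by norm_num)
    have e3 := hC 3 4 (by norm_num)
    have e4 := hC 4 5 (by norm_num)
    norm_num at e0 e1 e2 e3 e4
    rw [e0, e1, e2, e3, e4, hbs 0, hbs 1, hbs 2, hbs 3, hbs 4]
    have : ((A 0 ^ 2 + A 1 ^ 2 + A 2 ^ 2 + A 3 ^ 2 + A 4 ^ 2 : ℤ) : ℝ) = 2 ^ 2 ^ n := by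
      rw [hA]; push_cast; rfl
    push_cast at this
    simp only [T]
    rw [← this]
    ring
  have h2 := k.setup h1
  rw [exec0_seq]
  refine init_rule W s₂ _ h2 fun s₃ h3 h4 => ?_
  refine levels_W (by omega) (digits_enough n) s₃ h3 fun i hi => ?_
  refine (WG_congr fun c hc => h4 i c hc).2 ⟨fun e he => ?_, if i < 5 then A i else 0, ?_,
    fun e he => ?_⟩
  · unfold cl1
    by_cases e0 : e = 0
    · subst e0
      by_cases hi0 : i = 0
      · subst hi0
        simp [T, hb0]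
      · simp [hi0]
    · rw [if_neg (by omega), if_neg (by omega), if_neg (by omega), if_neg e0, if_neg (by omega),
        if_neg (by omega), mul_zero]
  · split_ifs with h5
    · have := hA' i h5
      push_cast
      exact this
    · simp
  · unfold cl1
    rw [if_neg (by omega), if_neg (by omega)]
    by_cases h5 : i < 5
    · rw [if_pos ⟨by omega, h5⟩, if_pos h5, show 12 + e - 12 = e by omega, hC i e he]
    · rw [if_neg (by omega), if_neg h5]
      simp

theorem body_B (hn : 2 ≤ n) (x : Fin n → ℝ) (hx : x ∉ Lang n) (s : S0)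
    (hpre : Pre n (n + 5) ((n + 5) * n + 2) (x ⟨0, by omega⟩) (x ⟨1, by omega⟩) s) :
    B (n / 2 ^ (n + 5)) (exec0 bodyCmd s (fun _ => .halt false)) := by
  have hε : (0 : ℝ) ≤ n / 2 ^ (n + 5) := by positivity
  simp only [bodyCmd]
  rw [exec0_seq]
  refine setup_B _ _ _ _ _ hpre fun b C T s₁ hb0 hb1 h1 => ?_
  rw [exec0_seq]
  refine check_rule (B _) s₁ _ h1 (Or.inl (B_halt _ hε)) fun s₂ k hc1 hc2 => ?_
  have h2 := k.setup h1
  rw [exec0_seq]
  refine init_rule (B _) s₂ _ h2 fun s₃ h3 h4 => ?_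
  refine levels_B s₃ h3 ?_
  by_contra hcon
  push Not at hcon
  apply hx
  have hIn : ∀ i < n + 5, InG n b (cl1 b C T i) := fun i hi =>
    (InG_congr fun c hc => h4 i c hc).1 (hcon i hi)
  have hT : T = 2 ^ 2 ^ n * b 0 := by
    have := (hIn 0 (by omega)).1 0 (by norm_num)
    simpa [cl1] using this
  have hz : ∀ i, ∃ z : ℤ, i < 5 → ∀ e < 6, C (6 * i + e) = z * b e := by
    intro i
    by_cases hi : i < 5
    · obtain ⟨-, z, hz⟩ := hIn i (by omega)
      refine ⟨z, fun _ e he => ?_⟩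
      have := hz e he
      unfold cl1 at this
      rwa [if_neg (by omega), if_neg (by omega), if_pos ⟨by omega, hi⟩,
        show 12 + e - 12 = e by omega] at this
    · exact ⟨0, fun h => absurd h hi⟩
  choose z hz using hz
  have hb : ∀ i < 5, b (i + 1) = z i * b 0 := by
    intro i hi
    have e1 := hc1 i hi
    have e2 := hz i hi 0 (by norm_num)
    rw [add_zero] at e2
    rw [e2] at e1
    linarith
  have hx1 : x ⟨1, by omega⟩ = z 0 * x ⟨0, by omega⟩ := by
    rw [← hb1, ← hb0]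
    exact hb 0 (by norm_num)
  have hsum : ((z 0 ^ 2 + z 1 ^ 2 + z 2 ^ 2 + z 3 ^ 2 + z 4 ^ 2 : ℤ) : ℝ) * b 0 =
      2 ^ 2 ^ n * b 0 := by
    have e0 := hz 0 (by norm_num) 1 (by norm_num)
    have e1 := hz 1 (by norm_num) 2 (by norm_num)
    have e2 := hz 2 (by norm_num) 3 (by norm_num)
    have e3 := hz 3 (by norm_num) 4 (by norm_num)
    have e4 := hz 4 (by norm_num) 5 (by norm_num)
    norm_num at e0 e1 e2 e3 e4
    rw [hb 0 (by norm_num)] at e0
    rw [hb 1 (by norm_num)] at e1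
    rw [hb 2 (by norm_num)] at e2
    rw [hb 3 (by norm_num)] at e3
    rw [hb 4 (by norm_num)] at e4
    unfold csum at hc2
    rw [e0, e1, e2, e3, e4, hT] at hc2
    push_cast
    linarith
  by_cases h0 : b 0 = 0
  · refine ⟨hn, 0, by positivity, ?_⟩
    rw [hx1, ← hb0, h0]
    simp
  · refine ⟨hn, z 0, ?_, hx1⟩
    have h1 := mul_right_cancel₀ h0 hsum
    have h2 : z 0 ^ 2 + z 1 ^ 2 + z 2 ^ 2 + z 3 ^ 2 + z 4 ^ 2 = 2 ^ 2 ^ n := by exact_mod_cast h1
    have p1 := sq_nonneg (z 1)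
    have p2 := sq_nonneg (z 2)
    have p3 := sq_nonneg (z 3)
    have p4 := sq_nonneg (z 4)
    linarith

/-! ### The program is additive -/

theorem lin_rng (N : ℕ) (f : ℕ → Cmd) (h : ∀ j, (f j).Additive) : (rng N f).Additive := by
  induction N with
  | zero => trivial
  | succ N ih => exact ⟨ih, h N⟩

theorem lin_guard (A : ℕ) (e : NExp) : (guard A e).Additive := ⟨trivial, trivial⟩

theorem lin_level : levelCmd.Additive := by
  refine ⟨?_, ?_, ?_, ?_⟩
  · exact lin_rng _ _ fun c => trivial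
  · refine ⟨lin_rng _ _ fun c => ?_, lin_rng _ _ fun c => ?_, lin_rng _ _ fun c => ?_⟩
    · split_ifs <;> trivial
    · split_ifs <;> trivial
    · split_ifs <;> trivial
  · refine ⟨lin_rng _ _ fun c => trivial, trivial, trivial, trivial, lin_rng _ _ fun c => trivial,
      trivial⟩
  · exact lin_rng _ _ fun c => trivial

theorem lin_vec (X : ℕ → Cmd) (h : ∀ j, (X j).Additive) : (vecCmd X).Additive :=
  lin_rng _ _ fun e => ⟨trivial, trivial, h e, lin_guard _ _⟩

theorem lin_base : baseCmd.Additive := by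
  refine ⟨lin_rng _ _ fun c => ⟨trivial, trivial, lin_guard _ _⟩, lin_rng _ _ fun c => trivial,
    ⟨lin_rng _ _ fun c => trivial, trivial, trivial, ⟨lin_vec _ fun _ => trivial,
      lin_vec _ fun _ => trivial, lin_vec _ fun _ => trivial⟩, lin_rng _ _ fun c => trivial⟩,
      lin_rng _ _ fun c => lin_guard _ _⟩

theorem lin_body : bodyCmd.Additive := by
  refine ⟨⟨trivial, trivial, lin_rng _ _ fun c => trivial, trivial, lin_rng _ _ fun c => trivial⟩,
    ⟨lin_rng _ _ fun c => ⟨trivial, lin_guard _ _⟩, trivial, lin_rng _ _ fun c => trivial,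
      trivial, lin_guard _ _⟩, ⟨trivial, trivial, lin_rng _ _ fun c => trivial⟩, lin_level,
      lin_base, trivial⟩

theorem lin_top : topCmd.Additive := ⟨trivial, ⟨trivial, trivial, trivial⟩, lin_body⟩

theorem top_acc (x : Fin n → ℝ) (P : List ℝ → ℝ) : (comput topCmd x).acc P =
    (exec0 topCmd (init x).er (fun _ => .halt false)).acc P :=
  acc_exec0 topCmd lin_top _ _ (fun _ _ => rfl) _ P

theorem top_complete' (x : Fin n → ℝ) (hx : x ∈ Lang n) : ∃ P, (comput topCmd x).acc P = 1 := by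
  have hn : 2 ≤ n := hx.1
  have h : W (exec0 sizeCmd (init x).er (fun s => exec0 bodyCmd s (fun _ => .halt false))) :=
    size_rule W hn x _ fun s hs => body_W hn x hx s hs
  obtain ⟨P, hP⟩ := h
  refine ⟨P, ?_⟩
  rw [top_acc, topCmd_eq hn]
  exact hP

theorem top_sound' (x : Fin n → ℝ) (hx : x ∉ Lang n) (P : List ℝ → ℝ) :
    (comput topCmd x).acc P ≤ n / 2 ^ (n + 5) := by
  rw [top_acc]
  by_cases hn : 2 ≤ n
  · rw [topCmd_eq hn]
    exact size_rule (B (n / 2 ^ (n + 5))) hn x _ (fun s hs => body_B hn x hx s hs) P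
  · rw [topCmd_small hn]
    simp only [ITree.acc]
    positivity

end AIP
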