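import Mathlib

/-!
# The language
-/

namespace AIP

/-- The language: `x₁ = a x₀` for an integer `a` with `a² ≤ 2^(2^n)`. -/
def Lang (n : ℕ) : Set (Fin n → ℝ) :=
  {x | ∃ (h : 2 ≤ n) (a : ℤ), a ^ 2 ≤ 2 ^ 2 ^ n ∧ x ⟨1, by omega⟩ = a * x ⟨0, by omega⟩}

end AIP
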