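import Pool.Agent.AIP.Rand

/-!
# The level step
-/

namespace AIP

open NExp Cmd

theorem rows_row (A N : ℕ) (s : S0) : Rows A N (row s A) s := fun _ _ _ _ => rfl

theorem pow_level (m : ℕ) : (2 : ℝ) ^ 2 ^ (m + 1) = 2 ^ 2 ^ m * 2 ^ 2 ^ m := by
  rw [← pow_add]
  congr 1
  rw [pow_succ]
  ring

theorem exists_div (z c : ℤ) (hc : 0 < c) : ∃ z' r : ℤ, z = c * z' + r ∧ |r| < c ∧
    |z'| * c ≤ |z| := by
  rcases le_total 0 z with hz | hz
  · refine ⟨z / c, z % c, (Int.mul_ediv_add_emod z c).symm, ?_, ?_⟩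
    · rw [abs_of_nonneg (Int.emod_nonneg z hc.ne')]
      exact Int.emod_lt_of_pos z hc
    · rw [abs_of_nonneg (Int.ediv_nonneg hz hc.le), abs_of_nonneg hz]
      exact Int.ediv_mul_le z hc.ne'
  · refine ⟨-((-z) / c), -((-z) % c), ?_, ?_, ?_⟩
    · have := Int.mul_ediv_add_emod (-z) c
      linarith
    · rw [abs_neg, abs_of_nonneg (Int.emod_nonneg (-z) hc.ne')]
      exact Int.emod_lt_of_pos (-z) hc
    · rw [abs_neg, abs_of_nonneg (Int.ediv_nonneg (by linarith) hc.le), abs_of_nonpos hz]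
      exact Int.ediv_mul_le (-z) hc.ne'

/-- The honest messages for one claim. -/
theorem level_row (m S : ℕ) (hS : 1 ≤ S) (b g : ℕ → ℝ)
    (hg : WG (m + 1) (2 ^ 2 ^ (m + 1) * S) b g) : ∃ f : ℕ → ℝ,
    WG m (2 ^ 2 ^ m * S) b (fun c => if c < 6 then g c else f (c - 6)) ∧
    WG m (2 ^ 2 ^ m * S) b (fun c => if c < 6 then f c else if c < 12 then g c else g c - f c) ∧
    WG m (2 ^ 2 ^ m * S) b (fun c => if c < 12 then f (c + 6) else 0) := by
  obtain ⟨g1, z, g3, g2⟩ := hg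
  have hc0 : (0 : ℤ) < 2 ^ 2 ^ m := by positivity
  obtain ⟨z', r, e1, e2, e3⟩ := exists_div z (2 ^ 2 ^ m) hc0
  have hz' : |z'| ≤ ((2 ^ 2 ^ m * S : ℕ) : ℤ) := by
    have h2 : (2 : ℤ) ^ 2 ^ (m + 1) = 2 ^ 2 ^ m * 2 ^ 2 ^ m := by
      rw [← pow_add]
      congr 1
      rw [pow_succ]
      ring
    push_cast at g3 ⊢
    rw [h2] at g3
    have h3 : |z'| * 2 ^ 2 ^ m ≤ (2 ^ 2 ^ m * S) * 2 ^ 2 ^ m := by
      calc |z'| * 2 ^ 2 ^ m ≤ |z| := e3
        _ ≤ 2 ^ 2 ^ m * 2 ^ 2 ^ m * S := g3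
        _ = (2 ^ 2 ^ m * S) * 2 ^ 2 ^ m := by ring
    exact le_of_mul_le_mul_right h3 hc0
  refine ⟨fun c => if c < 6 then 2 ^ 2 ^ m * g c else if c < 12 then z' * b (c - 6)
    else 2 ^ 2 ^ m * (z' * b (c - 12)), ⟨fun e he => ?_, z', hz', fun e he => ?_⟩,
    ⟨fun e he => ?_, r, ?_, fun e he => ?_⟩, ⟨fun e he => ?_, 0, ?_, fun e he => ?_⟩⟩
  · beta_reduce
    rw [if_neg (by omega), if_pos he, if_pos (by omega), show 6 + e - 6 = e by omega]
  · beta_reduce
    rw [if_neg (by omega), if_neg (by omega), if_pos (by omega),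
      show 12 + e - 6 - 6 = e by omega]
  · beta_reduce
    rw [if_neg (by omega), if_pos (by omega), if_pos he, if_pos he, g1 e he, pow_level]
    ring
  · push_cast
    have hS' : (1 : ℤ) ≤ S := by exact_mod_cast hS
    nlinarith
  · beta_reduce
    rw [if_neg (by omega), if_neg (by omega), if_neg (by omega), if_neg (by omega), g2 e he,
      show 12 + e - 12 = e by omega, e1]
    push_cast
    ring
  · beta_reduce
    rw [if_pos (by omega), if_neg (by omega), if_neg (by omega), if_pos (by omega),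
      if_neg (by omega), if_pos (by omega), show 6 + e + 6 - 12 = e by omega,
      show e + 6 - 6 = e by omega]
  · rw [abs_zero]; positivity
  · beta_reduce
    rw [if_neg (by omega)]; simp

theorem level_row_sound (m : ℕ) (b g f : ℕ → ℝ)
    (h0 : InG m b (fun c => if c < 6 then g c else f (c - 6)))
    (h1 : InG m b (fun c => if c < 6 then f c else if c < 12 then g c else g c - f c))
    (h2 : InG m b (fun c => if c < 12 then f (c + 6) else 0)) : InG (m + 1) b g := by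
  obtain ⟨a0, z0, b0⟩ := h0
  obtain ⟨a1, z1, b1⟩ := h1
  obtain ⟨a2, z2, b2⟩ := h2
  have p1 : ∀ e < 6, f e = 2 ^ 2 ^ m * g e := by
    intro e he
    have := a0 e he
    beta_reduce at this
    rwa [if_neg (by omega), if_pos he, show 6 + e - 6 = e by omega] at this
  have p2 : ∀ e < 6, f (6 + e) = z0 * b e := by
    intro e he
    have := b0 e he
    beta_reduce at this
    rwa [if_neg (by omega), show 12 + e - 6 = 6 + e by omega] at this
  have p3 : ∀ e < 6, g (6 + e) = 2 ^ 2 ^ m * f e := by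
    intro e he
    have := a1 e he
    beta_reduce at this
    rwa [if_neg (by omega), if_pos (by omega), if_pos he] at this
  have p4 : ∀ e < 6, g (12 + e) - f (12 + e) = z1 * b e := by
    intro e he
    have := b1 e he
    beta_reduce at this
    rwa [if_neg (by omega), if_neg (by omega)] at this
  have p5 : ∀ e < 6, f (12 + e) = 2 ^ 2 ^ m * f (6 + e) := by
    intro e he
    have := a2 e he
    beta_reduce at this
    rwa [if_pos (by omega), if_pos (by omega), show 6 + e + 6 = 12 + e by omega,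
      show e + 6 = 6 + e by omega] at this
  refine ⟨fun e he => ?_, 2 ^ 2 ^ m * z0 + z1, fun e he => ?_⟩
  · rw [p3 e he, p1 e he, pow_level]
    ring
  · have e1 := p4 e he
    rw [p5 e he, p2 e he] at e1
    push_cast
    linarith

theorem level_W {n q ℓ : ℕ} {b : ℕ → ℝ} (m S : ℕ) (hS : 1 ≤ S) (s : S0) (K : S0 → ITree)
    (hs : Base n q ℓ b s) (hgood : ∀ i < q, WG (m + 1) (2 ^ 2 ^ (m + 1) * S) b (row s 10 i))
    (hK : ∀ s', Base n q ℓ b s' → (∀ i < q, WG m (2 ^ 2 ^ m * (3 * q * S)) b (row s' 10 i)) →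
      W (K s')) : W (exec0 levelCmd s K) := by
  have hex : ∀ i, ∃ f : ℕ → ℝ, i < q →
      WG m (2 ^ 2 ^ m * S) b (fun c => if c < 6 then row s 10 i c else f (c - 6)) ∧
      WG m (2 ^ 2 ^ m * S) b (fun c => if c < 6 then f c else
        if c < 12 then row s 10 i c else row s 10 i c - f c) ∧
      WG m (2 ^ 2 ^ m * S) b (fun c => if c < 12 then f (c + 6) else 0) := by
    intro i
    by_cases hi : i < q
    · obtain ⟨f, hf⟩ := level_row m S hS b _ (hgood i hi)
      exact ⟨f, fun _ => hf⟩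
    · exact ⟨0, fun h => absurd h hi⟩
  choose ms hms using hex
  simp only [levelCmd, exec0]
  refine recv_W (row s 10) ms s _ hs (rows_row 10 q s) fun s₁ a1 a2 a3 => ?_
  refine gens_spec W (row s 10) ms s₁ _ a1 a2 a3 fun s₂ b1 b2 => ?_
  refine rand_W m (2 ^ 2 ^ m * S) (gen (row s 10) ms) s₂ _ b1 b2 ?_ fun s₃ c1 c2 => ?_
  · intro idx hidx
    have hi : idx / 3 < q := by omega
    have h3 : idx = 3 * (idx / 3) ∨ idx = 3 * (idx / 3) + 1 ∨ idx = 3 * (idx / 3) + 2 := by omega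
    rcases h3 with h | h | h
    · rw [h]
      refine (WG_congr fun c _ => ?_).2 (hms _ hi).1
      rw [gen_zero]
    · rw [h]
      refine (WG_congr fun c _ => ?_).2 (hms _ hi).2.1
      rw [gen_one]
    · rw [h]
      refine (WG_congr fun c _ => ?_).2 (hms _ hi).2.2
      rw [gen_two]
  refine back_spec W (row s₃ 50) s₃ K c1 (rows_row 50 q s₃) fun s₄ d1 d2 => ?_
  refine hK s₄ d1 fun i hi => ?_
  have h1 := c2 i hi
  rw [show 3 * q * (2 ^ 2 ^ m * S) = 2 ^ 2 ^ m * (3 * q * S) by ring] at h1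
  refine (WG_congr fun c hc => ?_).2 h1
  exact d2 i hi c hc

theorem level_B {n q ℓ : ℕ} {b : ℕ → ℝ} (m : ℕ) (ε : ℝ) (hε : 0 ≤ ε) (s : S0) (K : S0 → ITree)
    (hs : Base n q ℓ b s) (hbad : ∃ i < q, ¬ InG (m + 1) b (row s 10 i))
    (hK : ∀ s', Base n q ℓ b s' → (∃ i < q, ¬ InG m b (row s' 10 i)) → B ε (K s')) :
    B (1 / 2 ^ q + ε) (exec0 levelCmd s K) := by
  simp only [levelCmd, exec0]
  refine recv_B _ (row s 10) s _ hs (rows_row 10 q s) fun s₁ a1 a2 => ?_
  refine gens_spec (B _) (row s 10) (row s₁ 30) s₁ _ a1 a2 (rows_row 30 q s₁) fun s₂ b1 b2 => ?_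
  refine rand_B m (gen (row s 10) (row s₁ 30)) ε hε s₂ _ b1 b2 ?_ fun s₃ c1 c2 => ?_
  · by_contra hcon
    push Not at hcon
    obtain ⟨i, hi, hb⟩ := hbad
    refine hb (level_row_sound m b (row s 10 i) (row s₁ 30 i) ?_ ?_ ?_)
    · refine (InG_congr fun c _ => ?_).1 (hcon (3 * i) (by omega))
      rw [gen_zero]
    · refine (InG_congr fun c _ => ?_).1 (hcon (3 * i + 1) (by omega))
      rw [gen_one]
    · refine (InG_congr fun c _ => ?_).1 (hcon (3 * i + 2) (by omega))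
      rw [gen_two]
  refine back_spec (B ε) (row s₃ 50) s₃ K c1 (rows_row 50 q s₃) fun s₄ d1 d2 => ?_
  obtain ⟨i, hi, hb⟩ := c2
  refine hK s₄ d1 ⟨i, hi, fun h => hb ?_⟩
  exact (InG_congr fun c hc => d2 i hi c hc).1 h

end AIP
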