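import Mathlib

/-!
# Linear systems with polynomial coefficients

If a system of linear equations and inequations in `N` unknowns, whose coefficients are
polynomials of degree at most `d` in a parameter `y`, is solvable for infinitely many real `y`,
then it is solvable for all `y` outside a finite set of size `≤ (t + 1) (N + 1) d`.
-/

namespace AIP

open Polynomial

section

variable {κ ι τ : Type*} [Fintype κ] [Fintype ι] [Fintype τ]

/-- `p` solves the system at the parameter `y`. -/
def Sol (A : κ → ι → ℝ[X]) (b : κ → ℝ[X]) (G : τ → ι → ℝ[X]) (h : τ → ℝ[X]) (y : ℝ)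
    (p : ι → ℝ) : Prop :=
  (∀ k, ∑ i, (A k i).eval y * p i = (b k).eval y) ∧
    ∀ t, ∑ i, (G t i).eval y * p i + (h t).eval y ≠ 0

theorem natDegree_det_le {r : ℕ} (M : Matrix (Fin r) (Fin r) ℝ[X]) (d : ℕ)
    (hM : ∀ i j, (M i j).natDegree ≤ d) : M.det.natDegree ≤ r * d := by
  rw [Matrix.det_apply]
  refine natDegree_sum_le_of_forall_le _ _ fun σ _ => ?_
  refine (natDegree_smul_le _ _).trans ?_
  refine (natDegree_prod_le _ _).trans ?_
  calc ∑ i, (M (σ i) i).natDegree ≤ ∑ _i : Fin r, d := Finset.sum_le_sum fun i _ => hM _ _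
    _ = r * d := by simp

theorem border {r : ℕ} (M : Matrix (Fin r) (Fin r) ℝ) (hM : M.det ≠ 0) (B R : Fin r → ℝ) (D : ℝ)
    (h : (Matrix.fromBlocks M (Matrix.of fun i (_ : Fin 1) => B i)
      (Matrix.of fun (_ : Fin 1) j => R j) (Matrix.of fun _ _ => D)).det = 0) :
    D = ∑ a, (Matrix.vecMul R M⁻¹) a * B a := by
  have : Invertible M := Matrix.invertibleOfIsUnitDet M (isUnit_iff_ne_zero.mpr hM)
  rw [Matrix.det_fromBlocks₁₁] at h
  have h2 := (mul_eq_zero.mp h).resolve_left hM
  rw [Matrix.det_fin_one] at h2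
  simp only [Matrix.sub_apply, Matrix.of_apply] at h2
  have h3 : D = ((Matrix.of fun (_ : Fin 1) j => R j) * ⅟M *
      (Matrix.of fun i (_ : Fin 1) => B i)) 0 0 := by linarith
  rw [h3, Matrix.mul_apply]
  refine Finset.sum_congr rfl fun a _ => ?_
  rw [Matrix.invOf_eq_nonsing_inv]
  rfl

theorem sum_split [DecidableEq ι] {M : Type*} [AddCommMonoid M] {r : ℕ} (C : Fin r → ι)
    (hC : Function.Injective C) (f : ι → M) :
    ∑ i, f i = (∑ c, f (C c)) + ∑ i ∈ Finset.univ.filter (fun i => ¬ ∃ c, C c = i), f i := by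
  rw [← Finset.sum_filter_add_sum_filter_not Finset.univ (fun i => ∃ c, C c = i) f]
  congr 1
  have : Finset.univ.filter (fun i => ∃ c, C c = i) = Finset.univ.image C := by
    ext i; simp
  rw [this, Finset.sum_image (fun a _ b _ hab => hC hab)]

theorem spec [DecidableEq ι] (A : κ → ι → ℝ[X]) (b : κ → ℝ[X]) (G : τ → ι → ℝ[X]) (h : τ → ℝ[X])
    (d : ℕ) (hA : ∀ k i, (A k i).natDegree ≤ d) (hb : ∀ k, (b k).natDegree ≤ d)
    (hG : ∀ t i, (G t i).natDegree ≤ d) (hh : ∀ t, (h t).natDegree ≤ d)
    (Y : Set ℝ) (hY : Y.Infinite) (hs : ∀ y ∈ Y, ∃ p, Sol A b G h y p) :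
    ∃ F : Finset ℝ, F.card ≤ (Fintype.card τ + 1) * ((Fintype.card ι + 1) * d) ∧
      ∀ y ∉ F, ∃ p, Sol A b G h y p := by
  classical
  let S : Set ℕ := {r | ∃ (R : Fin r → κ) (C : Fin r → ι), ∃ y ∈ Y,
    (Matrix.of fun a c => A (R a) (C c)).det.eval y ≠ 0}
  have hS0 : 0 ∈ S := by
    obtain ⟨y, hy⟩ := hY.nonempty
    exact ⟨Fin.elim0, Fin.elim0, y, hy, by simp [Matrix.det_isEmpty]⟩
  have inj : ∀ {r : ℕ} (R : Fin r → κ) (C : Fin r → ι) (y : ℝ),
      (Matrix.of fun a c => A (R a) (C c)).det.eval y ≠ 0 → Function.Injective C := by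
    intro r R C y hne c c' hcc
    by_contra hcne
    apply hne
    rw [Matrix.det_zero_of_column_eq hcne (fun a => by simp [hcc])]
    simp
  have hSb : ∀ r ∈ S, r ≤ Fintype.card ι := by
    rintro r ⟨R, C, y, _, hne⟩
    simpa using Fintype.card_le_of_injective C (inj R C y hne)
  have hbdd : BddAbove S := ⟨_, hSb⟩
  have hr := Nat.sSup_mem ⟨0, hS0⟩ hbdd
  have hrmax : ∀ r' ∈ S, r' ≤ sSup S := fun r' h' => le_csSup hbdd h'
  generalize sSup S = r at hr hrmax
  have hrι : r ≤ Fintype.card ι := hSb r hr
  obtain ⟨R, C, y₀, hy₀, hne⟩ := hr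
  have hmax : ∀ (R' : Fin (r + 1) → κ) (C' : Fin (r + 1) → ι), ∀ y ∈ Y,
      (Matrix.of fun a c => A (R' a) (C' c)).det.eval y = 0 := by
    intro R' C' y hy
    by_contra hcon
    have := hrmax (r + 1) ⟨R', C', y, hy, hcon⟩
    omega
  obtain ⟨p₀, hp₀⟩ := hs y₀ hy₀
  have hC := inj R C y₀ hne
  set M : Matrix (Fin r) (Fin r) ℝ[X] := Matrix.of fun a c => A (R a) (C c) with hM
  set δ : ℝ[X] := M.det with hδ
  let b' : Fin r → ℝ[X] := fun a => b (R a) -
    ∑ i ∈ Finset.univ.filter (fun i => ¬ ∃ c, C c = i), A (R a) i * Polynomial.C (p₀ i)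
  let q : Fin r → ℝ[X] := M.cramer b'
  have hq : ∀ a, ∑ c, A (R a) (C c) * q c = δ * b' a := by
    intro a
    have := congrFun (M.mulVec_cramer b') a
    simpa [Matrix.mulVec, dotProduct, hM] using this
  let Q : ι → ℝ[X] := fun i => if hi : ∃ c, C c = i then q hi.choose else δ * Polynomial.C (p₀ i)
  have hQC : ∀ c, Q (C c) = q c := by
    intro c
    have hi : ∃ c', C c' = C c := ⟨c, rfl⟩
    simp only [Q, dif_pos hi]
    congr 1
    exact hC hi.choose_spec
  have hQn : ∀ i, (¬ ∃ c, C c = i) → Q i = δ * Polynomial.C (p₀ i) := by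
    intro i hi
    simp only [Q, dif_neg hi]
  have rowR : ∀ a, ∑ i, A (R a) i * Q i = δ * b (R a) := by
    intro a
    rw [sum_split C hC]
    simp only [hQC]
    rw [hq a]
    have : ∑ i ∈ Finset.univ.filter (fun i => ¬ ∃ c, C c = i), A (R a) i * Q i =
        δ * ∑ i ∈ Finset.univ.filter (fun i => ¬ ∃ c, C c = i),
          A (R a) i * Polynomial.C (p₀ i) := by
      rw [Finset.mul_sum]
      refine Finset.sum_congr rfl fun i hi => ?_
      rw [hQn i (by simpa using hi)]
      ring
    rw [this]
    simp only [b']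
    ring
  have hδ0 : δ ≠ 0 := by
    intro h0
    apply hne
    rw [h0]; simp
  have row : ∀ k, ∑ i, A k i * Q i - δ * b k = 0 := by
    intro k
    apply Polynomial.eq_zero_of_infinite_isRoot
    have hinf : (Y \ (δ.roots.toFinset : Set ℝ)).Infinite := hY.diff (Finset.finite_toSet _)
    refine hinf.mono ?_
    rintro y ⟨hy, hyn⟩
    have hδy : δ.eval y ≠ 0 := by
      intro h0
      apply hyn
      simp [hδ0, h0]
    have hdetM : (M.map (fun p : ℝ[X] => p.eval y)).det = δ.eval y := by
      have := (Polynomial.evalRingHom y).map_det M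
      simpa [RingHom.mapMatrix_apply] using this.symm
    have hMy : (M.map (fun p : ℝ[X] => p.eval y)).det ≠ 0 := by rw [hdetM]; exact hδy
    have hv : ∀ i, (A k i).eval y = ∑ a, (Matrix.vecMul (fun c => (A k (C c)).eval y)
        (M.map (fun p : ℝ[X] => p.eval y))⁻¹) a * (A (R a) i).eval y := by
      intro i
      refine border _ hMy (fun a => (A (R a) i).eval y) (fun c => (A k (C c)).eval y) _ ?_
      have h1 := hmax (Sum.elim R (fun _ : Fin 1 => k) ∘ finSumFinEquiv.symm)
        (Sum.elim C (fun _ : Fin 1 => i) ∘ finSumFinEquiv.symm) y hy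
      have h2 := (Polynomial.evalRingHom y).map_det (Matrix.of fun a c =>
        A ((Sum.elim R (fun _ : Fin 1 => k) ∘ finSumFinEquiv.symm) a)
          ((Sum.elim C (fun _ : Fin 1 => i) ∘ finSumFinEquiv.symm) c))
      rw [Polynomial.coe_evalRingHom, h1] at h2
      rw [← Matrix.det_submatrix_equiv_self (finSumFinEquiv (m := r) (n := 1)).symm]
      rw [eq_comm] at h2
      refine Eq.trans ?_ h2
      congr 1
      ext a c
      simp only [Matrix.submatrix_apply, RingHom.mapMatrix_apply, Matrix.map_apply,
        Matrix.of_apply, Function.comp_apply, Polynomial.coe_evalRingHom]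
      rcases finSumFinEquiv.symm a with a' | a' <;> rcases finSumFinEquiv.symm c with c' | c' <;>
        simp [hM]
    obtain ⟨p', hp'⟩ := hs y hy
    set v := Matrix.vecMul (fun c => (A k (C c)).eval y)
        (M.map (fun p : ℝ[X] => p.eval y))⁻¹
    have hbk : (b k).eval y = ∑ a, v a * (b (R a)).eval y := by
      rw [← hp'.1 k]
      calc ∑ i, (A k i).eval y * p' i = ∑ i, ∑ a, v a * ((A (R a) i).eval y * p' i) := by
            refine Finset.sum_congr rfl fun i _ => ?_
            rw [hv i, Finset.sum_mul]
            refine Finset.sum_congr rfl fun a _ => ?_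
            ring
        _ = ∑ a, v a * ∑ i, (A (R a) i).eval y * p' i := by
            rw [Finset.sum_comm]
            refine Finset.sum_congr rfl fun a _ => ?_
            rw [Finset.mul_sum]
        _ = ∑ a, v a * (b (R a)).eval y := by
            refine Finset.sum_congr rfl fun a _ => ?_
            rw [hp'.1 (R a)]
    have hAk : ∑ i, (A k i).eval y * (Q i).eval y = δ.eval y * (b k).eval y := by
      rw [hbk]
      calc ∑ i, (A k i).eval y * (Q i).eval y =
            ∑ i, ∑ a, v a * ((A (R a) i).eval y * (Q i).eval y) := by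
            refine Finset.sum_congr rfl fun i _ => ?_
            rw [hv i, Finset.sum_mul]
            refine Finset.sum_congr rfl fun a _ => ?_
            ring
        _ = ∑ a, v a * ∑ i, (A (R a) i).eval y * (Q i).eval y := by
            rw [Finset.sum_comm]
            refine Finset.sum_congr rfl fun a _ => ?_
            rw [Finset.mul_sum]
        _ = ∑ a, v a * (δ.eval y * (b (R a)).eval y) := by
            refine Finset.sum_congr rfl fun a _ => ?_
            have := congrArg (Polynomial.eval y) (rowR a)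
            rw [Polynomial.eval_finset_sum] at this
            simp only [Polynomial.eval_mul] at this
            rw [this]
        _ = δ.eval y * ∑ a, v a * (b (R a)).eval y := by
            rw [Finset.mul_sum]
            refine Finset.sum_congr rfl fun a _ => ?_
            ring
    simp only [Set.mem_setOf_eq, Polynomial.IsRoot, Polynomial.eval_sub,
      Polynomial.eval_finset_sum, Polynomial.eval_mul]
    rw [hAk]; ring
  -- at `y₀`
  have hMy₀ : (M.map (fun p : ℝ[X] => p.eval y₀)).det ≠ 0 := by
    have := (Polynomial.evalRingHom y₀).map_det M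
    have h3 : (M.map (fun p : ℝ[X] => p.eval y₀)).det = δ.eval y₀ := by
      simpa [RingHom.mapMatrix_apply] using this.symm
    rw [h3]; exact hne
  have hq₀ : ∀ c, (q c).eval y₀ = δ.eval y₀ * p₀ (C c) := by
    have hz : (fun c => (q c).eval y₀ - δ.eval y₀ * p₀ (C c)) = 0 := by
      refine Matrix.eq_zero_of_mulVec_eq_zero hMy₀ ?_
      ext a
      simp only [Matrix.mulVec, dotProduct, Matrix.map_apply, Pi.zero_apply]
      have h1 := congrArg (Polynomial.eval y₀) (hq a)
      rw [Polynomial.eval_finset_sum] at h1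
      simp only [Polynomial.eval_mul] at h1
      have h2 := hp₀.1 (R a)
      rw [sum_split C hC] at h2
      have h4 : (b' a).eval y₀ = ∑ c, (A (R a) (C c)).eval y₀ * p₀ (C c) := by
        simp only [b', Polynomial.eval_sub, Polynomial.eval_finset_sum, Polynomial.eval_mul,
          Polynomial.eval_C]
        linarith
      rw [h4] at h1
      simp only [hM, Matrix.of_apply, mul_sub, Finset.sum_sub_distrib]
      rw [h1, Finset.mul_sum, sub_eq_zero]
      refine Finset.sum_congr rfl fun c _ => ?_
      ring
    intro c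
    have := congrFun hz c
    simp only [Pi.zero_apply] at this
    linarith
  have hQ₀ : ∀ i, (Q i).eval y₀ = δ.eval y₀ * p₀ i := by
    intro i
    by_cases hi : ∃ c, C c = i
    · obtain ⟨c, rfl⟩ := hi
      rw [hQC, hq₀]
    · rw [hQn i hi]; simp
  let F : τ → ℝ[X] := fun t => ∑ i, G t i * Q i + δ * h t
  have hF0 : ∀ t, F t ≠ 0 := by
    intro t h0
    have h1 := congrArg (Polynomial.eval y₀) h0
    simp only [F, Polynomial.eval_add, Polynomial.eval_finset_sum, Polynomial.eval_mul, hQ₀,
      Polynomial.eval_zero] at h1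
    have h2 : δ.eval y₀ * (∑ i, (G t i).eval y₀ * p₀ i + (h t).eval y₀) = 0 := by
      rw [← h1, mul_add, Finset.mul_sum]
      congr 1
      refine Finset.sum_congr rfl fun i _ => ?_
      ring
    exact hp₀.2 t ((mul_eq_zero.mp h2).resolve_left hne)
  have hMd : ∀ i j, (M i j).natDegree ≤ d := fun i j => hA _ _
  have hb'd : ∀ a, (b' a).natDegree ≤ d := by
    intro a
    refine (natDegree_sub_le _ _).trans (max_le (hb _) ?_)
    refine natDegree_sum_le_of_forall_le _ _ fun i _ => ?_
    refine natDegree_mul_le.trans ?_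
    simpa using hA (R a) i
  have hδd : δ.natDegree ≤ r * d := natDegree_det_le M d hMd
  have hqd : ∀ c, (q c).natDegree ≤ r * d := by
    intro c
    simp only [q, Matrix.cramer_apply]
    refine natDegree_det_le _ d fun i j => ?_
    rw [Matrix.updateCol_apply]
    split_ifs
    · exact hb'd i
    · exact hMd i j
  have hQd : ∀ i, (Q i).natDegree ≤ r * d := by
    intro i
    by_cases hi : ∃ c, C c = i
    · obtain ⟨c, rfl⟩ := hi
      rw [hQC]; exact hqd c
    · rw [hQn i hi]
      refine natDegree_mul_le.trans ?_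
      simpa using hδd
  have hFd : ∀ t, (F t).natDegree ≤ (Fintype.card ι + 1) * d := by
    intro t
    have h1 : (r + 1) * d ≤ (Fintype.card ι + 1) * d := Nat.mul_le_mul_right _ (by omega)
    refine le_trans ?_ h1
    refine (natDegree_add_le _ _).trans (max_le ?_ ?_)
    · refine natDegree_sum_le_of_forall_le _ _ fun i _ => ?_
      refine natDegree_mul_le.trans ?_
      have := hG t i
      have := hQd i
      linarith
    · refine natDegree_mul_le.trans ?_
      have := hh t
      linarith
  refine ⟨δ.roots.toFinset ∪ Finset.univ.biUnion (fun t => (F t).roots.toFinset), ?_, ?_⟩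
  · refine (Finset.card_union_le _ _).trans ?_
    have h1 : δ.roots.toFinset.card ≤ (Fintype.card ι + 1) * d := by
      refine (Multiset.toFinset_card_le _).trans ((Polynomial.card_roots' _).trans ?_)
      exact hδd.trans (Nat.mul_le_mul_right _ (by omega))
    have h2 : (Finset.univ.biUnion (fun t => (F t).roots.toFinset)).card ≤
        Fintype.card τ * ((Fintype.card ι + 1) * d) := by
      refine Finset.card_biUnion_le.trans ?_
      calc ∑ t, (F t).roots.toFinset.card ≤ ∑ _t : τ, (Fintype.card ι + 1) * d := by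
            refine Finset.sum_le_sum fun t _ => ?_
            exact (Multiset.toFinset_card_le _).trans ((Polynomial.card_roots' _).trans (hFd t))
        _ = _ := by simp
    calc _ ≤ (Fintype.card ι + 1) * d + Fintype.card τ * ((Fintype.card ι + 1) * d) :=
          add_le_add h1 h2
      _ = _ := by ring
  · intro y hy
    simp only [Finset.mem_union, Multiset.mem_toFinset, Finset.mem_biUnion, Finset.mem_univ,
      true_and, not_or, not_exists] at hy
    have hδy : δ.eval y ≠ 0 := by
      intro h0
      exact hy.1 (by simp [hδ0, h0])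
    have hFy : ∀ t, (F t).eval y ≠ 0 := by
      intro t h0
      exact hy.2 t (by simp [hF0 t, h0])
    refine ⟨fun i => (Q i).eval y / δ.eval y, fun k => ?_, fun t => ?_⟩
    · have h1 := congrArg (Polynomial.eval y) (row k)
      simp only [Polynomial.eval_sub, Polynomial.eval_finset_sum, Polynomial.eval_mul,
        Polynomial.eval_zero] at h1
      have h2 : ∑ i, (A k i).eval y * ((Q i).eval y / δ.eval y) =
          (∑ i, (A k i).eval y * (Q i).eval y) / δ.eval y := by
        rw [Finset.sum_div]
        refine Finset.sum_congr rfl fun i _ => ?_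
        ring
      rw [h2, div_eq_iff hδy]
      linarith
    · have h1 := hFy t
      simp only [F, Polynomial.eval_add, Polynomial.eval_finset_sum, Polynomial.eval_mul] at h1
      intro h0
      apply h1
      have h2 : ∑ i, (G t i).eval y * ((Q i).eval y / δ.eval y) =
          (∑ i, (G t i).eval y * (Q i).eval y) / δ.eval y := by
        rw [Finset.sum_div]
        refine Finset.sum_congr rfl fun i _ => ?_
        ring
      rw [h2] at h0
      field_simp at h0
      linarith

end

end AIP
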