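import Pool.Agent.AIP.Paths
import Pool.Agent.AIP.LinAlg

/-!
# No affine verifier of small size accepts exactly the complement of the language
-/

namespace AIP

open Polynomial

variable {n : ℕ}

/-- The line of inputs `(1, y, 0, …, 0)`. -/
def line (n : ℕ) (y : ℝ) : Fin n → ℝ := fun i => if i.val = 0 then 1 else if i.val = 1 then y else 0

/-- The line of inputs as a polynomial vector. -/
noncomputable def lineP (n : ℕ) : Fin n → ℝ[X] :=
  fun i => if i.val = 0 then 1 else if i.val = 1 then X else 0

/-- Restriction of a polynomial to the line. -/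
noncomputable def res (f : MvPolynomial (Fin n) ℝ) : ℝ[X] := MvPolynomial.aeval (lineP n) f

theorem res_eval (f : MvPolynomial (Fin n) ℝ) (y : ℝ) :
    (res f).eval y = MvPolynomial.eval (line n y) f := by
  have h : (Polynomial.evalRingHom y).comp (MvPolynomial.aeval (lineP n)).toRingHom =
      MvPolynomial.eval (line n y) := by
    apply MvPolynomial.ringHom_ext
    · intro r
      simp [MvPolynomial.aeval_C, Polynomial.algebraMap_eq]
    · intro i
      simp only [RingHom.comp_apply, AlgHom.toRingHom_eq_coe, RingHom.coe_coe,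
        MvPolynomial.aeval_X, Polynomial.coe_evalRingHom, MvPolynomial.eval_X, lineP, line]
      split_ifs <;> simp
  have := congrArg (fun g => g f) h
  simpa [res] using this

theorem res_deg (f : MvPolynomial (Fin n) ℝ) (d : ℕ) (hf : f.totalDegree ≤ d) :
    (res f).natDegree ≤ d := by
  have := MvPolynomial.aeval_natDegree_le (m := d) (n := 1) f hf (lineP n) (by
    intro i
    simp only [lineP]
    split_ifs <;> simp)
  simpa [res] using this

section

variable {Ω : Type*} [Fintype Ω] [DecidableEq Ω] {D : ℕ}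

/-- The row of a form after `k` rounds with the coins `r`. -/
noncomputable def rowA (φ : AForm n) (k : ℕ) (r : Ω) : Ω × Fin D → ℝ[X] :=
  fun i => if i.1 = r ∧ i.2.val < k then res (φ.coef i.2) else 0

/-- The messages of the coin string `r` encoded by a vector. -/
def dec (v : Ω × Fin D → ℝ) (r : Ω) : ℕ → ℝ := fun j => if h : j < D then v (r, ⟨j, h⟩) else 0

theorem rowA_deg (φ : AForm n) (k : ℕ) (r : Ω) (d : ℕ) (hφ : φ.DegLE d) (i : Ω × Fin D) :
    (rowA φ k r i).natDegree ≤ d := by
  unfold rowA
  split_ifs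
  · exact res_deg _ _ (hφ.1 _)
  · simp

theorem rowA_eval (φ : AForm n) (k : ℕ) (hk : k ≤ D) (r : Ω) (v : Ω × Fin D → ℝ) (y : ℝ) :
    ∑ i, (rowA φ k r i).eval y * v i + (res φ.const).eval y =
      φ.val (line n y) (trunc (dec v r) k) := by
  unfold AForm.val
  rw [res_eval]
  congr 1
  rw [Fintype.sum_prod_type, Finset.sum_eq_single r]
  · have h1 : (φ.coef.sum fun i c => MvPolynomial.eval (line n y) c * trunc (dec v r) k i) =
        ∑ i ∈ Finset.range D, MvPolynomial.eval (line n y) (φ.coef i) * trunc (dec v r) k i := by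
      rw [Finsupp.sum]
      have h2 : ∀ i, i ∉ φ.coef.support →
          MvPolynomial.eval (line n y) (φ.coef i) * trunc (dec v r) k i = 0 := by
        intro i hi
        rw [Finsupp.notMem_support_iff] at hi
        simp [hi]
      have h3 : ∀ i, i ∉ Finset.range D →
          MvPolynomial.eval (line n y) (φ.coef i) * trunc (dec v r) k i = 0 := by
        intro i hi
        have : ¬ i < k := by
          simp only [Finset.mem_range] at hi
          omega
        simp [trunc, this]
      rw [Finset.sum_subset (Finset.subset_union_left (s₂ := Finset.range D))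
        (fun i _ hi => h2 i hi)]
      rw [Finset.sum_subset (Finset.subset_union_right (s₁ := φ.coef.support))
        (fun i _ hi => h3 i hi)]
    rw [h1, Finset.sum_range]
    refine Finset.sum_congr rfl fun j _ => ?_
    simp only [rowA, true_and]
    by_cases hj : j.val < k
    · simp [hj, res_eval, trunc, dec]
    · simp [hj, trunc]
  · intro r' _ hr'
    refine Finset.sum_eq_zero fun j _ => ?_
    simp [rowA, hr']
  · simp

end

theorem sign_const (g : ℝ[X]) (α β y₁ y₂ : ℝ) (hg : ∀ z ∈ g.roots.toFinset, ¬ (α < z ∧ z < β))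
    (h1 : α < y₁ ∧ y₁ < β) (h2 : α < y₂ ∧ y₂ < β) (h : 0 ≤ g.eval y₁) : 0 ≤ g.eval y₂ := by
  by_cases h0 : g = 0
  · simp [h0]
  by_contra hneg
  push Not at hneg
  have hcont : ContinuousOn (fun y => g.eval y) (Set.Ioo α β) := g.continuous.continuousOn
  have hpre : IsPreconnected (Set.Ioo α β) := isPreconnected_Ioo
  have := hpre.intermediate_value (a := y₂) (b := y₁) h2 h1 hcont
  have hmem : (0 : ℝ) ∈ Set.Icc (g.eval y₂) (g.eval y₁) := ⟨hneg.le, h⟩
  obtain ⟨z, hz, hz0⟩ := this hmem
  refine hg z ?_ hz
  simp only [Multiset.mem_toFinset]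
  rw [Polynomial.mem_roots h0]
  exact hz0

theorem exists_block (Z : Finset ℝ) (M A : ℕ) (hA : (Z.card + 1) * M ≤ A) (hM : 0 < M) :
    ∃ t : ℕ, (t + 1) * M ≤ A ∧ ∀ z ∈ Z, ¬ ((t * M : ℝ) < z ∧ z < (t + 1) * M) := by
  classical
  by_contra hcon
  push Not at hcon
  have h1 : ∀ t : Fin (Z.card + 1), ∃ z ∈ Z, ((t : ℕ) * M : ℝ) < z ∧ z < ((t : ℕ) + 1) * M := by
    intro t
    refine hcon t (le_trans (Nat.mul_le_mul_right _ ?_) hA)
    omega
  choose f hf using h1
  have hinj : Function.Injective f := by
    intro s t hst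
    have hMR : (0 : ℝ) < M := by exact_mod_cast hM
    by_contra hne
    rcases lt_or_gt_of_ne (fun h => hne (Fin.ext h) : (s : ℕ) ≠ (t : ℕ)) with h | h
    · have h3 : ((s : ℕ) : ℝ) + 1 ≤ (t : ℕ) := by exact_mod_cast h
      have h4 := (hf s).2.2
      have h5 := (hf t).2.1
      rw [hst] at h4
      nlinarith
    · have h3 : ((t : ℕ) : ℝ) + 1 ≤ (s : ℕ) := by exact_mod_cast h
      have h4 := (hf t).2.2
      have h5 := (hf s).2.1
      rw [hst] at h5
      nlinarith
  have hcard : (Finset.univ : Finset (Fin (Z.card + 1))).card ≤ Z.card :=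
    Finset.card_le_card_of_injOn f (fun t _ => (hf t).1) (fun s _ t _ h => hinj h)
  simp at hcard

section

variable (W : Verifier n) (D : ℕ)

/-- Equations of a pattern. -/
noncomputable def eqRow (o : (Fin W.coins → Bool) → List Bool)
    (E : (Fin W.coins → Bool) → (Fin W.coins → Bool) → ℕ → Prop) :
    ((Fin W.coins → Bool) × Fin D) ⊕ ((Fin W.coins → Bool) × (Fin W.coins → Bool) × Fin D) →
      ((Fin W.coins → Bool) × Fin D → ℝ[X]) × ℝ[X]
  | .inl (r, t) => match (tests (W.tree r) 0 (o r))[(t : ℕ)]? with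
      | some (k, φ, true) => (rowA φ k r, - res φ.const)
      | _ => (0, 0)
  | .inr (r, r', i) => open scoped Classical in
      if E r r' (i + 1) ∧ (i : ℕ) < (sends (W.tree r) (o r)).length ∧
          (i : ℕ) < (sends (W.tree r') (o r')).length then
        (fun j => (if j = (r, i) then 1 else 0) - (if j = (r', i) then 1 else 0), 0) else (0, 0)

/-- Inequations of a pattern. -/
noncomputable def neRow (o : (Fin W.coins → Bool) → List Bool)
    (E : (Fin W.coins → Bool) → (Fin W.coins → Bool) → ℕ → Prop) :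
    ((Fin W.coins → Bool) × Fin D) ⊕ ((Fin W.coins → Bool) × (Fin W.coins → Bool) × Fin D) →
      ((Fin W.coins → Bool) × Fin D → ℝ[X]) × ℝ[X]
  | .inl (r, t) => match (tests (W.tree r) 0 (o r))[(t : ℕ)]? with
      | some (k, φ, false) => (rowA φ k r, res φ.const)
      | _ => (0, 1)
  | .inr (r, r', i) => open scoped Classical in
      if E r r' i ∧ ¬ E r r' (i + 1) then
        match (sends (W.tree r) (o r))[(i : ℕ)]?, (sends (W.tree r') (o r'))[(i : ℕ)]? with
        | some φ, some φ' => (rowA φ i r - rowA φ' i r', res φ.const - res φ'.const)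
        | _, _ => (0, 1)
      else (0, 1)

variable {W D}

theorem eqRow_deg (o : (Fin W.coins → Bool) → List Bool)
    (E : (Fin W.coins → Bool) → (Fin W.coins → Bool) → ℕ → Prop) (d : ℕ)
    (hW : ∀ r, (W.tree r).DegLE d) (κ) :
    (∀ j, ((eqRow W D o E κ).1 j).natDegree ≤ d) ∧ ((eqRow W D o E κ).2).natDegree ≤ d := by
  rcases κ with ⟨r, t⟩ | ⟨r, r', i⟩
  · simp only [eqRow]
    split
    · rename_i k φ h
      have hm := tests_mem (W.tree r) 0 d (o r) (hW r) _ (List.mem_of_getElem? h)
      refine ⟨fun j => rowA_deg φ k r d hm.2 j, ?_⟩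
      rw [natDegree_neg]
      exact res_deg _ _ hm.2.2
    · simp
  · simp only [eqRow]
    split_ifs
    · refine ⟨fun j => ?_, by simp⟩
      refine (natDegree_sub_le _ _).trans ?_
      split_ifs <;> simp
    · simp

theorem neRow_deg (o : (Fin W.coins → Bool) → List Bool)
    (E : (Fin W.coins → Bool) → (Fin W.coins → Bool) → ℕ → Prop) (d : ℕ)
    (hW : ∀ r, (W.tree r).DegLE d) (κ) :
    (∀ j, ((neRow W D o E κ).1 j).natDegree ≤ d) ∧ ((neRow W D o E κ).2).natDegree ≤ d := by
  rcases κ with ⟨r, t⟩ | ⟨r, r', i⟩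
  · simp only [neRow]
    split
    · rename_i k φ h
      have hm := tests_mem (W.tree r) 0 d (o r) (hW r) _ (List.mem_of_getElem? h)
      exact ⟨fun j => rowA_deg φ k r d hm.2 j, res_deg _ _ hm.2.2⟩
    · simp
  · simp only [neRow]
    split_ifs
    · split
      · rename_i φ φ' h h'
        have hm := sends_mem (W.tree r) d (o r) (hW r) _ (List.mem_of_getElem? h)
        have hm' := sends_mem (W.tree r') d (o r') (hW r') _ (List.mem_of_getElem? h')
        refine ⟨fun j => ?_, ?_⟩
        · exact (natDegree_sub_le _ _).trans (max_le (rowA_deg φ i r d hm j)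
            (rowA_deg φ' i r' d hm' j))
        · exact (natDegree_sub_le _ _).trans (max_le (res_deg _ _ hm.2) (res_deg _ _ hm'.2))
      · simp
    · simp

theorem trunc_dec (p : (Fin W.coins → Bool) → ℕ → ℝ) (r : Fin W.coins → Bool) (k : ℕ)
    (hk : k ≤ D) :
    trunc (dec (D := D) (fun j : (Fin W.coins → Bool) × Fin D => p j.1 j.2) r) k =
      trunc (p r) k := by
  ext i
  simp only [trunc, dec]
  split_ifs with h1 h2
  · rfl
  · omega
  · rfl

/-- The run of all coin strings against one prover satisfies the system of its pattern. -/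
theorem sol_of_data (o : (Fin W.coins → Bool) → List Bool)
    (E : (Fin W.coins → Bool) → (Fin W.coins → Bool) → ℕ → Prop)
    (hD : ∀ r, (W.tree r).depth ≤ D) (d : ℕ) (hW : ∀ r, (W.tree r).DegLE d) (y : ℝ)
    (P : List ℝ → ℝ) (p : (Fin W.coins → Bool) → ℕ → ℝ)
    (hag : ∀ r, Agree (W.tree r) (line n y) 0 (p r) (o r))
    (hrep : ∀ r, ∀ i < (sends (W.tree r) (o r)).length,
      P ((vals (line n y) (p r) 0 (sends (W.tree r) (o r))).take (i + 1)) = p r i)
    (hE : ∀ r r' i, i ≤ D → (E r r' i ↔
      (vals (line n y) (p r) 0 (sends (W.tree r) (o r))).take i =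
        (vals (line n y) (p r') 0 (sends (W.tree r') (o r'))).take i)) :
    Sol (fun κ => (eqRow W D o E κ).1) (fun κ => (eqRow W D o E κ).2)
      (fun κ => (neRow W D o E κ).1) (fun κ => (neRow W D o E κ).2) y
      (fun j => p j.1 j.2) := by
  constructor
  · rintro (⟨r, t⟩ | ⟨r, r', i⟩)
    · simp only [eqRow]
      split
      · rename_i k φ h
        have hmem := List.mem_of_getElem? h
        have hm := tests_mem (W.tree r) 0 d (o r) (hW r) _ hmem
        have hk : k ≤ D := by
          have := hm.1
          have := hD r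
          simp only at *
          omega
        have h1 := rowA_eval φ k hk r
          (fun j : (Fin W.coins → Bool) × Fin D => p j.1 j.2) y
        rw [trunc_dec p r k hk] at h1
        have h2 := ((hag r).2.1 _ hmem).2 rfl
        simp only at h2
        rw [h2] at h1
        simp only [Polynomial.eval_neg]
        linarith
      · simp
    · simp only [eqRow]
      split_ifs with h
      · obtain ⟨h1, h2, h3⟩ := h
        have h4 := (hE r r' (i + 1) (by have := i.2; omega)).1 h1
        have h5 := hrep r i h2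
        have h6 := hrep r' i h3
        rw [h4, h6] at h5
        simp only [Polynomial.eval_sub, sub_mul, Finset.sum_sub_distrib, Polynomial.eval_zero]
        rw [Finset.sum_eq_single (r, i) (by intro j _ hj; simp [hj]) (by simp),
          Finset.sum_eq_single (r', i) (by intro j _ hj; simp [hj]) (by simp)]
        simp [h5]
      · simp
  · rintro (⟨r, t⟩ | ⟨r, r', i⟩)
    · simp only [neRow]
      split
      · rename_i k φ h
        have hmem := List.mem_of_getElem? h
        have hm := tests_mem (W.tree r) 0 d (o r) (hW r) _ hmem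
        have hk : k ≤ D := by
          have := hm.1
          have := hD r
          simp only at *
          omega
        have h1 := rowA_eval φ k hk r
          (fun j : (Fin W.coins → Bool) × Fin D => p j.1 j.2) y
        rw [trunc_dec p r k hk] at h1
        rw [h1]
        intro h0
        have h2 := ((hag r).2.1 _ hmem).1 h0
        simp at h2
      · simp
    · simp only [neRow]
      split_ifs with h
      · obtain ⟨h1, h2⟩ := h
        split
        · rename_i φ φ' hφ hφ'
          have hi : (i : ℕ) ≤ D := i.2.le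
          have e1 := rowA_eval φ i hi r
            (fun j : (Fin W.coins → Bool) × Fin D => p j.1 j.2) y
          have e2 := rowA_eval φ' i hi r'
            (fun j : (Fin W.coins → Bool) × Fin D => p j.1 j.2) y
          rw [trunc_dec p r i hi] at e1
          rw [trunc_dec p r' i hi] at e2
          simp only [Pi.sub_apply, Polynomial.eval_sub, sub_mul, Finset.sum_sub_distrib]
          intro h0
          apply h2
          rw [hE r r' (i + 1) (by have := i.2; omega)]
          have h3 := (hE r r' i hi).1 h1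
          obtain ⟨hl, hl2⟩ := List.getElem?_eq_some_iff.1 hφ
          obtain ⟨hl', hl2'⟩ := List.getElem?_eq_some_iff.1 hφ'
          have g1 := vals_getElem (line n y) (p r) 0 (sends (W.tree r) (o r)) i hl
          have g2 := vals_getElem (line n y) (p r') 0 (sends (W.tree r') (o r')) i hl'
          rw [hl2] at g1
          rw [hl2'] at g2
          simp only [zero_add] at g1 g2
          rw [List.take_succ_eq_append_getElem (by rw [vals_length]; exact hl),
            List.take_succ_eq_append_getElem (by rw [vals_length]; exact hl'), h3, g1, g2]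
          congr 2
          linarith
        · simp
      · simp

/-- A solution of the system of a pattern at `a` gives a prover with the same outputs. -/
theorem data_of_sol (o : (Fin W.coins → Bool) → List Bool)
    (E : (Fin W.coins → Bool) → (Fin W.coins → Bool) → ℕ → Prop)
    (hD : ∀ r, (W.tree r).depth ≤ D) (d : ℕ) (hW : ∀ r, (W.tree r).DegLE d) (a : ℝ)
    (hE0 : ∀ r r', E r r' 0)
    (hshape : ∀ r, Shape (W.tree r) (o r))
    (hsign : ∀ r, ∀ e ∈ signs (W.tree r) (o r),
      (0 ≤ MvPolynomial.eval (line n a) e.1 ↔ e.2 = true))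
    (v : (Fin W.coins → Bool) × Fin D → ℝ)
    (hv : Sol (fun κ => (eqRow W D o E κ).1) (fun κ => (eqRow W D o E κ).2)
      (fun κ => (neRow W D o E κ).1) (fun κ => (neRow W D o E κ).2) a v) :
    ∃ P : List ℝ → ℝ, ∀ r, (W.tree r).run (line n a) 0 0 P = leaf (W.tree r) (o r) := by
  classical
  have hag : ∀ r, Agree (W.tree r) (line n a) 0 (dec v r) (o r) := by
    intro r
    refine ⟨hshape r, ?_, hsign r⟩
    intro e he
    obtain ⟨t, ht, rfl⟩ := List.getElem_of_mem he
    have htD : t < D := lt_of_lt_of_le ht ((tests_length _ _ _).trans (hD r))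
    have hm := tests_mem (W.tree r) 0 d (o r) (hW r) _ (List.getElem_mem ht)
    have hsome := List.getElem?_eq_getElem ht
    have hk : (tests (W.tree r) 0 (o r))[t].1 ≤ D := by
      have := hm.1
      have := hD r
      omega
    have heq := hv.1 (.inl (r, ⟨t, htD⟩))
    have hne := hv.2 (.inl (r, ⟨t, htD⟩))
    simp only [eqRow] at heq
    simp only [neRow] at hne
    rw [hsome] at heq hne
    rcases hcase : (tests (W.tree r) 0 (o r))[t] with ⟨k, φ, b⟩
    rw [hcase] at heq hne hk
    cases b
    · simp only at hne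
      rw [rowA_eval φ k hk r v a] at hne
      simpa using hne
    · simp only [Polynomial.eval_neg] at heq
      have := rowA_eval φ k hk r v a
      simp only [iff_true]
      rw [← this, heq]
      ring
  have key : ∀ r r' i, i < (sends (W.tree r) (o r)).length →
      i < (sends (W.tree r') (o r')).length →
      (vals (line n a) (dec v r) 0 (sends (W.tree r) (o r))).take (i + 1) =
        (vals (line n a) (dec v r') 0 (sends (W.tree r') (o r'))).take (i + 1) →
      dec v r i = dec v r' i := by
    intro r r' i hi hi' heq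
    have hiD : i < D := lt_of_lt_of_le hi ((sends_length _ _).trans (hD r))
    by_cases hEi : E r r' (i + 1)
    · have h1 := hv.1 (.inr (r, r', ⟨i, hiD⟩))
      simp only [eqRow] at h1
      rw [if_pos ⟨hEi, hi, hi'⟩] at h1
      simp only [Polynomial.eval_sub, sub_mul, Finset.sum_sub_distrib, Polynomial.eval_zero] at h1
      rw [Finset.sum_eq_single (r, ⟨i, hiD⟩) (by intro j _ hj; simp [hj]) (by simp),
          Finset.sum_eq_single (r', ⟨i, hiD⟩) (by intro j _ hj; simp [hj]) (by simp)] at h1
      simp only [if_true, Polynomial.eval_one, one_mul] at h1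
      simp only [dec, dif_pos hiD]
      linarith
    · exfalso
      have hex : ∃ j, j ≤ i ∧ E r r' j ∧ ¬ E r r' (j + 1) := by
        by_contra hcon
        push Not at hcon
        have : ∀ j, j ≤ i + 1 → E r r' j := by
          intro j
          induction j with
          | zero => intro _; exact hE0 r r'
          | succ j ih => intro hj; exact hcon j (by omega) (ih (by omega))
        exact hEi (this (i + 1) le_rfl)
      obtain ⟨j, hj, hj1, hj2⟩ := hex
      have hjD : j < D := by omega
      have h1 := hv.2 (.inr (r, r', ⟨j, hjD⟩))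
      simp only [neRow] at h1
      rw [if_pos ⟨hj1, hj2⟩] at h1
      have hjl : j < (sends (W.tree r) (o r)).length := by omega
      have hjl' : j < (sends (W.tree r') (o r')).length := by omega
      rw [List.getElem?_eq_getElem hjl, List.getElem?_eq_getElem hjl'] at h1
      simp only [Pi.sub_apply, Polynomial.eval_sub, sub_mul, Finset.sum_sub_distrib] at h1
      have e1 := rowA_eval ((sends (W.tree r) (o r))[j]) j hjD.le r v a
      have e2 := rowA_eval ((sends (W.tree r') (o r'))[j]) j hjD.le r' v a
      have g1 := vals_getElem (line n a) (dec v r) 0 (sends (W.tree r) (o r)) j hjl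
      have g2 := vals_getElem (line n a) (dec v r') 0 (sends (W.tree r') (o r')) j hjl'
      simp only [zero_add] at g1 g2
      apply h1
      have h3 : (vals (line n a) (dec v r) 0 (sends (W.tree r) (o r)))[j]'(by
            rw [vals_length]; exact hjl) =
          (vals (line n a) (dec v r') 0 (sends (W.tree r') (o r')))[j]'(by
            rw [vals_length]; exact hjl') := by
        have h4 := congrArg (fun l => l[j]?) heq
        simp only [List.getElem?_take] at h4
        rw [if_pos (by omega), if_pos (by omega),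
          List.getElem?_eq_getElem (by rw [vals_length]; exact hjl),
          List.getElem?_eq_getElem (by rw [vals_length]; exact hjl')] at h4
        simpa using h4
      rw [g1, g2] at h3
      linarith
  let P : List ℝ → ℝ := fun l =>
    if h : ∃ (r : Fin W.coins → Bool) (i : ℕ), i < (sends (W.tree r) (o r)).length ∧
        (vals (line n a) (dec v r) 0 (sends (W.tree r) (o r))).take (i + 1) = l then
      dec v h.choose h.choose_spec.choose
    else 0
  refine ⟨P, fun r => ?_⟩
  have h0 : trunc (dec v r) 0 = (0 : ℕ → ℝ) := by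
    ext i; simp [trunc]
  rw [← h0]
  refine run_of (W.tree r) (line n a) 0 (dec v r) (o r) P (hag r) ?_
  intro i hi
  have hex : ∃ (r₁ : Fin W.coins → Bool) (i₁ : ℕ), i₁ < (sends (W.tree r₁) (o r₁)).length ∧
        (vals (line n a) (dec v r₁) 0 (sends (W.tree r₁) (o r₁))).take (i₁ + 1) =
          (vals (line n a) (dec v r) 0 (sends (W.tree r) (o r))).take (i + 1) :=
    ⟨r, i, hi, rfl⟩
  simp only [P, dif_pos hex]
  have h1 := hex.choose_spec.choose_spec
  set r₁ := hex.choose with hr₁
  set i₁ := hex.choose_spec.choose with hi₁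
  have hlen := congrArg List.length h1.2
  rw [List.length_take, List.length_take, vals_length, vals_length] at hlen
  have hii : i₁ = i := by
    have := h1.1
    omega
  rw [hii] at h1 ⊢
  rw [zero_add]
  exact key r₁ r i h1.1 hi h1.2

end

theorem line_mem (hn : 2 ≤ n) (a A : ℕ) (hA : A ^ 2 ≤ 2 ^ 2 ^ n) (ha : a ≤ A) :
    line n (a : ℝ) ∈ Lang n := by
  refine ⟨hn, (a : ℤ), ?_, ?_⟩
  · have : a ^ 2 ≤ A ^ 2 := Nat.pow_le_pow_left ha 2
    exact_mod_cast this.trans hA
  · simp [line]

theorem line_not_mem (y : ℝ) (t : ℕ) (h1 : (t : ℝ) < y) (h2 : y < t + 1) :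
    line n y ∉ Lang n := by
  rintro ⟨hn, a, -, ha⟩
  simp only [line, one_ne_zero, if_false, if_true, mul_one] at ha
  rw [ha] at h1 h2
  have h3 : (t : ℤ) < a := by exact_mod_cast h1
  have h4 : a < t + 1 := by exact_mod_cast h2
  omega

theorem numeric (D m : ℕ) (hm : m ≤ D) :
    (2 ^ m * (2 ^ D * 2 ^ D) + 1) *
      ((2 ^ m * D + 2 ^ m * (2 ^ m * D) + 1) * ((2 ^ m * D + 1) * 2 ^ D) + 2) ≤
      2 ^ (9 * D + 4) := by
  have hD : D + 1 ≤ 2 ^ D := Nat.lt_two_pow_self
  have hmD : 2 ^ m ≤ 2 ^ D := Nat.pow_le_pow_right (by norm_num) hm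
  have h1 : 1 ≤ 2 ^ D := Nat.one_le_two_pow
  generalize 2 ^ m = u at *
  have e9 : 2 ^ (9 * D + 4) = 16 * (2 ^ D) ^ 9 := by
    rw [pow_add, pow_mul, ← pow_mul, mul_comm 9 D, pow_mul]
    ring
  rw [e9]
  generalize 2 ^ D = w at *
  have a1 : u * D + 1 ≤ w * w := by nlinarith
  have a2 : u * D + u * (u * D) + 1 ≤ 2 * (w * w * w) := by
    have q1 : u * (u * D) ≤ w * (w * D) := by gcongr
    have q2 : u * D ≤ w * D := by gcongr
    have q3 : w * D ≤ w * (w * D) := by
      calc w * D = w * (1 * D) := by ring
        _ ≤ w * (w * D) := by gcongr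
    have q4 : w * (w * (D + 1)) ≤ w * (w * w) := by gcongr
    nlinarith
  have a3 : (u * D + u * (u * D) + 1) * ((u * D + 1) * w) ≤ 2 * (w * w * w) * ((w * w) * w) := by
    gcongr
  have a4 : u * (w * w) + 1 ≤ 2 * (w * w * w) := by
    have : u * (w * w) ≤ w * (w * w) := by gcongr
    have : 1 ≤ w * w * w := by
      have : 1 ≤ w * w := by nlinarith
      nlinarith
    nlinarith
  have a5 : (u * D + u * (u * D) + 1) * ((u * D + 1) * w) + 2 ≤ 4 * (w * w * w * (w * w * w)) := by
    have : 1 ≤ w * w * w * (w * w * w) := by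
      have h2 : 1 ≤ w * w := by nlinarith
      have h3 : 1 ≤ w * w * w := by nlinarith
      nlinarith
    nlinarith
  calc _ ≤ (2 * (w * w * w)) * (4 * (w * w * w * (w * w * w))) := Nat.mul_le_mul a4 a5
    _ ≤ 16 * w ^ 9 := by ring_nf; nlinarith [Nat.zero_le (w ^ 9)]

/-- **Lower bound**: if an affine verifier of size `D`, `18 D + 8 ≤ 2ⁿ`, can be brought to accept
every input outside the language with probability at least `c`, then it can be brought to accept
some input of the language with probability at least `c`. -/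
theorem lower (hn : 2 ≤ n) (W : Verifier n) (D : ℕ) (hW : W.Fits D) (hD : 18 * D + 8 ≤ 2 ^ n)
    (c : ℝ) (hc : ∀ x ∉ Lang n, ∃ P, c ≤ W.acc x P) : ∃ x ∈ Lang n, ∃ P, c ≤ W.acc x P := by
  classical
  obtain ⟨hcoins, hW2⟩ := hW
  have hdep : ∀ r, (W.tree r).depth ≤ D := fun r => (hW2 r).1
  have hdeg : ∀ r, (W.tree r).DegLE (2 ^ D) := fun r => (hW2 r).2
  let Z : Finset ℝ := Finset.univ.biUnion fun r : Fin W.coins → Bool =>
    (sgnPolys (W.tree r)).toFinset.biUnion fun f => (res f).roots.toFinset
  have hZ : Z.card ≤ 2 ^ W.coins * (2 ^ D * 2 ^ D) := by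
    refine Finset.card_biUnion_le.trans ?_
    calc _ ≤ ∑ _r : Fin W.coins → Bool, 2 ^ D * 2 ^ D := by
          refine Finset.sum_le_sum fun r _ => ?_
          refine Finset.card_biUnion_le.trans ?_
          calc _ ≤ ∑ _f ∈ (sgnPolys (W.tree r)).toFinset, 2 ^ D := by
                refine Finset.sum_le_sum fun f hf => ?_
                refine (Multiset.toFinset_card_le _).trans ((Polynomial.card_roots' _).trans ?_)
                exact res_deg _ _ (sgnPolys_deg _ _ (hdeg r) f (by simpa using hf))
            _ = (sgnPolys (W.tree r)).toFinset.card * 2 ^ D := by simp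
            _ ≤ 2 ^ D * 2 ^ D := by
                refine Nat.mul_le_mul_right _ ?_
                have h1 := List.toFinset_card_le (sgnPolys (W.tree r))
                have h2 := sgnPolys_length (W.tree r)
                have h3 : 2 ^ (W.tree r).depth ≤ 2 ^ D :=
                  Nat.pow_le_pow_right (by norm_num) (hdep r)
                omega
      _ = _ := by simp
  set X : ℕ := (2 ^ W.coins * D + 2 ^ W.coins * (2 ^ W.coins * D) + 1) *
    ((2 ^ W.coins * D + 1) * 2 ^ D) with hX
  let A : ℕ := 2 ^ 2 ^ (n - 1)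
  have hA2 : A ^ 2 = 2 ^ 2 ^ n := by
    simp only [A]
    rw [← pow_mul, ← pow_succ]
    congr 2
    omega
  have hA : (Z.card + 1) * (X + 2) ≤ A := by
    refine le_trans (Nat.mul_le_mul_right _ (Nat.add_le_add_right hZ 1)) ?_
    refine (numeric D W.coins hcoins).trans ?_
    refine Nat.pow_le_pow_right (by norm_num) ?_
    have : 2 ^ n = 2 * 2 ^ (n - 1) := by
      rw [← pow_succ']
      congr 1
      omega
    omega
  obtain ⟨t, htA, htZ⟩ := exists_block Z (X + 2) A hA (by omega)
  -- the points `y`
  let Y₀ : Set ℝ := Set.Ioo ((t * (X + 2) : ℕ) : ℝ) ((t * (X + 2) : ℕ) + 1)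
  have hY₀ : Infinite Y₀ := (Set.Ioo_infinite (by linarith)).to_subtype
  have hdata : ∀ y : Y₀, ∃ (P : List ℝ → ℝ) (p : (Fin W.coins → Bool) → ℕ → ℝ)
      (o : (Fin W.coins → Bool) → List Bool),
      (∀ r, Agree (W.tree r) (line n y) 0 (p r) (o r)) ∧
      (∀ r, ∀ i < (sends (W.tree r) (o r)).length,
        P ((vals (line n y) (p r) 0 (sends (W.tree r) (o r))).take (i + 1)) = p r i) ∧
      (∀ r, (o r).length ≤ D) ∧
      c ≤ ((Finset.univ.filter fun r => leaf (W.tree r) (o r) = true).card : ℝ) /
        2 ^ W.coins := by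
    rintro ⟨y, hy⟩
    obtain ⟨P, hP⟩ := hc (line n y) (line_not_mem y (t * (X + 2)) hy.1 hy.2)
    have h1 := fun r => exists_path (W.tree r) (line n y) 0 0 P (by simp)
    choose p o h2 h3 h4 h5 h6 using h1
    refine ⟨P, p, o, h3, fun r i hi => ?_, fun r => (h6 r).trans (hdep r), ?_⟩
    · have := h4 r i hi
      rwa [zero_add] at this
    · simpa only [Verifier.acc, h5] using hP
  choose P p o hag hrep hlen hacc using hdata
  have hfin : Finite {l : List Bool // l.length ≤ D} := (List.finite_length_le Bool D).to_subtype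
  let H : Y₀ → (Fin W.coins → Bool) → List ℝ := fun y r =>
    vals (line n y) (p y r) 0 (sends (W.tree r) (o y r))
  let f : Y₀ → ((Fin W.coins → Bool) → {l : List Bool // l.length ≤ D}) ×
      ((Fin W.coins → Bool) → (Fin W.coins → Bool) → Fin (D + 1) → Bool) := fun y =>
    (fun r => ⟨o y r, hlen y r⟩, fun r r' i => decide ((H y r).take i = (H y r').take i))
  obtain ⟨π, hπ⟩ := Finite.exists_infinite_fiber f
  let Y : Set ℝ := Subtype.val '' (f ⁻¹' {π})
  have hY : Y.Infinite := (Set.infinite_coe_iff.1 hπ).image (Subtype.val_injective.injOn)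
  let o' : (Fin W.coins → Bool) → List Bool := fun r => (π.1 r).val
  let E : (Fin W.coins → Bool) → (Fin W.coins → Bool) → ℕ → Prop := fun r r' i =>
    if h : i < D + 1 then π.2 r r' ⟨i, h⟩ = true else False
  have ho : ∀ y ∈ f ⁻¹' {π}, ∀ r, o y r = o' r := by
    intro y hy r
    have := congrArg (fun q => (q.1 r).val) (show f y = π from hy)
    exact this
  have hEE : ∀ y ∈ f ⁻¹' {π}, ∀ r r' i, i ≤ D →
      (E r r' i ↔ (H y r).take i = (H y r').take i) := by
    intro y hy r r' i hi
    have h1 := congrArg (fun q => q.2 r r' ⟨i, by omega⟩) (show f y = π from hy)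
    simp only [f] at h1
    simp only [E]
    rw [dif_pos (by omega), ← h1]
    simp
  have hsol : ∀ y ∈ Y, ∃ v, Sol (fun κ => (eqRow W D o' E κ).1) (fun κ => (eqRow W D o' E κ).2)
      (fun κ => (neRow W D o' E κ).1) (fun κ => (neRow W D o' E κ).2) y v := by
    rintro _ ⟨y, hy, rfl⟩
    refine ⟨_, sol_of_data o' E hdep (2 ^ D) hdeg y (P y) (p y) ?_ ?_ ?_⟩
    · intro r
      rw [← ho y hy r]
      exact hag y r
    · intro r
      rw [← ho y hy r]
      exact hrep y r
    · intro r r' i hi
      rw [hEE y hy r r' i hi, ← ho y hy r, ← ho y hy r']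
  obtain ⟨F, hF, hF2⟩ := spec _ _ _ _ (2 ^ D)
    (fun κ j => (eqRow_deg o' E (2 ^ D) hdeg κ).1 j) (fun κ => (eqRow_deg o' E (2 ^ D) hdeg κ).2)
    (fun κ j => (neRow_deg o' E (2 ^ D) hdeg κ).1 j) (fun κ => (neRow_deg o' E (2 ^ D) hdeg κ).2)
    Y hY hsol
  have hFX : F.card ≤ X := by
    refine hF.trans (le_of_eq ?_)
    simp [hX, Fintype.card_sum, Fintype.card_prod]
  -- an integer outside `F`
  have hinj : Function.Injective (fun j : ℕ => ((t * (X + 2) + 1 + j : ℕ) : ℝ)) := by
    intro i j hij
    have : (t * (X + 2) + 1 + i : ℕ) = (t * (X + 2) + 1 + j : ℕ) := Nat.cast_injective hij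
    omega
  obtain ⟨a', ha', haF⟩ := Finset.exists_mem_notMem_of_card_lt_card
    (s := F) (t := (Finset.range (X + 1)).image fun j : ℕ => ((t * (X + 2) + 1 + j : ℕ) : ℝ)) (by
      rw [Finset.card_image_of_injective _ hinj, Finset.card_range]
      omega)
  rw [Finset.mem_image] at ha'
  obtain ⟨j, hj, rfl⟩ := ha'
  rw [Finset.mem_range] at hj
  set a : ℕ := t * (X + 2) + 1 + j with ha
  obtain ⟨v, hv⟩ := hF2 (a : ℝ) haF
  obtain ⟨⟨y₁, hy₁⟩⟩ : Nonempty (f ⁻¹' {π} : Set Y₀) := hπ.nonempty
  have haI : ((t * (X + 2 : ℕ) : ℝ)) < (a : ℝ) ∧ (a : ℝ) < ((t : ℝ) + 1) * (X + 2 : ℕ) := by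
    have h1 : t * (X + 2) < a := by omega
    have h2 : a < (t + 1) * (X + 2) := by
      rw [add_mul, one_mul]
      omega
    constructor
    · exact_mod_cast h1
    · exact_mod_cast h2
  have hyI : ((t * (X + 2 : ℕ) : ℝ)) < (y₁ : ℝ) ∧ (y₁ : ℝ) < ((t : ℝ) + 1) * (X + 2 : ℕ) := by
    have h1 := y₁.2.1
    have h2 := y₁.2.2
    push_cast at h1 h2 ⊢
    constructor
    · exact h1
    · have hX0 : (0 : ℝ) ≤ X := Nat.cast_nonneg _
      nlinarith
  obtain ⟨P', hP'⟩ := data_of_sol o' E hdep (2 ^ D) hdeg (a : ℝ)
    (fun r r' => (hEE y₁ hy₁ r r' 0 (Nat.zero_le _)).2 (by simp))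
    (fun r => by rw [← ho y₁ hy₁ r]; exact (hag y₁ r).1)
    (by
      intro r e he
      have he' : e ∈ signs (W.tree r) (o y₁ r) := by rw [ho y₁ hy₁ r]; exact he
      have h1 := (hag y₁ r).2.2 e he'
      have hroots : ∀ z ∈ (res e.1).roots.toFinset,
          ¬ ((t * (X + 2 : ℕ) : ℝ) < z ∧ z < ((t : ℝ) + 1) * (X + 2 : ℕ)) := by
        intro z hz
        refine htZ z ?_
        simp only [Z, Finset.mem_biUnion, Finset.mem_univ, true_and]
        exact ⟨r, e.1, by simpa using signs_sub (W.tree r) _ e he, hz⟩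
      rw [← h1]
      rw [← res_eval, ← res_eval]
      constructor
      · intro h
        exact sign_const (res e.1) _ _ (a : ℝ) (y₁ : ℝ) hroots haI hyI h
      · intro h
        exact sign_const (res e.1) _ _ (y₁ : ℝ) (a : ℝ) hroots hyI haI h)
    v hv
  refine ⟨line n (a : ℝ), line_mem hn a A hA2.le ?_, P', ?_⟩
  · have h1 : t * (X + 2) + (X + 2) ≤ A := by
      have := htA
      rw [add_mul, one_mul] at this
      exact this
    omega
  · have h1 := hacc y₁
    simp only [Verifier.acc, hP']
    simpa only [ho y₁ hy₁] using h1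

end AIP
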