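import Pool.Agent.AIP.Lang

/-!
# Programs of real verifiers that are affine in the prover's messages

Memory: natural counters and real cells `(A, i)` (cell `i` of array `A`).  A cell is tagged when its
content depends on messages of the prover.  Two tagged cells are never multiplied and a tagged
cell is never tested for `≥ 0`; all the rest of the instructions of a machine over
`(ℝ, +, -, ×, ≥)` are at hand.
-/

namespace AIP

/-- Expressions in the counters: sums of counters and numbers. -/
inductive NExp : Type
  | lit (k : ℕ) : NExp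
  | ctr (i : ℕ) : NExp
  | add (a b : NExp) : NExp

/-- Value of an expression. -/
def NExp.eval (c : ℕ → ℕ) : NExp → ℕ
  | .lit k => k
  | .ctr i => c i
  | .add a b => a.eval c + b.eval c

/-- Programs. -/
inductive Cmd : Type
  | /-- do nothing -/
    skip : Cmd
  | /-- stop with the answer `b` -/
    halt (b : Bool) : Cmd
  | /-- first `a`, then `b` -/
    seq (a b : Cmd) : Cmd
  | /-- counter `i` becomes `e` -/
    set (i : ℕ) (e : NExp) : Cmd
  | /-- cell `(A, e)` becomes the real constant `r` -/
    const (A : ℕ) (e : NExp) (r : ℝ) : Cmd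
  | /-- cell `(A, e)` becomes the natural number `f` -/
    nat (A : ℕ) (e f : NExp) : Cmd
  | /-- cell `(A, e)` becomes cell `(B, f)` -/
    copy (A : ℕ) (e : NExp) (B : ℕ) (f : NExp) : Cmd
  | /-- cell `(A, e)` becomes the sum of the cells `(B, f)` and `(C, g)` -/
    add (A : ℕ) (e : NExp) (B : ℕ) (f : NExp) (C : ℕ) (g : NExp) : Cmd
  | /-- cell `(A, e)` becomes the difference of the cells `(B, f)` and `(C, g)` -/
    sub (A : ℕ) (e : NExp) (B : ℕ) (f : NExp) (C : ℕ) (g : NExp) : Cmd
  | /-- cell `(A, e)` becomes the product of the cells `(B, f)` and `(C, g)` -/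
    mul (A : ℕ) (e : NExp) (B : ℕ) (f : NExp) (C : ℕ) (g : NExp) : Cmd
  | /-- if `e ≤ f` then `a` else `b` -/
    ifle (e f : NExp) (a b : Cmd) : Cmd
  | /-- if cell `(A, e)` is `0` then `a` else `b` -/
    ifzero (A : ℕ) (e : NExp) (a b : Cmd) : Cmd
  | /-- if cell `(A, e)` is `≥ 0` then `a` else `b` -/
    ifnonneg (A : ℕ) (e : NExp) (a b : Cmd) : Cmd
  | /-- toss a coin; counter `i` becomes `0` or `1` -/
    flip (i : ℕ) : Cmd
  | /-- send cell `(A, e)` to the prover and store the reply in cell `(B, f)` -/
    ask (A : ℕ) (e : NExp) (B : ℕ) (f : NExp) : Cmd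
  | /-- for `i = 0, …, e - 1` do `a` -/
    loop (i : ℕ) (e : NExp) (a : Cmd) : Cmd

/-- States of the memory. -/
structure St : Type where
  /-- the counters -/
  ctr : ℕ → ℕ
  /-- the real cells -/
  cell : ℕ → ℕ → ℝ
  /-- `true`: the content depends on messages of the prover -/
  tag : ℕ → ℕ → Bool

/-- Set a counter. -/
def St.setCtr (s : St) (i v : ℕ) : St :=
  { s with ctr := Function.update s.ctr i v }

/-- Set a cell. -/
noncomputable def St.put (s : St) (A i : ℕ) (v : ℝ) (t : Bool) : St :=
  { s with
    cell := Function.update s.cell A (Function.update (s.cell A) i v)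
    tag := Function.update s.tag A (Function.update (s.tag A) i t) }

/-- The course of the verifier's computation: `tick` is one step, `coin` a toss of a coin, `ask w f`
sends `w` to the prover and continues with `f p` after the reply `p`. -/
inductive ITree : Type
  | halt (b : Bool) : ITree
  | tick (t : ITree) : ITree
  | coin (t u : ITree) : ITree
  | ask (w : ℝ) (f : ℝ → ITree) : ITree

/-- Run the body `F` of a loop with the values `j, j + 1, …, j + r - 1` of the counter `i`. -/
def iter (F : St → (St → ITree) → ITree) (i : ℕ) : ℕ → ℕ → (St → ITree) → St → ITree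
  | 0, _, K, s => K s
  | r + 1, j, K, s => .tick (F (s.setCtr i j) (fun s' => iter F i r (j + 1) K s'))

/-- Execution of a program from the state `s`; `K` is the computation that follows. -/
noncomputable def exec : Cmd → St → (St → ITree) → ITree
  | .skip, s, K => .tick (K s)
  | .halt b, _, _ => .halt b
  | .seq a b, s, K => exec a s (fun s' => exec b s' K)
  | .set i e, s, K => .tick (K (s.setCtr i (e.eval s.ctr)))
  | .const A e r, s, K => .tick (K (s.put A (e.eval s.ctr) r false))
  | .nat A e f, s, K => .tick (K (s.put A (e.eval s.ctr) (f.eval s.ctr) false))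
  | .copy A e B f, s, K => .tick (K (s.put A (e.eval s.ctr)
      (s.cell B (f.eval s.ctr)) (s.tag B (f.eval s.ctr))))
  | .add A e B f C g, s, K => .tick (K (s.put A (e.eval s.ctr)
      (s.cell B (f.eval s.ctr) + s.cell C (g.eval s.ctr))
      (s.tag B (f.eval s.ctr) || s.tag C (g.eval s.ctr))))
  | .sub A e B f C g, s, K => .tick (K (s.put A (e.eval s.ctr)
      (s.cell B (f.eval s.ctr) - s.cell C (g.eval s.ctr))
      (s.tag B (f.eval s.ctr) || s.tag C (g.eval s.ctr))))
  | .mul A e B f C g, s, K =>
      if s.tag B (f.eval s.ctr) && s.tag C (g.eval s.ctr) then .halt false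
      else .tick (K (s.put A (e.eval s.ctr)
        (s.cell B (f.eval s.ctr) * s.cell C (g.eval s.ctr))
        (s.tag B (f.eval s.ctr) || s.tag C (g.eval s.ctr))))
  | .ifle e f a b, s, K => .tick (if e.eval s.ctr ≤ f.eval s.ctr then exec a s K else exec b s K)
  | .ifzero A e a b, s, K => .tick (open scoped Classical in
      if s.cell A (e.eval s.ctr) = 0 then exec a s K else exec b s K)
  | .ifnonneg A e a b, s, K =>
      if s.tag A (e.eval s.ctr) then .halt false
      else .tick (open scoped Classical in
        if 0 ≤ s.cell A (e.eval s.ctr) then exec a s K else exec b s K)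
  | .flip i, s, K => .coin (K (s.setCtr i 0)) (K (s.setCtr i 1))
  | .ask A e B f, s, K => .ask (s.cell A (e.eval s.ctr))
      (fun p => K (s.put B (f.eval s.ctr) p true))
  | .loop i e a, s, K => .tick (iter (exec a) i (e.eval s.ctr) 0 K s)

/-- The initial state for the input `x`: the counter `0` holds the length of `x`, the array `0`
holds `x`; all the rest is `0`. -/
noncomputable def init {n : ℕ} (x : Fin n → ℝ) : St where
  ctr := fun i => if i = 0 then n else 0
  cell := fun A i => if h : A = 0 ∧ i < n then x ⟨i, h.2⟩ else 0
  tag := fun _ _ => false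

/-- The computation of the program `c` on the input `x` (a program that ends without `halt`
rejects). -/
noncomputable def comput {n : ℕ} (c : Cmd) (x : Fin n → ℝ) : ITree :=
  exec c (init x) (fun _ => .halt false)

/-- The probability of the answer `true` against the prover `P`, who replies with
`P [w₁, …, wᵢ]` after having received the messages `w₁, …, wᵢ`. -/
noncomputable def ITree.acc : ITree → (List ℝ → ℝ) → ℝ
  | .halt b, _ => if b then 1 else 0
  | .tick t, P => t.acc P
  | .coin t u, P => (t.acc P + u.acc P) / 2
  | .ask w f, P => (f (P [w])).acc (fun h => P (w :: h))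

/-- The computation takes at most `T` steps, whatever the coins and the replies are. -/
def ITree.TimeLE : ITree → ℕ → Prop
  | .halt _, _ => True
  | .tick _, 0 => False
  | .tick t, T + 1 => t.TimeLE T
  | .coin _ _, 0 => False
  | .coin t u, T + 1 => t.TimeLE T ∧ u.TimeLE T
  | .ask _ _, 0 => False
  | .ask _ f, T + 1 => ∀ p, (f p).TimeLE T

/-- The program `c` is the verifier of a real interactive protocol for `L` with completeness `1` and
soundness error `1/4`, and runs in polynomial time. -/
def Decides (c : Cmd) (L : (n : ℕ) → Set (Fin n → ℝ)) : Prop :=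
  ∃ C : ℕ, ∀ (n : ℕ) (x : Fin n → ℝ),
    (comput c x).TimeLE (C * (n + 1) ^ C) ∧
    (x ∈ L n → ∃ P, (comput c x).acc P = 1) ∧
    (x ∉ L n → ∀ P, (comput c x).acc P ≤ 1 / 4)

/-- Additive programs: no real constants, no products and no order tests. -/
def Cmd.Additive : Cmd → Prop
  | .skip => True
  | .halt _ => True
  | .seq a b => a.Additive ∧ b.Additive
  | .set _ _ => True
  | .const _ _ _ => False
  | .nat _ _ _ => True
  | .copy _ _ _ _ => True
  | .add _ _ _ _ _ _ => True
  | .sub _ _ _ _ _ _ => True
  | .mul _ _ _ _ _ _ => False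
  | .ifle _ _ a b => a.Additive ∧ b.Additive
  | .ifzero _ _ a b => a.Additive ∧ b.Additive
  | .ifnonneg _ _ _ _ => False
  | .flip _ => True
  | .ask _ _ _ _ => True
  | .loop _ _ a => a.Additive

end AIP
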