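import Pool.Agent.AIP.Basis

/-!
# The whole program
-/

namespace AIP

open NExp Cmd

/-! ### Commands -/

/-- Counter `1` becomes `q = n + 5`, counter `2` becomes `ℓ = n q + 2`. -/
def sizeCmd : Cmd := seq (set 1 (add (ctr 0) (lit 5))) (seq (set 2 (lit 2))
  (loop 3 (ctr 0) (set 2 (add (ctr 2) (ctr 1)))))

/-- The array `1` becomes `b = (x₀, x₁, A₁, A₂, A₃, A₄)`, cell `(5, 0)`
becomes `T`, the array `4` becomes the five vectors `C₀, …, C₄`. -/
def setupCmd : Cmd :=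
  seq (copy 1 (lit 0) 0 (lit 0)) (seq (copy 1 (lit 1) 0 (lit 1))
  (seq (rng 4 fun i => ask 3 (lit 0) 1 (lit (i + 2)))
  (seq (ask 3 (lit 0) 5 (lit 0)) (rng 30 fun c => ask 3 (lit 0) 4 (lit c)))))

/-- Check that `C_i` begins with `b_(i+1)` and that the sum of the entries `i + 1` of the `C_i`
is `T`. -/
def checkCmd : Cmd :=
  seq (rng 5 fun i => seq (sub 2 (lit 1) 4 (lit (6 * i)) 1 (lit (i + 1))) (guard 2 (lit 1)))
  (seq (sub 2 (lit 2) 2 (lit 0) 2 (lit 0))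
  (seq (rng 5 fun i => add 2 (lit 2) 2 (lit 2) 4 (lit (7 * i + 1)))
  (seq (sub 2 (lit 2) 2 (lit 2) 5 (lit 0)) (guard 2 (lit 2)))))

/-- The first claims. -/
def initCmd : Cmd := seq (copy 10 (lit 0) 0 (lit 0)) (seq (copy 16 (lit 0) 5 (lit 0))
  (rng 30 fun k => copy (22 + k % 6) (lit (k / 6)) 4 (lit k)))

/-- The program after the computation of `q` and `ℓ`. -/
def bodyCmd : Cmd := seq setupCmd (seq checkCmd (seq initCmd
  (seq (loop 11 (ctr 0) levelCmd) (seq baseCmd (halt true)))))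

/-- The program. -/
def topCmd : Cmd := ifle (ctr 0) (lit 1) (halt false) (seq sizeCmd bodyCmd)

/-! ### The levels -/

theorem levels_W {n q ℓ : ℕ} {b : ℕ → ℝ} (hq : 0 < q) (hℓ : 2 * (3 * q) ^ n < 2 ^ ℓ) (s : S0)
    (hs : Base n q ℓ b s) (hgood : ∀ i < q, WG n (2 ^ 2 ^ n) b (row s 10 i)) :
    W (exec0 (seq (loop 11 (ctr 0) levelCmd) (seq baseCmd (halt true))) s
      (fun _ => .halt false)) := by
  rw [exec0_seq]
  refine loop_det W 11 (ctr 0) _ n (fun j s => Base n q ℓ b s ∧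
    ∀ i < q, WG (n - j) (2 ^ 2 ^ (n - j) * (3 * q) ^ j) b (row s 10 i)) ?_ s _ hs.c0
    ⟨hs, by simpa using hgood⟩ ?_
  · rintro j hj s K ⟨h1, h2⟩ hK
    have e1 : n - j = (n - (j + 1)) + 1 := by omega
    rw [e1] at h2
    refine level_W (n - (j + 1)) ((3 * q) ^ j) (Nat.one_le_pow _ _ (by omega)) _ K
      (h1.setCtr 11 j (by norm_num)) h2 fun s' k1 k2 => hK s' ⟨k1, ?_⟩
    rw [show (3 * q) ^ (j + 1) = 3 * q * (3 * q) ^ j by rw [pow_succ]; ring]
    exact k2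
  · rintro s' ⟨h1, h2⟩
    rw [exec0_seq]
    refine base_W ((3 * q) ^ n) hℓ s' _ h1 ?_ fun s'' _ => W_halt
    rw [Nat.sub_self] at h2
    simpa using h2

theorem levels_B {n q ℓ : ℕ} {b : ℕ → ℝ} (s : S0)
    (hs : Base n q ℓ b s) (hbad : ∃ i < q, ¬ InG n b (row s 10 i)) :
    B (n / 2 ^ q) (exec0 (seq (loop 11 (ctr 0) levelCmd) (seq baseCmd (halt true))) s
      (fun _ => .halt false)) := by
  rw [exec0_seq]
  have h0 : ((n : ℝ) / 2 ^ q) = ((n - 0 : ℕ) : ℝ) / 2 ^ q := by simp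
  rw [h0]
  refine loop_rule 11 (ctr 0) _ n (fun j s => Base n q ℓ b s ∧
    ∃ i < q, ¬ InG (n - j) b (row s 10 i)) (fun j _ t => B (((n - j : ℕ) : ℝ) / 2 ^ q) t) ?_ s _
    hs.c0 ⟨hs, by simpa using hbad⟩ ?_
  · rintro j hj s K ⟨h1, h2⟩ hK
    have e1 : n - j = (n - (j + 1)) + 1 := by omega
    rw [e1] at h2 ⊢
    have e2 : (((n - (j + 1) + 1 : ℕ) : ℝ) / 2 ^ q) =
        1 / 2 ^ q + ((n - (j + 1) : ℕ) : ℝ) / 2 ^ q := by
      push_cast
      ring
    rw [e2]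
    refine level_B (n - (j + 1)) _ (by positivity) _ K
      (h1.setCtr 11 j (by norm_num)) h2 fun s' k1 k2 => hK s' ⟨k1, k2⟩
  · rintro s' ⟨h1, h2⟩
    rw [exec0_seq]
    rw [Nat.sub_self] at h2 ⊢
    simp only [Nat.cast_zero, zero_div]
    exact base_B s' _ h1 h2

/-! ### The beginning -/

/-- The state after the messages of the beginning. -/
structure Setup (n q ℓ : ℕ) (b C : ℕ → ℝ) (T : ℝ) (s : S0) : Prop where
  base : Base n q ℓ b s
  h0 : s.cell 0 0 = b 0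
  hT : s.cell 5 0 = T
  hC : ∀ c < 30, s.cell 4 c = C c
  hz : ∀ A i, 10 ≤ A → s.cell A i = 0

theorem Same.setup {n q ℓ : ℕ} {b C : ℕ → ℝ} {T : ℝ} {s s' : S0} (h : Same s s')
    (hs : Setup n q ℓ b C T s) : Setup n q ℓ b C T s' :=
  ⟨h.base hs.base, by rw [h.2 0 0 (by norm_num)]; exact hs.h0,
    by rw [h.2 5 0 (by norm_num)]; exact hs.hT,
    fun c hc => by rw [h.2 4 c (by norm_num)]; exact hs.hC c hc,
    fun A i hA => by rw [h.2 A i (by omega)]; exact hs.hz A i hA⟩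

/-- The state before the messages. -/
structure Pre (n q ℓ : ℕ) (x0 x1 : ℝ) (s : S0) : Prop where
  c0 : s.ctr 0 = n
  c1 : s.ctr 1 = q
  c2 : s.ctr 2 = ℓ
  h0 : s.cell 0 0 = x0
  h1 : s.cell 0 1 = x1
  hz : ∀ A i, 10 ≤ A → s.cell A i = 0

theorem setup_W {n q ℓ : ℕ} (b C : ℕ → ℝ) (T : ℝ) (s : S0) (K : S0 → ITree)
    (hs : Pre n q ℓ (b 0) (b 1) s) (hK : ∀ s', Setup n q ℓ b C T s' → W (K s')) :
    W (exec0 setupCmd s K) := by
  simp only [setupCmd, exec0_seq]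
  have e1 : ∀ (A : ℕ) (e : NExp) (A' : ℕ) (f : NExp) (s : S0) (K : S0 → ITree),
    exec0 (copy A e A' f) s K = K (s.put A (e.eval s.ctr) (s.cell A' (f.eval s.ctr))) :=
      fun _ _ _ _ _ _ => rfl
  simp only [e1, NExp.eval]
  refine rng_det W _ 4 (fun c s => s.ctr 0 = n ∧ s.ctr 1 = q ∧ s.ctr 2 = ℓ ∧
    s.cell 0 0 = b 0 ∧ (∀ e < 2 + c, s.cell 1 e = b e) ∧ ∀ A i, 10 ≤ A → s.cell A i = 0) ?_ _ _
    ⟨hs.c0, hs.c1, hs.c2, ?_, ?_, ?_⟩ ?_
  · rintro c hc s K ⟨h1, h2, h3, h4, h5, h6⟩ hK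
    rw [exec0_ask]
    refine W_ask _ _ (b (c + 2)) (hK _ ⟨h1, h2, h3, ?_, ?_, ?_⟩)
    · rw [S0.cell_put, if_neg (by omega)]; exact h4
    · intro e he
      simp only [NExp.eval]
      rw [S0.cell_put]
      by_cases h : e = c + 2
      · rw [if_pos ⟨rfl, h⟩, h]
      · rw [if_neg (by omega)]
        exact h5 e (by omega)
    · intro A i hA
      rw [S0.cell_put, if_neg (by omega)]; exact h6 A i hA
  · rw [S0.cell_put, if_neg (by omega), S0.cell_put, if_neg (by omega)]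
    exact hs.h0
  · intro e he
    rcases (show e = 0 ∨ e = 1 by omega) with h | h
    · rw [h, S0.cell_put, if_neg (by omega), S0.cell_put, if_pos ⟨rfl, rfl⟩]
      exact hs.h0
    · rw [h, S0.cell_put, if_pos ⟨rfl, rfl⟩, S0.cell_put, if_neg (by omega)]
      exact hs.h1
  · intro A i hA
    rw [S0.cell_put, if_neg (by omega), S0.cell_put, if_neg (by omega)]
    exact hs.hz A i hA
  rintro s ⟨h1, h2, h3, h4, h5, h6⟩
  rw [exec0_ask]
  refine W_ask _ _ T ?_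
  simp only [NExp.eval]
  refine rng_det W _ 30 (fun c s => s.ctr 0 = n ∧ s.ctr 1 = q ∧ s.ctr 2 = ℓ ∧
    s.cell 0 0 = b 0 ∧ (∀ e < 6, s.cell 1 e = b e) ∧ (∀ A i, 10 ≤ A → s.cell A i = 0) ∧
    s.cell 5 0 = T ∧ ∀ c' < c, s.cell 4 c' = C c') ?_ _ _
    ⟨h1, h2, h3, ?_, ?_, ?_, ?_, ?_⟩ ?_
  · rintro c hc s K ⟨h1, h2, h3, h4, h5, h6, h7, h8⟩ hK
    rw [exec0_ask]
    refine W_ask _ _ (C c) (hK _ ⟨h1, h2, h3, ?_, ?_, ?_, ?_, ?_⟩)
    · rw [S0.cell_put, if_neg (by omega)]; exact h4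
    · intro e he
      rw [S0.cell_put, if_neg (by omega)]; exact h5 e he
    · intro A i hA
      rw [S0.cell_put, if_neg (by omega)]; exact h6 A i hA
    · rw [S0.cell_put, if_neg (by omega)]; exact h7
    · intro c' hc'
      simp only [NExp.eval]
      rw [S0.cell_put]
      by_cases h : c' = c
      · rw [if_pos ⟨rfl, h⟩, h]
      · rw [if_neg (by omega)]
        exact h8 c' (by omega)
  · rw [S0.cell_put, if_neg (by omega)]; exact h4
  · intro e he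
    rw [S0.cell_put, if_neg (by omega)]; exact h5 e (by omega)
  · intro A i hA
    rw [S0.cell_put, if_neg (by omega)]; exact h6 A i hA
  · rw [S0.cell_put, if_pos ⟨rfl, rfl⟩]
  · intro c' hc'; omega
  rintro s ⟨h1, h2, h3, h4, h5, h6, h7, h8⟩
  exact hK s ⟨⟨h1, h2, h3, h5⟩, h4, h7, h8, h6⟩

theorem setup_B {n q ℓ : ℕ} (x0 x1 : ℝ) (ε : ℝ) (s : S0) (K : S0 → ITree)
    (hs : Pre n q ℓ x0 x1 s)
    (hK : ∀ b C T s', b 0 = x0 → b 1 = x1 → Setup n q ℓ b C T s' → B ε (K s')) :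
    B ε (exec0 setupCmd s K) := by
  simp only [setupCmd, exec0_seq]
  have e1 : ∀ (A : ℕ) (e : NExp) (A' : ℕ) (f : NExp) (s : S0) (K : S0 → ITree),
    exec0 (copy A e A' f) s K = K (s.put A (e.eval s.ctr) (s.cell A' (f.eval s.ctr))) :=
      fun _ _ _ _ _ _ => rfl
  simp only [e1, NExp.eval]
  -- the properties that never change
  let I : S0 → Prop := fun s => s.ctr 0 = n ∧ s.ctr 1 = q ∧ s.ctr 2 = ℓ ∧
    s.cell 0 0 = x0 ∧ s.cell 1 0 = x0 ∧ s.cell 1 1 = x1 ∧ ∀ A i, 10 ≤ A → s.cell A i = 0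
  have hI : ∀ (s : S0) (A i : ℕ) (v : ℝ), 1 ≤ A → A < 10 → (A = 1 → 2 ≤ i) → I s →
      I (s.put A i v) := by
    rintro s A i v hA1 hA2 hA3 ⟨h1, h2, h3, h4, h5, h6, h7⟩
    refine ⟨h1, h2, h3, ?_, ?_, ?_, fun B j hB => ?_⟩
    · rw [S0.cell_put, if_neg (by omega)]; exact h4
    · rw [S0.cell_put, if_neg (by omega)]; exact h5
    · rw [S0.cell_put, if_neg (by omega)]; exact h6
    · rw [S0.cell_put, if_neg (by omega)]; exact h7 B j hB
  refine rng_det (B ε) _ 4 (fun _ s => I s) ?_ _ _ ⟨hs.c0, hs.c1, hs.c2, ?_, ?_, ?_, ?_⟩ ?_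
  · intro c hc s K h1 hK
    rw [exec0_ask]
    exact B_ask _ _ _ fun p => hK _ (hI _ _ _ _ (by norm_num) (by norm_num)
      (fun _ => by simp [NExp.eval]) h1)
  · rw [S0.cell_put, if_neg (by omega), S0.cell_put, if_neg (by omega)]
    exact hs.h0
  · rw [S0.cell_put, if_neg (by omega), S0.cell_put, if_pos ⟨rfl, rfl⟩]
    exact hs.h0
  · rw [S0.cell_put, if_pos ⟨rfl, rfl⟩, S0.cell_put, if_neg (by omega)]
    exact hs.h1
  · intro A i hA
    rw [S0.cell_put, if_neg (by omega), S0.cell_put, if_neg (by omega)]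
    exact hs.hz A i hA
  intro s h1
  rw [exec0_ask]
  refine B_ask _ _ _ fun p => ?_
  refine rng_det (B ε) _ 30 (fun _ s => I s) ?_ _ _
    (hI _ _ _ _ (by norm_num) (by norm_num) (fun h => by norm_num at h) h1) ?_
  · intro c hc s K h1 hK
    rw [exec0_ask]
    exact B_ask _ _ _ fun p => hK _ (hI _ _ _ _ (by norm_num) (by norm_num)
      (fun h => by norm_num at h) h1)
  rintro s ⟨h1, h2, h3, h4, h5, h6, h7⟩
  exact hK (fun e => s.cell 1 e) (fun c => s.cell 4 c) (s.cell 5 0) s h5 h6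
    ⟨⟨h1, h2, h3, fun _ _ => rfl⟩, h4.trans h5.symm, rfl, fun _ _ => rfl, h7⟩

/-- The sum in the check. -/
def csum (C : ℕ → ℝ) : ℝ := C 1 + C 8 + C 15 + C 22 + C 29

theorem check_rule {n q ℓ : ℕ} {b C : ℕ → ℝ} {T : ℝ} (Q : ITree → Prop) (s : S0)
    (K : S0 → ITree) (hs : Setup n q ℓ b C T s)
    (hQ : Q (.halt false) ∨ ((∀ i < 5, C (6 * i) - b (i + 1) = 0) ∧ csum C - T = 0))
    (hK : ∀ s', Same s s' → (∀ i < 5, C (6 * i) - b (i + 1) = 0) → csum C - T = 0 → Q (K s')) :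
    Q (exec0 checkCmd s K) := by
  simp only [checkCmd, exec0_seq]
  refine chk_rule Q _ 5 (fun i => C (6 * i) - b (i + 1)) s _ (hQ.imp id fun h => h.1) ?_
    fun s₁ k1 k2 => ?_
  · intro i hi s' K hs'
    let s₁ := s'.put 2 1 (s'.cell 4 (6 * i) - s'.cell 1 (i + 1))
    have e1 : exec0 (seq (sub 2 (lit 1) 4 (lit (6 * i)) 1 (lit (i + 1))) (guard 2 (lit 1))) s' K =
        exec0 (guard 2 (lit 1)) s₁ K := rfl
    have hall : Same s s₁ := hs'.trans (Same.put _ _ _)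
    have e2 : s₁.cell 2 1 = C (6 * i) - b (i + 1) := by
      simp only [s₁]
      rw [S0.cell_put, if_pos ⟨rfl, rfl⟩, hs'.2 _ _ (by norm_num), hs'.2 _ _ (by norm_num),
        hs.hC _ (by omega), hs.base.hb _ (by omega)]
    rw [e1]
    obtain ⟨g1, g2⟩ := guard_eq 2 (lit 1) s₁ K
    exact ⟨fun hv => ⟨s₁, hall, g1 (e2.trans hv)⟩, fun hv => g2 fun h => hv (e2.symm.trans h)⟩
  have eS : ∀ (s : S0) (K : S0 → ITree),
    exec0 (sub 2 (lit 2) 2 (lit 0) 2 (lit 0)) s K = K (s.put 2 2 0) := by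
    intro s K
    simp only [exec0, NExp.eval, sub_self]
  rw [eS]
  refine rng_det Q _ 5 (fun c s' => Same s s' ∧
    s'.cell 2 2 = ∑ i ∈ Finset.range c, C (7 * i + 1)) ?_ _ _
    ⟨k1.trans (Same.put _ _ _), by rw [S0.cell_put, if_pos ⟨rfl, rfl⟩]; simp⟩ ?_
  · rintro c hc s' K ⟨h1, h2⟩ hK
    refine hK _ ⟨h1.trans (Same.put _ _ _), ?_⟩
    simp only [NExp.eval]
    rw [S0.cell_put, if_pos ⟨rfl, rfl⟩, h2, Finset.sum_range_succ, h1.2 _ _ (by norm_num),
      hs.hC _ (by omega)]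
  rintro s₂ ⟨h1, h2⟩
  let s₃ := s₂.put 2 2 (s₂.cell 2 2 - s₂.cell 5 0)
  have e2 : s₃.cell 2 2 = csum C - T := by
    simp only [s₃]
    rw [S0.cell_put, if_pos ⟨rfl, rfl⟩, h2, h1.2 _ _ (by norm_num), hs.hT]
    simp only [Finset.sum_range_succ, Finset.sum_range_zero, csum]
    norm_num
  change Q (exec0 (guard 2 (lit 2)) s₃ K)
  obtain ⟨g1, g2⟩ := guard_eq 2 (lit 2) s₃ K
  have hall : Same s s₃ := h1.trans (Same.put _ _ _)
  by_cases hv : csum C - T = 0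
  · rw [g1 (e2.trans hv)]
    exact hK s₃ hall k2 hv
  · rw [g2 fun h => hv (e2.symm.trans h)]
    rcases hQ with hQ | hQ
    · exact hQ
    · exact absurd hQ.2 hv

/-- The first claims. -/
noncomputable def cl1 (b C : ℕ → ℝ) (T : ℝ) (i c : ℕ) : ℝ :=
  if c = 0 then (if i = 0 then b 0 else 0)
  else if c = 6 then (if i = 0 then T else 0)
  else if 12 ≤ c ∧ i < 5 then C (6 * i + (c - 12)) else 0

theorem init_rule {n q ℓ : ℕ} {b C : ℕ → ℝ} {T : ℝ} (Q : ITree → Prop) (s : S0)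
    (K : S0 → ITree) (hs : Setup n q ℓ b C T s)
    (hK : ∀ s', Base n q ℓ b s' → (∀ i, ∀ c < 18, row s' 10 i c = cl1 b C T i c) → Q (K s')) :
    Q (exec0 initCmd s K) := by
  simp only [initCmd, exec0_seq]
  have e1 : ∀ (A : ℕ) (e : NExp) (A' : ℕ) (f : NExp) (s : S0) (K : S0 → ITree),
    exec0 (copy A e A' f) s K = K (s.put A (e.eval s.ctr) (s.cell A' (f.eval s.ctr))) :=
      fun _ _ _ _ _ _ => rfl
  rw [e1, e1]
  refine rng_det Q _ 30 (fun k s' => Base n q ℓ b s' ∧ (∀ c < 30, s'.cell 4 c = C c) ∧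
    (∀ i, ∀ c < 18, s'.cell (10 + c) i =
      if c = 0 then (if i = 0 then b 0 else 0)
      else if c = 6 then (if i = 0 then T else 0)
      else if 12 ≤ c ∧ 6 * i + (c - 12) < k then C (6 * i + (c - 12)) else 0)) ?_ _ _
      ⟨?_, ?_, ?_⟩ ?_
  · rintro k hk s' K ⟨h1, h2, h3⟩ hK
    rw [e1]
    simp only [NExp.eval]
    refine hK _ ⟨h1.put _ _ _ (by omega), fun c hc => ?_, fun i c hc => ?_⟩
    · rw [S0.cell_put, if_neg (by omega)]
      exact h2 c hc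
    · rw [S0.cell_put, h2 k hk]
      by_cases hA : 10 + c = 22 + k % 6 ∧ i = k / 6
      · rw [if_pos hA, if_neg (by omega), if_neg (by omega), if_pos (by omega)]
        congr 1
        omega
      · rw [if_neg hA, h3 i c hc]
        by_cases c0 : c = 0
        · rw [if_pos c0, if_pos c0]
        rw [if_neg c0, if_neg c0]
        by_cases c6 : c = 6
        · rw [if_pos c6, if_pos c6]
        rw [if_neg c6, if_neg c6]
        by_cases hB : 12 ≤ c ∧ 6 * i + (c - 12) < k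
        · rw [if_pos hB, if_pos (by omega)]
        · rw [if_neg hB, if_neg (by omega)]
  · refine Base.put (Base.put hs.base _ _ _ (by norm_num)) _ _ _ (by norm_num)
  · intro c hc
    rw [S0.cell_put, if_neg (by omega), S0.cell_put, if_neg (by omega)]
    exact hs.hC c hc
  · intro i c hc
    simp only [NExp.eval]
    by_cases c0 : c = 0
    · subst c0
      rw [if_pos rfl, S0.cell_put, if_neg (by omega), S0.cell_put]
      by_cases hi : i = 0
      · rw [if_pos ⟨rfl, hi⟩, if_pos hi]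
        exact hs.h0
      · rw [if_neg (by omega), if_neg hi]
        exact hs.hz _ _ (by norm_num)
    rw [if_neg c0]
    by_cases c6 : c = 6
    · subst c6
      rw [if_pos rfl, S0.cell_put]
      by_cases hi : i = 0
      · rw [if_pos ⟨rfl, hi⟩, if_pos hi, S0.cell_put, if_neg (by omega)]
        exact hs.hT
      · rw [if_neg (by omega), if_neg hi, S0.cell_put, if_neg (by omega)]
        exact hs.hz _ _ (by norm_num)
    rw [if_neg c6, if_neg (by omega), S0.cell_put, if_neg (by omega), S0.cell_put,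
      if_neg (by omega)]
    exact hs.hz _ _ (by omega)
  · rintro s' ⟨h1, h2, h3⟩
    refine hK s' h1 fun i c hc => ?_
    simp only [row]
    rw [h3 i c hc]
    unfold cl1
    by_cases c0 : c = 0
    · rw [if_pos c0, if_pos c0]
    rw [if_neg c0, if_neg c0]
    by_cases c6 : c = 6
    · rw [if_pos c6, if_pos c6]
    rw [if_neg c6, if_neg c6]
    by_cases hB : 12 ≤ c ∧ i < 5
    · rw [if_pos hB, if_pos (by omega)]
    · rw [if_neg hB, if_neg (by omega)]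

end AIP
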