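import Pool.Agent.AIP.Defs

/-!
# Paths in verifier trees
-/

namespace AIP

open MvPolynomial

variable {n : ℕ}

/-- The messages received in the first `k` rounds. -/
def trunc (p : ℕ → ℝ) (k : ℕ) : ℕ → ℝ := fun i => if i < k then p i else 0

/-- The output at the end of the path with the outcomes `o`. -/
def leaf : VTree n → List Bool → Bool
  | .halt b, _ => b
  | .sgn _ a b, o => match o with
      | [] => false
      | true :: o' => leaf a o'
      | false :: o' => leaf b o'
  | .test _ a b, o => match o with
      | [] => false
      | true :: o' => leaf a o'
      | false :: o' => leaf b o'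
  | .round _ t, o => leaf t o

/-- The list `o` is the list of outcomes along a path. -/
def Shape : VTree n → List Bool → Prop
  | .halt _, o => o = []
  | .sgn _ a b, o => match o with
      | [] => False
      | true :: o' => Shape a o'
      | false :: o' => Shape b o'
  | .test _ a b, o => match o with
      | [] => False
      | true :: o' => Shape a o'
      | false :: o' => Shape b o'
  | .round _ t, o => Shape t o

/-- The equality tests along the path, with the number of rounds before the test. -/
def tests : VTree n → ℕ → List Bool → List (ℕ × AForm n × Bool)
  | .halt _, _, _ => []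
  | .sgn _ a b, k, o => match o with
      | [] => []
      | true :: o' => tests a k o'
      | false :: o' => tests b k o'
  | .test φ a b, k, o => match o with
      | [] => []
      | true :: o' => (k, φ, true) :: tests a k o'
      | false :: o' => (k, φ, false) :: tests b k o'
  | .round _ t, k, o => tests t (k + 1) o

/-- The order tests along the path. -/
def signs : VTree n → List Bool → List (MvPolynomial (Fin n) ℝ × Bool)
  | .halt _, _ => []
  | .sgn f a b, o => match o with
      | [] => []
      | true :: o' => (f, true) :: signs a o'
      | false :: o' => (f, false) :: signs b o'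
  | .test _ a b, o => match o with
      | [] => []
      | true :: o' => signs a o'
      | false :: o' => signs b o'
  | .round _ t, o => signs t o

/-- The forms sent to the prover along the path. -/
def sends : VTree n → List Bool → List (AForm n)
  | .halt _, _ => []
  | .sgn _ a b, o => match o with
      | [] => []
      | true :: o' => sends a o'
      | false :: o' => sends b o'
  | .test _ a b, o => match o with
      | [] => []
      | true :: o' => sends a o'
      | false :: o' => sends b o'
  | .round φ t, o => φ :: sends t o

/-- Values of a list of forms, the `j`-th one after `k + j` rounds. -/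
noncomputable def vals (x : Fin n → ℝ) (p : ℕ → ℝ) : ℕ → List (AForm n) → List ℝ
  | _, [] => []
  | k, φ :: l => φ.val x (trunc p k) :: vals x p (k + 1) l

theorem vals_length (x : Fin n → ℝ) (p : ℕ → ℝ) (k : ℕ) (l : List (AForm n)) :
    (vals x p k l).length = l.length := by
  induction l generalizing k with
  | nil => rfl
  | cons φ l ih => simp [vals, ih]

theorem vals_getElem (x : Fin n → ℝ) (p : ℕ → ℝ) (k : ℕ) (l : List (AForm n)) (i : ℕ)
    (hi : i < l.length) :
    (vals x p k l)[i]'(by rw [vals_length]; exact hi) = (l[i]).val x (trunc p (k + i)) := by
  induction l generalizing k i with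
  | nil => simp at hi
  | cons φ l ih =>
    cases i with
    | zero => simp [vals]
    | succ i =>
      simp only [vals, List.getElem_cons_succ]
      rw [ih (k + 1) i (by simpa using hi)]
      congr 2
      omega

theorem trunc_succ (p : ℕ → ℝ) (k : ℕ) :
    Function.update (trunc p k) k (p k) = trunc p (k + 1) := by
  ext i
  by_cases h : i = k
  · subst h; simp [trunc]
  · rw [Function.update_of_ne h]
    simp only [trunc]
    have : i < k ↔ i < k + 1 := by omega
    simp [this]

/-- The outcomes of all tests agree with the path. -/
def Agree (T : VTree n) (x : Fin n → ℝ) (k : ℕ) (p : ℕ → ℝ) (o : List Bool) : Prop :=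
  Shape T o ∧ (∀ e ∈ tests T k o, (e.2.1.val x (trunc p e.1) = 0 ↔ e.2.2 = true)) ∧
    ∀ e ∈ signs T o, (0 ≤ eval x e.1 ↔ e.2 = true)

theorem run_of (T : VTree n) (x : Fin n → ℝ) (k : ℕ) (p : ℕ → ℝ) (o : List Bool)
    (P : List ℝ → ℝ) (hA : Agree T x k p o)
    (hP : ∀ i < (sends T o).length, P ((vals x p k (sends T o)).take (i + 1)) = p (k + i)) :
    T.run x k (trunc p k) P = leaf T o := by
  induction T generalizing k o P with
  | halt b => simp [VTree.run, leaf]
  | sgn f a b iha ihb =>
    obtain ⟨h1, h2, h3⟩ := hA
    match o, h1 with
    | true :: o', h1 =>
      have hf : 0 ≤ eval x f := by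
        have := h3 (f, true) (by simp [signs])
        simpa using this
      simp only [VTree.run, hf, if_true, leaf]
      refine iha k o' P ⟨h1, ?_, ?_⟩ ?_
      · simpa [tests] using h2
      · intro e he
        exact h3 e (by simp [signs, he])
      · simpa [sends] using hP
    | false :: o', h1 =>
      have hf : ¬ 0 ≤ eval x f := by
        have := h3 (f, false) (by simp [signs])
        simpa using this
      simp only [VTree.run, hf, if_false, leaf]
      refine ihb k o' P ⟨h1, ?_, ?_⟩ ?_
      · simpa [tests] using h2
      · intro e he
        exact h3 e (by simp [signs, he])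
      · simpa [sends] using hP
  | test φ a b iha ihb =>
    obtain ⟨h1, h2, h3⟩ := hA
    match o, h1 with
    | true :: o', h1 =>
      have hf : φ.val x (trunc p k) = 0 := by
        have := h2 (k, φ, true) (by simp [tests])
        simpa using this
      simp only [VTree.run, hf, if_true, leaf]
      refine iha k o' P ⟨h1, ?_, ?_⟩ ?_
      · intro e he
        exact h2 e (by simp [tests, he])
      · simpa [signs] using h3
      · simpa [sends] using hP
    | false :: o', h1 =>
      have hf : ¬ φ.val x (trunc p k) = 0 := by
        have := h2 (k, φ, false) (by simp [tests])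
        simpa using this
      simp only [VTree.run, hf, if_false, leaf]
      refine ihb k o' P ⟨h1, ?_, ?_⟩ ?_
      · intro e he
        exact h2 e (by simp [tests, he])
      · simpa [signs] using h3
      · simpa [sends] using hP
  | round φ t ih =>
    obtain ⟨h1, h2, h3⟩ := hA
    simp only [VTree.run, leaf]
    have h0 : P [φ.val x (trunc p k)] = p k := by
      have := hP 0 (by simp [sends])
      simpa [sends, vals] using this
    rw [h0, trunc_succ]
    refine ih (k + 1) o _ ⟨h1, ?_, ?_⟩ ?_
    · simpa [tests] using h2
    · simpa [signs] using h3
    · intro i hi
      have := hP (i + 1) (by simpa [sends] using hi)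
      simp only [sends, vals, List.take_succ_cons] at this
      rw [this]
      congr 1
      omega

theorem exists_path (T : VTree n) (x : Fin n → ℝ) (k : ℕ) (s : ℕ → ℝ) (P : List ℝ → ℝ)
    (hs : ∀ i, k ≤ i → s i = 0) :
    ∃ (p : ℕ → ℝ) (o : List Bool), trunc p k = s ∧ Agree T x k p o ∧
      (∀ i < (sends T o).length, P ((vals x p k (sends T o)).take (i + 1)) = p (k + i)) ∧
      T.run x k s P = leaf T o ∧ o.length ≤ T.depth := by
  induction T generalizing k s P with
  | halt b =>
    refine ⟨s, [], ?_, ⟨rfl, by simp [tests], by simp [signs]⟩, by simp [sends], rfl, by simp⟩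
    ext i
    simp only [trunc]
    split_ifs with h
    · rfl
    · exact (hs i (by omega)).symm
  | sgn f a b iha ihb =>
    by_cases hf : 0 ≤ eval x f
    · obtain ⟨p, o, h1, ⟨h2, h3, h4⟩, h5, h6, h7⟩ := iha k s P hs
      refine ⟨p, true :: o, h1, ⟨h2, ?_, ?_⟩, ?_, ?_, ?_⟩
      · simpa [tests] using h3
      · intro e he
        simp only [signs, List.mem_cons] at he
        rcases he with rfl | he
        · simpa using hf
        · exact h4 e he
      · simpa [sends] using h5
      · simp [VTree.run, hf, leaf, h6]
      · simp only [List.length_cons, VTree.depth]; omega
    · obtain ⟨p, o, h1, ⟨h2, h3, h4⟩, h5, h6, h7⟩ := ihb k s P hs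
      refine ⟨p, false :: o, h1, ⟨h2, ?_, ?_⟩, ?_, ?_, ?_⟩
      · simpa [tests] using h3
      · intro e he
        simp only [signs, List.mem_cons] at he
        rcases he with rfl | he
        · simpa using hf
        · exact h4 e he
      · simpa [sends] using h5
      · simp [VTree.run, hf, leaf, h6]
      · simp only [List.length_cons, VTree.depth]; omega
  | test φ a b iha ihb =>
    by_cases hf : φ.val x s = 0
    · obtain ⟨p, o, h1, ⟨h2, h3, h4⟩, h5, h6, h7⟩ := iha k s P hs
      refine ⟨p, true :: o, h1, ⟨h2, ?_, ?_⟩, ?_, ?_, ?_⟩
      · intro e he
        simp only [tests, List.mem_cons] at he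
        rcases he with rfl | he
        · simpa [h1] using hf
        · exact h3 e he
      · simpa [signs] using h4
      · simpa [sends] using h5
      · simp [VTree.run, hf, leaf, h6]
      · simp only [List.length_cons, VTree.depth]; omega
    · obtain ⟨p, o, h1, ⟨h2, h3, h4⟩, h5, h6, h7⟩ := ihb k s P hs
      refine ⟨p, false :: o, h1, ⟨h2, ?_, ?_⟩, ?_, ?_, ?_⟩
      · intro e he
        simp only [tests, List.mem_cons] at he
        rcases he with rfl | he
        · simpa [h1] using hf
        · exact h3 e he
      · simpa [signs] using h4
      · simpa [sends] using h5
      · simp [VTree.run, hf, leaf, h6]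
      · simp only [List.length_cons, VTree.depth]; omega
  | round φ t ih =>
    obtain ⟨p, o, h1, ⟨h2, h3, h4⟩, h5, h6, h7⟩ := ih (k + 1)
      (Function.update s k (P [φ.val x s])) (fun h => P (φ.val x s :: h)) (by
        intro i hi
        rw [Function.update_of_ne (by omega)]
        exact hs i (by omega))
    have hpk : p k = P [φ.val x s] := by
      have := congrFun h1 k
      simpa [trunc] using this
    have htr : trunc p k = s := by
      ext i
      simp only [trunc]
      split_ifs with h
      · have := congrFun h1 i
        rw [Function.update_of_ne (by omega)] at this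
        simpa [trunc, Nat.lt_succ_of_lt h] using this
      · exact (hs i (by omega)).symm
    refine ⟨p, o, htr, ⟨h2, ?_, ?_⟩, ?_, ?_, ?_⟩
    · simpa [tests] using h3
    · simpa [signs] using h4
    · intro i hi
      cases i with
      | zero => simp [sends, vals, htr, hpk]
      | succ i =>
        have := h5 i (by simpa [sends] using hi)
        simp only [sends, vals, List.take_succ_cons, htr]
        rw [this]
        congr 1
        omega
    · simp [VTree.run, h6, leaf]
    · simp only [VTree.depth]; omega

theorem tests_length (T : VTree n) (k : ℕ) (o : List Bool) :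
    (tests T k o).length ≤ T.depth := by
  induction T generalizing k o with
  | halt b => simp [tests]
  | sgn f a b iha ihb =>
    match o with
    | [] => simp [tests]
    | true :: o' => simp only [tests, VTree.depth]; have := iha k o'; omega
    | false :: o' => simp only [tests, VTree.depth]; have := ihb k o'; omega
  | test f a b iha ihb =>
    match o with
    | [] => simp [tests]
    | true :: o' => simp only [tests, VTree.depth, List.length_cons]; have := iha k o'; omega
    | false :: o' => simp only [tests, VTree.depth, List.length_cons]; have := ihb k o'; omega
  | round φ t ih => simp only [tests, VTree.depth]; have := ih (k + 1) o; omega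

theorem sends_length (T : VTree n) (o : List Bool) :
    (sends T o).length ≤ T.depth := by
  induction T generalizing o with
  | halt b => simp [sends]
  | sgn f a b iha ihb =>
    match o with
    | [] => simp [sends]
    | true :: o' => simp only [sends, VTree.depth]; have := iha o'; omega
    | false :: o' => simp only [sends, VTree.depth]; have := ihb o'; omega
  | test f a b iha ihb =>
    match o with
    | [] => simp [sends]
    | true :: o' => simp only [sends, VTree.depth]; have := iha o'; omega
    | false :: o' => simp only [sends, VTree.depth]; have := ihb o'; omega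
  | round φ t ih => simp only [sends, VTree.depth, List.length_cons]; have := ih o; omega

theorem tests_mem (T : VTree n) (k d : ℕ) (o : List Bool) (hd : T.DegLE d) :
    ∀ e ∈ tests T k o, e.1 ≤ k + T.depth ∧ e.2.1.DegLE d := by
  induction T generalizing k o with
  | halt b => simp [tests]
  | sgn f a b iha ihb =>
    match o with
    | [] => simp [tests]
    | true :: o' =>
      intro e he
      have := iha k o' hd.2.1 e (by simpa [tests] using he)
      refine ⟨?_, this.2⟩
      simp only [VTree.depth]; omega
    | false :: o' =>
      intro e he
      have := ihb k o' hd.2.2 e (by simpa [tests] using he)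
      refine ⟨?_, this.2⟩
      simp only [VTree.depth]; omega
  | test f a b iha ihb =>
    match o with
    | [] => simp [tests]
    | true :: o' =>
      intro e he
      simp only [tests, List.mem_cons] at he
      rcases he with rfl | he
      · exact ⟨by omega, hd.1⟩
      · have := iha k o' hd.2.1 e he
        refine ⟨?_, this.2⟩
        simp only [VTree.depth]; omega
    | false :: o' =>
      intro e he
      simp only [tests, List.mem_cons] at he
      rcases he with rfl | he
      · exact ⟨by omega, hd.1⟩
      · have := ihb k o' hd.2.2 e he
        refine ⟨?_, this.2⟩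
        simp only [VTree.depth]; omega
  | round φ t ih =>
    intro e he
    have := ih (k + 1) o hd.2 e (by simpa [tests] using he)
    refine ⟨?_, this.2⟩
    simp only [VTree.depth]; omega

theorem sends_mem (T : VTree n) (d : ℕ) (o : List Bool) (hd : T.DegLE d) :
    ∀ φ ∈ sends T o, φ.DegLE d := by
  induction T generalizing o with
  | halt b => simp [sends]
  | sgn f a b iha ihb =>
    match o with
    | [] => simp [sends]
    | true :: o' => intro e he; exact iha o' hd.2.1 e (by simpa [sends] using he)
    | false :: o' => intro e he; exact ihb o' hd.2.2 e (by simpa [sends] using he)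
  | test f a b iha ihb =>
    match o with
    | [] => simp [sends]
    | true :: o' => intro e he; exact iha o' hd.2.1 e (by simpa [sends] using he)
    | false :: o' => intro e he; exact ihb o' hd.2.2 e (by simpa [sends] using he)
  | round φ t ih =>
    intro e he
    simp only [sends, List.mem_cons] at he
    rcases he with rfl | he
    · exact hd.1
    · exact ih o hd.2 e he

/-- All polynomials in order tests of the tree. -/
def sgnPolys : VTree n → List (MvPolynomial (Fin n) ℝ)
  | .halt _ => []
  | .sgn f a b => f :: (sgnPolys a ++ sgnPolys b)
  | .test _ a b => sgnPolys a ++ sgnPolys b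
  | .round _ t => sgnPolys t

theorem sgnPolys_length (T : VTree n) : (sgnPolys T).length + 1 ≤ 2 ^ T.depth := by
  induction T with
  | halt b => simp [sgnPolys, VTree.depth]
  | sgn f a b iha ihb =>
    simp only [sgnPolys, VTree.depth, List.length_cons, List.length_append]
    have h1 : 2 ^ a.depth ≤ 2 ^ max a.depth b.depth :=
      Nat.pow_le_pow_right (by norm_num) (le_max_left _ _)
    have h2 : 2 ^ b.depth ≤ 2 ^ max a.depth b.depth :=
      Nat.pow_le_pow_right (by norm_num) (le_max_right _ _)
    rw [pow_succ]
    omega
  | test f a b iha ihb =>
    simp only [sgnPolys, VTree.depth, List.length_append]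
    have h1 : 2 ^ a.depth ≤ 2 ^ max a.depth b.depth :=
      Nat.pow_le_pow_right (by norm_num) (le_max_left _ _)
    have h2 : 2 ^ b.depth ≤ 2 ^ max a.depth b.depth :=
      Nat.pow_le_pow_right (by norm_num) (le_max_right _ _)
    rw [pow_succ]
    omega
  | round φ t ih =>
    simp only [sgnPolys, VTree.depth]
    rw [pow_succ]
    omega

theorem sgnPolys_deg (T : VTree n) (d : ℕ) (hd : T.DegLE d) :
    ∀ f ∈ sgnPolys T, f.totalDegree ≤ d := by
  induction T with
  | halt b => simp [sgnPolys]
  | sgn f a b iha ihb =>
    intro g hg
    simp only [sgnPolys, List.mem_cons, List.mem_append] at hg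
    rcases hg with rfl | hg | hg
    · exact hd.1
    · exact iha hd.2.1 g hg
    · exact ihb hd.2.2 g hg
  | test f a b iha ihb =>
    intro g hg
    simp only [sgnPolys, List.mem_append] at hg
    rcases hg with hg | hg
    · exact iha hd.2.1 g hg
    · exact ihb hd.2.2 g hg
  | round φ t ih => exact ih hd.2

theorem signs_sub (T : VTree n) (o : List Bool) :
    ∀ e ∈ signs T o, e.1 ∈ sgnPolys T := by
  induction T generalizing o with
  | halt b => simp [signs]
  | sgn f a b iha ihb =>
    match o with
    | [] => simp [signs]
    | true :: o' =>
      intro e he
      simp only [signs, List.mem_cons] at he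
      rcases he with rfl | he
      · simp [sgnPolys]
      · simp [sgnPolys, iha o' e he]
    | false :: o' =>
      intro e he
      simp only [signs, List.mem_cons] at he
      rcases he with rfl | he
      · simp [sgnPolys]
      · simp [sgnPolys, ihb o' e he]
  | test f a b iha ihb =>
    match o with
    | [] => simp [signs]
    | true :: o' => intro e he; simp [sgnPolys, iha o' e (by simpa [signs] using he)]
    | false :: o' => intro e he; simp [sgnPolys, ihb o' e (by simpa [signs] using he)]
  | round φ t ih => intro e he; simpa [sgnPolys] using ih o e (by simpa [signs] using he)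

end AIP
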