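import Pool.Agent.AIP.Wp

/-!
# The program and the level step
-/

namespace AIP

open NExp Cmd

/-! ### The program -/

/-- Three times an expression. -/
def three (e : NExp) : NExp := .add e (.add e e)

theorem three_eval (e : NExp) (c : ℕ → ℕ) : (three e).eval c = 3 * e.eval c := by
  simp only [three, NExp.eval]
  ring

/-- Receive `18` messages for each of the `q` claims. -/
def recvCmd : Cmd := loop 4 (ctr 1) (rng 18 fun c => ask 3 (lit 0) (30 + c) (ctr 4))

/-- The `3q` claims of the next level. -/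
def gensCmd : Cmd := loop 4 (ctr 1)
  (seq (rng 18 fun c => if c < 6 then copy (70 + c) (three (ctr 4)) (10 + c) (ctr 4)
      else copy (70 + c) (three (ctr 4)) (24 + c) (ctr 4))
  (seq (rng 18 fun c => if c < 6 then
      copy (70 + c) (add (three (ctr 4)) (lit 1)) (30 + c) (ctr 4)
      else if c < 12 then
      copy (70 + c) (add (three (ctr 4)) (lit 1)) (10 + c) (ctr 4)
      else sub (70 + c) (add (three (ctr 4)) (lit 1)) (10 + c) (ctr 4) (30 + c) (ctr 4))
  (rng 18 fun c => if c < 12 then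
      copy (70 + c) (add (three (ctr 4)) (lit 2)) (36 + c) (ctr 4)
      else sub (70 + c) (add (three (ctr 4)) (lit 2)) 2 (lit 0) 2 (lit 0))))

/-- Toss a coin, send it to the prover, and add a claim if the coin is `1`. -/
def coinCmd : Cmd :=
  seq (flip 6) (seq (nat 2 (lit 0) (ctr 6)) (seq (ask 2 (lit 0) 3 (lit 1))
    (ifle (lit 1) (ctr 6)
      (rng 18 fun c => add (50 + c) (ctr 5) (50 + c) (ctr 5) (70 + c) (ctr 4)) skip)))

/-- `q` random combinations of the `3q` claims. -/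
def randCmd : Cmd := loop 5 (ctr 1)
  (seq (rng 18 fun c => sub (50 + c) (ctr 5) 2 (lit 0) 2 (lit 0))
    (loop 4 (three (ctr 1)) coinCmd))

/-- Copy the new claims. -/
def backCmd : Cmd := loop 4 (ctr 1) (rng 18 fun c => copy (10 + c) (ctr 4) (50 + c) (ctr 4))

/-- One level. -/
def levelCmd : Cmd := seq recvCmd (seq gensCmd (seq randCmd backCmd))

/-! ### States -/

/-- Deterministic rule for `rng`. -/
theorem rng_det (Q : ITree → Prop) (f : ℕ → Cmd) (N : ℕ) (Inv : ℕ → S0 → Prop)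
    (h : ∀ j < N, ∀ s K, Inv j s → (∀ s', Inv (j + 1) s' → Q (K s')) → Q (exec0 (f j) s K))
    (s : S0) (K : S0 → ITree) (h0 : Inv 0 s) (hK : ∀ s', Inv N s' → Q (K s')) :
    Q (exec0 (rng N f) s K) :=
  rng_rule (fun _ => Q) f N Inv (fun _ _ => Q) h s K h0 hK rfl

/-- Deterministic rule for `loop`. -/
theorem loop_det (Q : ITree → Prop) (i : ℕ) (e : NExp) (a : Cmd) (N : ℕ) (Inv : ℕ → S0 → Prop)
    (h : ∀ j < N, ∀ s K, Inv j s → (∀ s', Inv (j + 1) s' → Q (K s')) →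
      Q (exec0 a (s.setCtr i j) K))
    (s : S0) (K : S0 → ITree) (hN : e.eval s.ctr = N) (h0 : Inv 0 s)
    (hK : ∀ s', Inv N s' → Q (K s')) : Q (exec0 (.loop i e a) s K) :=
  loop_rule i e a N Inv (fun _ _ => Q) h s K hN h0 hK

/-- The fixed part of the state. -/
structure Base (n q ℓ : ℕ) (b : ℕ → ℝ) (s : S0) : Prop where
  c0 : s.ctr 0 = n
  c1 : s.ctr 1 = q
  c2 : s.ctr 2 = ℓ
  hb : ∀ e < 6, s.cell 1 e = b e

theorem Base.put {n q ℓ : ℕ} {b : ℕ → ℝ} {s : S0} (h : Base n q ℓ b s) (A i : ℕ) (v : ℝ)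
    (hA : A ≠ 1) : Base n q ℓ b (s.put A i v) :=
  ⟨h.c0, h.c1, h.c2, fun e he => by
    rw [S0.cell_put, if_neg (by omega)]; exact h.hb e he⟩

theorem Base.setCtr {n q ℓ : ℕ} {b : ℕ → ℝ} {s : S0} (h : Base n q ℓ b s) (i v : ℕ)
    (hi : 3 ≤ i) : Base n q ℓ b (s.setCtr i v) :=
  ⟨by rw [S0.ctr_setCtr, if_neg (by omega)]; exact h.c0,
    by rw [S0.ctr_setCtr, if_neg (by omega)]; exact h.c1,
    by rw [S0.ctr_setCtr, if_neg (by omega)]; exact h.c2, h.hb⟩

/-- The rows `r i` are stored in the arrays `A, …, A + 17`. -/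
def Rows (A N : ℕ) (r : ℕ → ℕ → ℝ) (s : S0) : Prop := ∀ i < N, ∀ c < 18, s.cell (A + c) i = r i c

theorem Rows.put {A N : ℕ} {r : ℕ → ℕ → ℝ} {s : S0} (h : Rows A N r s) (A' i : ℕ) (v : ℝ)
    (hA : A' < A ∨ A + 18 ≤ A') : Rows A N r (s.put A' i v) := by
  intro j hj c hc
  rw [S0.cell_put, if_neg (by omega)]
  exact h j hj c hc

theorem Rows.setCtr {A N : ℕ} {r : ℕ → ℕ → ℝ} {s : S0} (h : Rows A N r s) (i v : ℕ) :
    Rows A N r (s.setCtr i v) := h

/-- Membership in the group of true claims of level `m`. -/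
def InG (m : ℕ) (b : ℕ → ℝ) (g : ℕ → ℝ) : Prop :=
  (∀ e < 6, g (6 + e) = 2 ^ 2 ^ m * g e) ∧ ∃ z : ℤ, ∀ e < 6, g (12 + e) = z * b e

/-- Membership with a bound on the integer. -/
def WG (m : ℕ) (S : ℕ) (b : ℕ → ℝ) (g : ℕ → ℝ) : Prop :=
  (∀ e < 6, g (6 + e) = 2 ^ 2 ^ m * g e) ∧ ∃ z : ℤ, |z| ≤ S ∧ ∀ e < 6, g (12 + e) = z * b e

theorem InG_congr {m : ℕ} {b g g' : ℕ → ℝ} (h : ∀ c < 18, g' c = g c) :
    InG m b g' ↔ InG m b g := by
  unfold InG
  refine and_congr ?_ (exists_congr fun z => ?_)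
  · refine forall_congr' fun e => forall_congr' fun he => ?_
    rw [h _ (by omega), h _ (by omega)]
  · refine forall_congr' fun e => forall_congr' fun he => ?_
    rw [h _ (by omega)]

theorem WG_congr {m S : ℕ} {b g g' : ℕ → ℝ} (h : ∀ c < 18, g' c = g c) :
    WG m S b g' ↔ WG m S b g := by
  unfold WG
  refine and_congr ?_ (exists_congr fun z => and_congr Iff.rfl ?_)
  · refine forall_congr' fun e => forall_congr' fun he => ?_
    rw [h _ (by omega), h _ (by omega)]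
  · refine forall_congr' fun e => forall_congr' fun he => ?_
    rw [h _ (by omega)]

theorem InG_zero (m : ℕ) (b : ℕ → ℝ) : InG m b (fun _ => 0) :=
  ⟨fun _ _ => by simp, 0, fun _ _ => by simp⟩

theorem InG_add {m : ℕ} {b g h : ℕ → ℝ} (hg : InG m b g) (hh : InG m b h) :
    InG m b (fun c => g c + h c) := by
  obtain ⟨g1, z, g2⟩ := hg
  obtain ⟨h1, w, h2⟩ := hh
  refine ⟨fun e he => ?_, z + w, fun e he => ?_⟩
  · simp only []
    rw [g1 e he, h1 e he]; ring
  · simp only []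
    rw [g2 e he, h2 e he]; push_cast; ring

theorem InG_sub {m : ℕ} {b g h : ℕ → ℝ} (hg : InG m b g) (hh : InG m b h) :
    InG m b (fun c => g c - h c) := by
  obtain ⟨g1, z, g2⟩ := hg
  obtain ⟨h1, w, h2⟩ := hh
  refine ⟨fun e he => ?_, z - w, fun e he => ?_⟩
  · simp only []
    rw [g1 e he, h1 e he]; ring
  · simp only []
    rw [g2 e he, h2 e he]; push_cast; ring

theorem InG_add_iff {m : ℕ} {b g h : ℕ → ℝ} (hh : InG m b h) :
    InG m b (fun c => g c + h c) ↔ InG m b g := by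
  constructor
  · intro h1
    have := InG_sub h1 hh
    refine (InG_congr fun c _ => ?_).1 this
    ring
  · intro h1
    exact InG_add h1 hh

theorem not_both {m : ℕ} {b g h : ℕ → ℝ} (hh : ¬ InG m b h) (h1 : InG m b g)
    (h2 : InG m b (fun c => g c + h c)) : False := by
  apply hh
  have := InG_sub h2 h1
  refine (InG_congr fun c _ => ?_).1 this
  ring

theorem WG_add {m S S' : ℕ} {b g h : ℕ → ℝ} (hg : WG m S b g) (hh : WG m S' b h) :
    WG m (S + S') b (fun c => g c + h c) := by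
  obtain ⟨g1, z, g3, g2⟩ := hg
  obtain ⟨h1, w, h3, h2⟩ := hh
  refine ⟨fun e he => ?_, z + w, ?_, fun e he => ?_⟩
  · simp only []
    rw [g1 e he, h1 e he]; ring
  · push_cast
    exact (abs_add_le z w).trans (by linarith)
  · simp only []
    rw [g2 e he, h2 e he]; push_cast; ring

theorem WG_mono {m S S' : ℕ} {b g : ℕ → ℝ} (hg : WG m S b g) (h : S ≤ S') : WG m S' b g := by
  obtain ⟨g1, z, g3, g2⟩ := hg
  exact ⟨g1, z, g3.trans (by exact_mod_cast h), g2⟩

theorem WG_zero (m S : ℕ) (b : ℕ → ℝ) : WG m S b (fun _ => 0) :=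
  ⟨fun _ _ => by simp, 0, by simp, fun _ _ => by simp⟩

/-! ### Receiving -/

theorem recv_W {n q ℓ : ℕ} {b : ℕ → ℝ} (cl ms : ℕ → ℕ → ℝ) (s : S0) (K : S0 → ITree)
    (hs : Base n q ℓ b s) (hcl : Rows 10 q cl s)
    (hK : ∀ s', Base n q ℓ b s' → Rows 10 q cl s' → Rows 30 q ms s' → W (K s')) :
    W (exec0 recvCmd s K) := by
  refine loop_det W 4 (ctr 1) _ q (fun j s => Base n q ℓ b s ∧ Rows 10 q cl s ∧ Rows 30 j ms s)
    ?_ s K hs.c1 ⟨hs, hcl, fun i hi => by omega⟩ (fun s' h => hK s' h.1 h.2.1 h.2.2)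
  rintro j hj s K ⟨h1, h2, h3⟩ hK
  refine rng_det W _ 18 (fun c s => Base n q ℓ b s ∧ Rows 10 q cl s ∧ Rows 30 j ms s ∧
    s.ctr 4 = j ∧ ∀ c' < c, s.cell (30 + c') j = ms j c') ?_ _ K
    ⟨h1.setCtr 4 j (by norm_num), h2, h3, by rw [S0.ctr_setCtr]; simp, fun c' h => by omega⟩ ?_
  · rintro c hc s K ⟨h1, h2, h3, h4, h5⟩ hK
    refine W_ask _ _ (ms j c) (hK _ ⟨h1.put _ _ _ (by omega), h2.put _ _ _ (by omega), ?_, h4, ?_⟩)
    · intro i hi c' hc'
      simp only [NExp.eval]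
      rw [S0.cell_put, if_neg (by omega)]
      exact h3 i hi c' hc'
    · intro c' hc'
      simp only [NExp.eval]
      rw [S0.cell_put]
      by_cases hcc : c' = c
      · rw [if_pos ⟨by omega, h4.symm⟩, hcc]
      · rw [if_neg (by omega)]
        exact h5 c' (by omega)
  · rintro s' ⟨h1, h2, h3, h4, h5⟩
    refine hK s' ⟨h1, h2, fun i hi c hc => ?_⟩
    rcases Nat.lt_succ_iff_lt_or_eq.1 hi with h | h
    · exact h3 i h c hc
    · rw [h]; exact h5 c hc

theorem recv_B {n q ℓ : ℕ} {b : ℕ → ℝ} (ε : ℝ) (cl : ℕ → ℕ → ℝ) (s : S0) (K : S0 → ITree)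
    (hs : Base n q ℓ b s) (hcl : Rows 10 q cl s)
    (hK : ∀ s', Base n q ℓ b s' → Rows 10 q cl s' → B ε (K s')) :
    B ε (exec0 recvCmd s K) := by
  refine loop_det (B ε) 4 (ctr 1) _ q (fun _ s => Base n q ℓ b s ∧ Rows 10 q cl s)
    ?_ s K hs.c1 ⟨hs, hcl⟩ (fun s' h => hK s' h.1 h.2)
  rintro j hj s K ⟨h1, h2⟩ hK
  refine rng_det (B ε) _ 18 (fun _ s => Base n q ℓ b s ∧ Rows 10 q cl s) ?_ _ K
    ⟨h1.setCtr 4 j (by norm_num), h2⟩ hK
  rintro c hc s K ⟨h1, h2⟩ hK
  exact B_ask _ _ _ fun p => hK _ ⟨h1.put _ _ _ (by omega), h2.put _ _ _ (by omega)⟩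

/-! ### The generators -/

/-- The `3q` claims. -/
def gen (cl ms : ℕ → ℕ → ℝ) (idx c : ℕ) : ℝ :=
  if idx % 3 = 0 then (if c < 6 then cl (idx / 3) c else ms (idx / 3) (c - 6))
  else if idx % 3 = 1 then
    (if c < 6 then ms (idx / 3) c else if c < 12 then cl (idx / 3) c
      else cl (idx / 3) c - ms (idx / 3) c)
  else (if c < 12 then ms (idx / 3) (c + 6) else 0)

theorem gen_zero (cl ms : ℕ → ℕ → ℝ) (j c : ℕ) :
    gen cl ms (3 * j) c = if c < 6 then cl j c else ms j (c - 6) := by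
  unfold gen
  rw [if_pos (by omega), show 3 * j / 3 = j by omega]

theorem gen_one (cl ms : ℕ → ℕ → ℝ) (j c : ℕ) :
    gen cl ms (3 * j + 1) c =
      if c < 6 then ms j c else if c < 12 then cl j c else cl j c - ms j c := by
  unfold gen
  rw [if_neg (by omega), if_pos (by omega), show (3 * j + 1) / 3 = j by omega]

theorem gen_two (cl ms : ℕ → ℕ → ℝ) (j c : ℕ) :
    gen cl ms (3 * j + 2) c = if c < 12 then ms j (c + 6) else 0 := by
  unfold gen
  rw [if_neg (by omega), if_neg (by omega), show (3 * j + 2) / 3 = j by omega]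

theorem gens_spec {n q ℓ : ℕ} {b : ℕ → ℝ} (Q : ITree → Prop) (cl ms : ℕ → ℕ → ℝ) (s : S0)
    (K : S0 → ITree) (hs : Base n q ℓ b s) (hcl : Rows 10 q cl s) (hms : Rows 30 q ms s)
    (hK : ∀ s', Base n q ℓ b s' → Rows 70 (3 * q) (gen cl ms) s' → Q (K s')) :
    Q (exec0 gensCmd s K) := by
  refine loop_det Q 4 (ctr 1) _ q (fun j s => Base n q ℓ b s ∧ Rows 10 q cl s ∧
    Rows 30 q ms s ∧ Rows 70 (3 * j) (gen cl ms) s)
    ?_ s K hs.c1 ⟨hs, hcl, hms, fun i hi => by omega⟩ (fun s' h => hK s' h.1 h.2.2.2)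
  rintro j hj s K ⟨h1, h2, h3, h4⟩ hK
  simp only [exec0]
  refine rng_det Q _ 18 (fun c s => Base n q ℓ b s ∧ Rows 10 q cl s ∧ Rows 30 q ms s ∧
    Rows 70 (3 * j) (gen cl ms) s ∧ s.ctr 4 = j ∧
    ∀ c' < c, s.cell (70 + c') (3 * j) = gen cl ms (3 * j) c') ?_ _ _
    ⟨h1.setCtr 4 j (by norm_num), h2, h3, h4, by rw [S0.ctr_setCtr]; simp,
      fun c' h => by omega⟩ ?_
  · rintro c hc s K ⟨h1, h2, h3, h4, h5, h6⟩ hK
    have hval : exec0 (if c < 6 then copy (70 + c) (three (ctr 4)) (10 + c) (ctr 4)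
      else copy (70 + c) (three (ctr 4)) (24 + c) (ctr 4)) s K =
        K (s.put (70 + c) (3 * j) (gen cl ms (3 * j) c)) := by
      rw [gen_zero]
      split_ifs with hc6
      · simp only [exec0, three_eval, NExp.eval, h5]
        rw [h2 j hj c hc]
      · simp only [exec0, three_eval, NExp.eval, h5]
        have := h3 j hj (c - 6) (by omega)
        rw [show 30 + (c - 6) = 24 + c by omega] at this
        rw [this]
    rw [hval]
    refine hK _ ⟨h1.put _ _ _ (by omega), h2.put _ _ _ (by omega), h3.put _ _ _ (by omega),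
      ?_, h5, ?_⟩
    · intro i hi c' hc'
      rw [S0.cell_put, if_neg (by omega)]
      exact h4 i hi c' hc'
    · intro c' hc'
      rw [S0.cell_put]
      by_cases hcc : c' = c
      · rw [if_pos ⟨by omega, rfl⟩, hcc]
      · rw [if_neg (by omega)]
        exact h6 c' (by omega)
  rintro s ⟨h1, h2, h3, h4, h5, h6⟩
  refine rng_det Q _ 18 (fun c s => Base n q ℓ b s ∧ Rows 10 q cl s ∧ Rows 30 q ms s ∧
    Rows 70 (3 * j) (gen cl ms) s ∧ s.ctr 4 = j ∧
    (∀ c' < 18, s.cell (70 + c') (3 * j) = gen cl ms (3 * j) c') ∧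
    ∀ c' < c, s.cell (70 + c') (3 * j + 1) = gen cl ms (3 * j + 1) c') ?_ _ _
    ⟨h1, h2, h3, h4, h5, h6, fun c' h => by omega⟩ ?_
  · rintro c hc s K ⟨h1, h2, h3, h4, h5, h6, h7⟩ hK
    have hval : exec0 (if c < 6 then
      copy (70 + c) (add (three (ctr 4)) (lit 1)) (30 + c) (ctr 4)
      else if c < 12 then
      copy (70 + c) (add (three (ctr 4)) (lit 1)) (10 + c) (ctr 4)
      else sub (70 + c) (add (three (ctr 4)) (lit 1)) (10 + c) (ctr 4) (30 + c) (ctr 4))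
        s K = K (s.put (70 + c) (3 * j + 1) (gen cl ms (3 * j + 1) c)) := by
      rw [gen_one]
      split_ifs with hc6 hc12
      · simp only [exec0, three_eval, NExp.eval, h5]
        rw [h3 j hj c hc]
      · simp only [exec0, three_eval, NExp.eval, h5]
        rw [h2 j hj c hc]
      · simp only [exec0, three_eval, NExp.eval, h5]
        rw [h2 j hj c hc, h3 j hj c hc]
    rw [hval]
    refine hK _ ⟨h1.put _ _ _ (by omega), h2.put _ _ _ (by omega), h3.put _ _ _ (by omega),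
      ?_, h5, ?_, ?_⟩
    · intro i hi c' hc'
      rw [S0.cell_put, if_neg (by omega)]
      exact h4 i hi c' hc'
    · intro c' hc'
      rw [S0.cell_put, if_neg (by omega)]
      exact h6 c' hc'
    · intro c' hc'
      rw [S0.cell_put]
      by_cases hcc : c' = c
      · rw [if_pos ⟨by omega, rfl⟩, hcc]
      · rw [if_neg (by omega)]
        exact h7 c' (by omega)
  rintro s ⟨h1, h2, h3, h4, h5, h6, h7⟩
  refine rng_det Q _ 18 (fun c s => Base n q ℓ b s ∧ Rows 10 q cl s ∧ Rows 30 q ms s ∧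
    Rows 70 (3 * j) (gen cl ms) s ∧ s.ctr 4 = j ∧
    (∀ c' < 18, s.cell (70 + c') (3 * j) = gen cl ms (3 * j) c') ∧
    (∀ c' < 18, s.cell (70 + c') (3 * j + 1) = gen cl ms (3 * j + 1) c') ∧
    ∀ c' < c, s.cell (70 + c') (3 * j + 2) = gen cl ms (3 * j + 2) c') ?_ _ _
    ⟨h1, h2, h3, h4, h5, h6, h7, fun c' h => by omega⟩ ?_
  · rintro c hc s K ⟨h1, h2, h3, h4, h5, h6, h7, h8⟩ hK
    have hval : exec0 (if c < 12 then
      copy (70 + c) (add (three (ctr 4)) (lit 2)) (36 + c) (ctr 4)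
      else sub (70 + c) (add (three (ctr 4)) (lit 2)) 2 (lit 0) 2 (lit 0))
        s K = K (s.put (70 + c) (3 * j + 2) (gen cl ms (3 * j + 2) c)) := by
      rw [gen_two]
      split_ifs with hc12
      · simp only [exec0, three_eval, NExp.eval, h5]
        have := h3 j hj (c + 6) (by omega)
        rw [show 30 + (c + 6) = 36 + c by omega] at this
        rw [this]
      · simp only [exec0, three_eval, NExp.eval, h5, sub_self]
    rw [hval]
    refine hK _ ⟨h1.put _ _ _ (by omega), h2.put _ _ _ (by omega), h3.put _ _ _ (by omega),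
      ?_, h5, ?_, ?_, ?_⟩
    · intro i hi c' hc'
      rw [S0.cell_put, if_neg (by omega)]
      exact h4 i hi c' hc'
    · intro c' hc'
      rw [S0.cell_put, if_neg (by omega)]
      exact h6 c' hc'
    · intro c' hc'
      rw [S0.cell_put, if_neg (by omega)]
      exact h7 c' hc'
    · intro c' hc'
      rw [S0.cell_put]
      by_cases hcc : c' = c
      · rw [if_pos ⟨by omega, rfl⟩, hcc]
      · rw [if_neg (by omega)]
        exact h8 c' (by omega)
  rintro s ⟨h1, h2, h3, h4, h5, h6, h7, h8⟩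
  refine hK s ⟨h1, h2, h3, fun i hi c hc => ?_⟩
  have : i < 3 * j ∨ i = 3 * j ∨ i = 3 * j + 1 ∨ i = 3 * j + 2 := by omega
  rcases this with h | h | h | h
  · exact h4 i h c hc
  · rw [h]; exact h6 c hc
  · rw [h]; exact h7 c hc
  · rw [h]; exact h8 c hc

/-! ### Copying back -/

theorem back_spec {n q ℓ : ℕ} {b : ℕ → ℝ} (Q : ITree → Prop) (r : ℕ → ℕ → ℝ) (s : S0)
    (K : S0 → ITree) (hs : Base n q ℓ b s) (hr : Rows 50 q r s)
    (hK : ∀ s', Base n q ℓ b s' → Rows 10 q r s' → Q (K s')) :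
    Q (exec0 backCmd s K) := by
  refine loop_det Q 4 (ctr 1) _ q (fun j s => Base n q ℓ b s ∧ Rows 50 q r s ∧ Rows 10 j r s)
    ?_ s K hs.c1 ⟨hs, hr, fun i hi => by omega⟩ (fun s' h => hK s' h.1 h.2.2)
  rintro j hj s K ⟨h1, h2, h3⟩ hK
  refine rng_det Q _ 18 (fun c s => Base n q ℓ b s ∧ Rows 50 q r s ∧ Rows 10 j r s ∧
    s.ctr 4 = j ∧ ∀ c' < c, s.cell (10 + c') j = r j c') ?_ _ K
    ⟨h1.setCtr 4 j (by norm_num), h2, h3, by rw [S0.ctr_setCtr]; simp, fun c' h => by omega⟩ ?_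
  · rintro c hc s K ⟨h1, h2, h3, h4, h5⟩ hK
    simp only [exec0, NExp.eval, h4]
    rw [h2 j hj c hc]
    refine hK _ ⟨h1.put _ _ _ (by omega), h2.put _ _ _ (by omega), ?_, h4, ?_⟩
    · intro i hi c' hc'
      rw [S0.cell_put, if_neg (by omega)]
      exact h3 i hi c' hc'
    · intro c' hc'
      rw [S0.cell_put]
      by_cases hcc : c' = c
      · rw [if_pos ⟨by omega, rfl⟩, hcc]
      · rw [if_neg (by omega)]
        exact h5 c' (by omega)
  · rintro s' ⟨h1, h2, h3, h4, h5⟩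
    refine hK s' ⟨h1, h2, fun i hi c hc => ?_⟩
    rcases Nat.lt_succ_iff_lt_or_eq.1 hi with h | h
    · exact h3 i h c hc
    · rw [h]; exact h5 c hc

end AIP
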