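import Pool.Agent.AIP.Prog

/-!
# The random combinations and the level step
-/

namespace AIP

open NExp Cmd

/-- The row `i` of the arrays `A, …`. -/
def row (s : S0) (A i : ℕ) : ℕ → ℝ := fun c => s.cell (A + c) i

theorem addRow (Q : ITree → Prop) (s : S0) (K : S0 → ITree) (j idx : ℕ) (h5 : s.ctr 5 = j)
    (h4 : s.ctr 4 = idx)
    (hK : ∀ s', s'.ctr = s.ctr → (∀ A i, s'.cell A i =
      if 50 ≤ A ∧ A < 68 ∧ i = j then s.cell A i + s.cell (A + 20) idx else s.cell A i) →
      Q (K s')) :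
    Q (exec0 (rng 18 fun c => add (50 + c) (ctr 5) (50 + c) (ctr 5) (70 + c) (ctr 4)) s K) := by
  refine rng_det Q _ 18 (fun c s' => s'.ctr = s.ctr ∧ ∀ A i, s'.cell A i =
      if 50 ≤ A ∧ A < 50 + c ∧ i = j then s.cell A i + s.cell (A + 20) idx else s.cell A i)
    ?_ s K ⟨rfl, fun A i => by rw [if_neg (by omega)]⟩ (fun s' h => hK s' h.1 h.2)
  rintro c hc s' K ⟨h1, h2⟩ hK
  simp only [exec0, NExp.eval, h1, h5, h4]
  refine hK _ ⟨h1, fun A i => ?_⟩
  rw [S0.cell_put]
  by_cases hA : A = 50 + c ∧ i = j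
  · obtain ⟨hA1, hA2⟩ := hA
    subst hA1 hA2
    rw [if_pos ⟨rfl, rfl⟩, if_pos (by omega), h2, h2, if_neg (by omega), if_neg (by omega)]
    congr 2
    omega
  · rw [if_neg hA, h2]
    by_cases hB : 50 ≤ A ∧ A < 50 + c ∧ i = j
    · rw [if_pos hB, if_pos (by omega)]
    · rw [if_neg hB, if_neg (by omega)]

/-- Effect of the coin `v` (`0` or `1`) on the state. -/
def CoinEff (v : ℕ) (j idx : ℕ) (s s' : S0) : Prop :=
  (∀ i, i ≠ 6 → s'.ctr i = s.ctr i) ∧
  ∀ A i, A ≠ 2 → A ≠ 3 → s'.cell A i =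
    if 50 ≤ A ∧ A < 68 ∧ i = j ∧ v = 1 then s.cell A i + s.cell (A + 20) idx else s.cell A i

theorem coin_W (s : S0) (K : S0 → ITree) (j idx : ℕ) (h5 : s.ctr 5 = j) (h4 : s.ctr 4 = idx)
    (hK : ∀ v s', CoinEff v j idx s s' → W (K s')) : W (exec0 coinCmd s K) := by
  have e : exec0 coinCmd s K = .coin
      (.ask ((0 : ℕ) : ℝ) (fun p => K ((((s.setCtr 6 0).put 2 0 ((0 : ℕ) : ℝ))).put 3 1 p)))
      (.ask ((1 : ℕ) : ℝ) (fun p => exec0
        (rng 18 fun c => add (50 + c) (ctr 5) (50 + c) (ctr 5) (70 + c) (ctr 4))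
        ((((s.setCtr 6 1).put 2 0 ((1 : ℕ) : ℝ))).put 3 1 p) K)) := by
    simp [coinCmd, exec0, NExp.eval, S0.ctr_setCtr, S0.cell_put]
  rw [e]
  refine W_reveal _ _ (by norm_num) _ _ 0 0 ?_ ?_
  · refine hK 0 _ ⟨fun i hi => ?_, fun A i h2 h3 => ?_⟩
    · simp only [S0.ctr_put]
      rw [S0.ctr_setCtr, if_neg hi]
    · rw [S0.cell_put, S0.cell_put, if_neg (by omega), if_neg (by omega), if_neg (by omega)]
      rfl
  · refine addRow W _ K j idx ?_ ?_ ?_
    · simp only [S0.ctr_put]
      rw [S0.ctr_setCtr, if_neg (by norm_num)]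
      exact h5
    · simp only [S0.ctr_put]
      rw [S0.ctr_setCtr, if_neg (by norm_num)]
      exact h4
    · intro s' g1 g2
      refine hK 1 s' ⟨fun i hi => ?_, fun A i h2 h3 => ?_⟩
      · rw [g1]
        simp only [S0.ctr_put]
        rw [S0.ctr_setCtr, if_neg hi]
      · by_cases hA : 50 ≤ A ∧ A < 68 ∧ i = j
        · rw [g2, if_pos hA, if_pos ⟨hA.1, hA.2.1, hA.2.2, rfl⟩]
          rw [S0.cell_put, if_neg (by omega), S0.cell_put, if_neg (by omega), S0.cell_put,
            if_neg (by omega), S0.cell_put, if_neg (by omega)]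
          rfl
        · rw [g2, if_neg hA, if_neg (fun h => hA ⟨h.1, h.2.1, h.2.2.1⟩)]
          rw [S0.cell_put, if_neg (by omega), S0.cell_put, if_neg (by omega)]
          rfl

theorem coin_B (s : S0) (K : S0 → ITree) (j idx : ℕ) (h5 : s.ctr 5 = j) (h4 : s.ctr 4 = idx)
    (ε₀ ε₁ : ℝ) (hK₀ : ∀ s', CoinEff 0 j idx s s' → B ε₀ (K s'))
    (hK₁ : ∀ s', CoinEff 1 j idx s s' → B ε₁ (K s')) :
    B ((ε₀ + ε₁) / 2) (exec0 coinCmd s K) := by
  have e : exec0 coinCmd s K = .coin
      (.ask ((0 : ℕ) : ℝ) (fun p => K ((((s.setCtr 6 0).put 2 0 ((0 : ℕ) : ℝ))).put 3 1 p)))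
      (.ask ((1 : ℕ) : ℝ) (fun p => exec0
        (rng 18 fun c => add (50 + c) (ctr 5) (50 + c) (ctr 5) (70 + c) (ctr 4))
        ((((s.setCtr 6 1).put 2 0 ((1 : ℕ) : ℝ))).put 3 1 p) K)) := by
    simp [coinCmd, exec0, NExp.eval, S0.ctr_setCtr, S0.cell_put]
  rw [e]
  refine B_coin _ _ _ _ (B_ask _ _ _ fun p => ?_) (B_ask _ _ _ fun p => ?_)
  · refine hK₀ _ ⟨fun i hi => ?_, fun A i h2 h3 => ?_⟩
    · simp only [S0.ctr_put]
      rw [S0.ctr_setCtr, if_neg hi]
    · rw [S0.cell_put, S0.cell_put, if_neg (by omega), if_neg (by omega), if_neg (by omega)]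
      rfl
  · refine addRow (B ε₁) _ K j idx ?_ ?_ ?_
    · simp only [S0.ctr_put]
      rw [S0.ctr_setCtr, if_neg (by norm_num)]
      exact h5
    · simp only [S0.ctr_put]
      rw [S0.ctr_setCtr, if_neg (by norm_num)]
      exact h4
    · intro s' g1 g2
      refine hK₁ s' ⟨fun i hi => ?_, fun A i h2 h3 => ?_⟩
      · rw [g1]
        simp only [S0.ctr_put]
        rw [S0.ctr_setCtr, if_neg hi]
      · by_cases hA : 50 ≤ A ∧ A < 68 ∧ i = j
        · rw [g2, if_pos hA, if_pos ⟨hA.1, hA.2.1, hA.2.2, rfl⟩]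
          rw [S0.cell_put, if_neg (by omega), S0.cell_put, if_neg (by omega), S0.cell_put,
            if_neg (by omega), S0.cell_put, if_neg (by omega)]
          rfl
        · rw [g2, if_neg hA, if_neg (fun h => hA ⟨h.1, h.2.1, h.2.2.1⟩)]
          rw [S0.cell_put, if_neg (by omega), S0.cell_put, if_neg (by omega)]
          rfl

section

variable {n q ℓ : ℕ} {b : ℕ → ℝ} {g : ℕ → ℕ → ℝ} {j idx v : ℕ} {s s' : S0}

theorem CoinEff.base (h : CoinEff v j idx s s') (hs : Base n q ℓ b s) : Base n q ℓ b s' :=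
  ⟨by rw [h.1 0 (by norm_num)]; exact hs.c0, by rw [h.1 1 (by norm_num)]; exact hs.c1,
    by rw [h.1 2 (by norm_num)]; exact hs.c2, fun e he => by
      rw [h.2 1 e (by norm_num) (by norm_num), if_neg (by omega)]; exact hs.hb e he⟩

theorem CoinEff.rows {N : ℕ} (h : CoinEff v j idx s s') (hs : Rows 70 N g s) : Rows 70 N g s' := by
  intro i hi c hc
  rw [h.2 _ _ (by omega) (by omega), if_neg (by omega)]
  exact hs i hi c hc

theorem CoinEff.other (h : CoinEff v j idx s s') (i : ℕ) (hi : i ≠ j) (c : ℕ) :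
    row s' 50 i c = row s 50 i c := by
  simp only [row]
  rw [h.2 _ _ (by omega) (by omega), if_neg (by omega)]

theorem CoinEff.same (h : CoinEff 0 j idx s s') (c : ℕ) :
    row s' 50 j c = row s 50 j c := by
  simp only [row]
  rw [h.2 _ _ (by omega) (by omega), if_neg (by omega)]

theorem CoinEff.plus {N : ℕ} (h : CoinEff 1 j idx s s') (hs : Rows 70 N g s) (hidx : idx < N)
    (c : ℕ) (hc : c < 18) : row s' 50 j c = row s 50 j c + g idx c := by
  simp only [row]
  rw [h.2 _ _ (by omega) (by omega), if_pos (by omega), ← hs idx hidx c hc]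
  congr 2
  omega

theorem CoinEff.ne (h : CoinEff v j idx s s') (hv : v ≠ 1) (c : ℕ) :
    row s' 50 j c = row s 50 j c := by
  simp only [row]
  rw [h.2 _ _ (by omega) (by omega), if_neg (by omega)]

end

/-- Setting a row to zero. -/
theorem zeroRow (Q : ITree → Prop) (s : S0) (K : S0 → ITree) (j : ℕ) (h5 : s.ctr 5 = j)
    (hK : ∀ s', s'.ctr = s.ctr → (∀ A i, s'.cell A i =
      if 50 ≤ A ∧ A < 68 ∧ i = j then 0 else s.cell A i) → Q (K s')) :
    Q (exec0 (rng 18 fun c => sub (50 + c) (ctr 5) 2 (lit 0) 2 (lit 0)) s K) := by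
  refine rng_det Q _ 18 (fun c s' => s'.ctr = s.ctr ∧ ∀ A i, s'.cell A i =
      if 50 ≤ A ∧ A < 50 + c ∧ i = j then 0 else s.cell A i)
    ?_ s K ⟨rfl, fun A i => by rw [if_neg (by omega)]⟩ (fun s' h => hK s' h.1 h.2)
  rintro c hc s' K ⟨h1, h2⟩ hK
  simp only [exec0, NExp.eval, h1, h5, sub_self]
  refine hK _ ⟨h1, fun A i => ?_⟩
  rw [S0.cell_put]
  by_cases hA : A = 50 + c ∧ i = j
  · rw [if_pos hA, if_pos (by omega)]
  · rw [if_neg hA, h2]
    by_cases hB : 50 ≤ A ∧ A < 50 + c ∧ i = j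
    · rw [if_pos hB, if_pos (by omega)]
    · rw [if_neg hB, if_neg (by omega)]

theorem rand_W {n q ℓ : ℕ} {b : ℕ → ℝ} (m S : ℕ) (g : ℕ → ℕ → ℝ) (s : S0) (K : S0 → ITree)
    (hs : Base n q ℓ b s) (hg : Rows 70 (3 * q) g s) (hgood : ∀ idx < 3 * q, WG m S b (g idx))
    (hK : ∀ s', Base n q ℓ b s' → (∀ i < q, WG m (3 * q * S) b (row s' 50 i)) → W (K s')) :
    W (exec0 randCmd s K) := by
  refine loop_det W 5 (ctr 1) _ q (fun j s => Base n q ℓ b s ∧ Rows 70 (3 * q) g s ∧
    ∀ i < j, WG m (3 * q * S) b (row s 50 i)) ?_ s K hs.c1 ⟨hs, hg, fun i hi => by omega⟩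
    (fun s' h => hK s' h.1 h.2.2)
  rintro j hj s K ⟨h1, h2, h3⟩ hK
  simp only [exec0]
  refine zeroRow W _ _ j (by rw [S0.ctr_setCtr]; simp) ?_
  intro s₁ e1 e2
  have b1 : Base n q ℓ b s₁ := by
    have hh := h1.setCtr 5 j (by norm_num)
    refine ⟨by rw [e1]; exact hh.c0, by rw [e1]; exact hh.c1, by rw [e1]; exact hh.c2,
      fun e he => ?_⟩
    rw [e2, if_neg (by omega)]
    exact hh.hb e he
  refine loop_det W 4 (three (ctr 1)) _ (3 * q) (fun idx s => Base n q ℓ b s ∧
    Rows 70 (3 * q) g s ∧ (∀ i < j, WG m (3 * q * S) b (row s 50 i)) ∧ s.ctr 5 = j ∧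
    WG m (idx * S) b (row s 50 j)) ?_ s₁ K (by simp [three_eval, NExp.eval, b1.c1]) ⟨b1, ?_, ?_, ?_, ?_⟩ ?_
  · rintro idx hidx s K ⟨k1, k2, k3, k4, k5⟩ hK
    refine coin_W _ K j idx (by rw [S0.ctr_setCtr, if_neg (by norm_num)]; exact k4)
      (by rw [S0.ctr_setCtr]; simp) ?_
    intro v s' he
    have kb : Base n q ℓ b (s.setCtr 4 idx) := k1.setCtr 4 idx (by norm_num)
    have kr : Rows 70 (3 * q) g (s.setCtr 4 idx) := k2
    refine hK s' ⟨he.base kb, he.rows kr, ?_, ?_, ?_⟩
    · intro i hi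
      refine (WG_congr fun c _ => ?_).2 (k3 i hi)
      rw [he.other i (by omega) c]
      rfl
    · rw [he.1 5 (by norm_num), S0.ctr_setCtr, if_neg (by norm_num)]
      exact k4
    · by_cases hv : v = 1
      · subst hv
        have h6 : WG m ((idx + 1) * S) b (fun c => row s 50 j c + g idx c) := by
          have := WG_add k5 (hgood idx hidx)
          rwa [show (idx + 1) * S = idx * S + S by ring]
        refine (WG_congr fun c hc => ?_).2 h6
        rw [he.plus kr hidx c hc]
        rfl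
      · refine (WG_congr fun c hc => ?_).2 (WG_mono k5 (Nat.mul_le_mul_right _ (Nat.le_succ _)))
        rw [he.ne hv c]
        rfl
  · intro i hi c hc
    rw [e2, if_neg (by omega)]
    exact h2 i hi c hc
  · intro i hi
    refine (WG_congr fun c hc => ?_).2 (h3 i hi)
    simp only [row]
    rw [e2, if_neg (by omega)]
    rfl
  · rw [e1, S0.ctr_setCtr]; simp
  · refine (WG_congr fun c hc => ?_).2 (WG_zero m _ b)
    simp only [row]
    rw [e2, if_pos (by omega)]
  · rintro s' ⟨k1, k2, k3, k4, k5⟩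
    refine hK s' ⟨k1, k2, fun i hi => ?_⟩
    rcases Nat.lt_succ_iff_lt_or_eq.1 hi with h | h
    · exact k3 i h
    · rw [h]; exact k5

open scoped Classical in
theorem rand_B {n q ℓ : ℕ} {b : ℕ → ℝ} (m : ℕ) (g : ℕ → ℕ → ℝ) (ε : ℝ) (hε : 0 ≤ ε) (s : S0)
    (K : S0 → ITree) (hs : Base n q ℓ b s) (hg : Rows 70 (3 * q) g s)
    (hbad : ∃ idx < 3 * q, ¬ InG m b (g idx))
    (hK : ∀ s', Base n q ℓ b s' → (∃ i < q, ¬ InG m b (row s' 50 i)) → B ε (K s')) :
    B (1 / 2 ^ q + ε) (exec0 randCmd s K) := by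
  -- the bound before the row `j`
  let val : ℕ → S0 → ℝ := fun j s => ε + if (∀ i < j, InG m b (row s 50 i)) then
    1 / 2 ^ (q - j) else 0
  have h0 : val 0 s = 1 / 2 ^ q + ε := by
    simp only [val]
    rw [if_pos (fun i hi => by omega)]
    simp only [Nat.sub_zero]
    ring
  rw [← h0]
  refine loop_rule 5 (ctr 1) _ q (fun j s => Base n q ℓ b s ∧ Rows 70 (3 * q) g s)
    (fun j s t => B (val j s) t) ?_ s K hs.c1 ⟨hs, hg⟩ ?_
  · rintro j hj s K ⟨h1, h2⟩ hK
    simp only [exec0]
    refine zeroRow (B (val j s)) _ _ j (by rw [S0.ctr_setCtr]; simp) ?_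
    intro s₁ e1 e2
    have b1 : Base n q ℓ b s₁ := by
      have hh := h1.setCtr 5 j (by norm_num)
      refine ⟨by rw [e1]; exact hh.c0, by rw [e1]; exact hh.c1, by rw [e1]; exact hh.c2,
        fun e he => ?_⟩
      rw [e2, if_neg (by omega)]
      exact hh.hb e he
    have r1 : Rows 70 (3 * q) g s₁ := by
      intro i hi c hc
      rw [e2, if_neg (by omega)]
      exact h2 i hi c hc
    -- the bound inside the row
    let A : S0 → Prop := fun s => ∀ i < j, InG m b (row s 50 i)
    let eg : S0 → ℝ := fun s => ε + if A s then 1 / 2 ^ (q - (j + 1)) else 0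
    let val2 : ℕ → S0 → ℝ := fun idx s =>
      if (∃ idx', idx ≤ idx' ∧ idx' < 3 * q ∧ ¬ InG m b (g idx')) then (eg s + ε) / 2
      else if InG m b (row s 50 j) then eg s else ε
    have heg : ∀ s, ε ≤ eg s := by
      intro s
      simp only [eg]
      split_ifs
      · have : (0 : ℝ) ≤ 1 / 2 ^ (q - (j + 1)) := by positivity
        linarith
      · linarith
    have hA1 : A s₁ ↔ A s := by
      refine forall_congr' fun i => forall_congr' fun hi => ?_
      refine InG_congr fun c hc => ?_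
      simp only [row]
      rw [e2, if_neg (by omega)]
      rfl
    have hv0 : val2 0 s₁ ≤ val j s := by
      obtain ⟨idx, hidx, hb⟩ := hbad
      simp only [val2, val]
      rw [if_pos ⟨idx, Nat.zero_le _, hidx, hb⟩]
      simp only [eg]
      by_cases hA : A s
      · rw [if_pos (hA1.2 hA), if_pos hA]
        have : (1 : ℝ) / 2 ^ (q - j) = 1 / 2 ^ (q - (j + 1)) / 2 := by
          rw [show q - j = (q - (j + 1)) + 1 by omega, pow_succ]
          field_simp
        rw [this]
        linarith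
      · rw [if_neg (fun h => hA (hA1.1 h)), if_neg hA]
        linarith
    refine B_mono hv0 ?_
    refine loop_rule 4 (three (ctr 1)) _ (3 * q) (fun idx s => Base n q ℓ b s ∧
      Rows 70 (3 * q) g s ∧ s.ctr 5 = j) (fun idx s t => B (val2 idx s) t) ?_ s₁ K
      (by simp [three_eval, NExp.eval, b1.c1]) ⟨b1, r1, ?_⟩ ?_
    · rintro idx hidx s K ⟨k1, k2, k4⟩ hK
      have kb : Base n q ℓ b (s.setCtr 4 idx) := k1.setCtr 4 idx (by norm_num)
      have kr : Rows 70 (3 * q) g (s.setCtr 4 idx) := k2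
      -- the values after the coin
      have hAe : ∀ v s', CoinEff v j idx (s.setCtr 4 idx) s' → (A s' ↔ A s) := by
        intro v s' he
        refine forall_congr' fun i => forall_congr' fun hi => ?_
        refine InG_congr fun c hc => ?_
        rw [he.other i (by omega) c]
        rfl
      have hege : ∀ v s', CoinEff v j idx (s.setCtr 4 idx) s' → eg s' = eg s := by
        intro v s' he
        simp only [eg, hAe v s' he]
      let ε₀ : ℝ := if (∃ idx', idx + 1 ≤ idx' ∧ idx' < 3 * q ∧ ¬ InG m b (g idx')) then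
        (eg s + ε) / 2 else if InG m b (row s 50 j) then eg s else ε
      let ε₁ : ℝ := if (∃ idx', idx + 1 ≤ idx' ∧ idx' < 3 * q ∧ ¬ InG m b (g idx')) then
        (eg s + ε) / 2 else if InG m b (fun c => row s 50 j c + g idx c) then eg s else ε
      have hfin : (ε₀ + ε₁) / 2 ≤ val2 idx s := by
        simp only [ε₀, ε₁, val2]
        by_cases hlater : ∃ idx', idx + 1 ≤ idx' ∧ idx' < 3 * q ∧ ¬ InG m b (g idx')
        · have hnow : ∃ idx', idx ≤ idx' ∧ idx' < 3 * q ∧ ¬ InG m b (g idx') := by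
            obtain ⟨i, h1, h2, h3⟩ := hlater
            exact ⟨i, by omega, h2, h3⟩
          rw [if_pos hlater, if_pos hlater, if_pos hnow]
          linarith
        · rw [if_neg hlater, if_neg hlater]
          by_cases hgi : InG m b (g idx)
          · have hnow : ¬ ∃ idx', idx ≤ idx' ∧ idx' < 3 * q ∧ ¬ InG m b (g idx') := by
              rintro ⟨i, h1, h2, h3⟩
              rcases Nat.eq_or_lt_of_le h1 with h | h
              · exact h3 (h ▸ hgi)
              · exact hlater ⟨i, by omega, h2, h3⟩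
            rw [if_neg hnow]
            have := InG_add_iff (g := row s 50 j) hgi
            simp only [this]
            linarith
          · have hnow : ∃ idx', idx ≤ idx' ∧ idx' < 3 * q ∧ ¬ InG m b (g idx') :=
              ⟨idx, le_rfl, hidx, hgi⟩
            rw [if_pos hnow]
            have hle := heg s
            by_cases ha : InG m b (row s 50 j)
            · rw [if_pos ha, if_neg (fun h => not_both hgi ha h)]
            · rw [if_neg ha]
              split_ifs <;> linarith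
      refine B_mono hfin ?_
      refine coin_B _ K j idx (by rw [S0.ctr_setCtr, if_neg (by norm_num)]; exact k4)
        (by rw [S0.ctr_setCtr]; simp) ε₀ ε₁ ?_ ?_
      · intro s' he
        have := hK s' ⟨he.base kb, he.rows kr, by
          rw [he.1 5 (by norm_num), S0.ctr_setCtr, if_neg (by norm_num)]; exact k4⟩
        have h6 : InG m b (row s' 50 j) ↔ InG m b (row s 50 j) :=
          InG_congr fun c hc => by rw [he.same c]; rfl
        simp only [val2, hege 0 s' he, h6] at this
        exact this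
      · intro s' he
        have := hK s' ⟨he.base kb, he.rows kr, by
          rw [he.1 5 (by norm_num), S0.ctr_setCtr, if_neg (by norm_num)]; exact k4⟩
        have h6 : InG m b (row s' 50 j) ↔ InG m b (fun c => row s 50 j c + g idx c) :=
          InG_congr fun c hc => by rw [he.plus kr hidx c hc]; rfl
        simp only [val2, hege 1 s' he, h6] at this
        exact this
    · rw [e1, S0.ctr_setCtr]; simp
    · rintro s' ⟨k1, k2, k4⟩
      have hnone : ¬ ∃ idx', 3 * q ≤ idx' ∧ idx' < 3 * q ∧ ¬ InG m b (g idx') := by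
        rintro ⟨i, h1, h2, -⟩
        omega
      simp only [val2]
      rw [if_neg hnone]
      have := hK s' ⟨k1, k2⟩
      refine B_mono ?_ this
      simp only [val, eg]
      by_cases hrow : InG m b (row s' 50 j)
      · rw [if_pos hrow]
        by_cases hA : A s'
        · rw [if_pos hA]
          split_ifs
          · exact le_rfl
          · have : (0 : ℝ) ≤ 1 / 2 ^ (q - (j + 1)) := by positivity
            linarith
        · rw [if_neg hA, if_neg]
          intro h
          exact hA fun i hi => h i (by omega)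
      · rw [if_neg hrow, if_neg]
        · linarith
        · intro h
          exact hrow (h j (by omega))
  · rintro s' ⟨k1, k2⟩
    simp only [val]
    by_cases hall : ∀ i < q, InG m b (row s' 50 i)
    · rw [if_pos hall]
      refine B_mono ?_ (B_one _)
      simp only [Nat.sub_self, pow_zero]
      linarith
    · rw [if_neg hall, add_zero]
      push Not at hall
      exact hK s' k1 hall

end AIP
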