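import Pool.Agent.AIP.Machine
import Pool.Agent.AIP.Lower

/-!
# Symbolic execution: from programs to trees
-/

namespace AIP

open MvPolynomial

variable {n : ℕ}

/-! ### Operations on forms -/

/-- A polynomial in the input as a form. -/
noncomputable def fPoly (p : MvPolynomial (Fin n) ℝ) : AForm n := ⟨0, p⟩

/-- The message `k`. -/
noncomputable def fMsg (k : ℕ) : AForm n := ⟨Finsupp.single k 1, 0⟩

/-- Sum of forms. -/
noncomputable def fAdd (φ ψ : AForm n) : AForm n := ⟨φ.coef + ψ.coef, φ.const + ψ.const⟩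

/-- Multiple of a form. -/
noncomputable def fScale (p : MvPolynomial (Fin n) ℝ) (φ : AForm n) : AForm n :=
  ⟨φ.coef.mapRange (fun c => p * c) (by simp), p * φ.const⟩

theorem fPoly_val (p : MvPolynomial (Fin n) ℝ) (x : Fin n → ℝ) (s : ℕ → ℝ) :
    (fPoly p).val x s = eval x p := by
  simp [fPoly, AForm.val]

theorem fMsg_val (k : ℕ) (x : Fin n → ℝ) (s : ℕ → ℝ) : (fMsg k : AForm n).val x s = s k := by
  simp [fMsg, AForm.val]

theorem fAdd_val (φ ψ : AForm n) (x : Fin n → ℝ) (s : ℕ → ℝ) :
    (fAdd φ ψ).val x s = φ.val x s + ψ.val x s := by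
  unfold AForm.val fAdd
  rw [Finsupp.sum_add_index']
  · simp only [map_add]; ring
  · intro i; simp
  · intro i a b; simp only [map_add]; ring

theorem fScale_val (p : MvPolynomial (Fin n) ℝ) (φ : AForm n) (x : Fin n → ℝ) (s : ℕ → ℝ) :
    (fScale p φ).val x s = eval x p * φ.val x s := by
  unfold AForm.val fScale
  rw [Finsupp.sum_mapRange_index (by intro i; simp), mul_add, Finsupp.mul_sum]
  congr 1
  · refine Finsupp.sum_congr fun i _ => ?_
    simp only [map_mul]; ring
  · simp

theorem val_congr (φ : AForm n) (x : Fin n → ℝ) (k : ℕ) (h : ∀ j, k ≤ j → φ.coef j = 0)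
    (s s' : ℕ → ℝ) (hs : ∀ j < k, s' j = s j) : φ.val x s' = φ.val x s := by
  unfold AForm.val
  congr 1
  refine Finsupp.sum_congr fun i hi => ?_
  have : i < k := by
    by_contra hcon
    exact (Finsupp.mem_support_iff.1 hi) (h i (by omega))
  rw [hs i this]

theorem fPoly_deg (p : MvPolynomial (Fin n) ℝ) (d : ℕ) (h : p.totalDegree ≤ d) :
    (fPoly p).DegLE d := ⟨fun i => by simp [fPoly], h⟩

theorem fMsg_deg (k d : ℕ) : (fMsg k : AForm n).DegLE d := by
  refine ⟨fun i => ?_, by simp [fMsg]⟩
  by_cases h : k = i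
  · subst h; simp [fMsg]
  · simp [fMsg, Finsupp.single_apply, h]

theorem fAdd_deg (φ ψ : AForm n) (d : ℕ) (h : φ.DegLE d) (h' : ψ.DegLE d) :
    (fAdd φ ψ).DegLE d :=
  ⟨fun i => (totalDegree_add _ _).trans (max_le (h.1 i) (h'.1 i)),
    (totalDegree_add _ _).trans (max_le h.2 h'.2)⟩

theorem fScale_deg (p : MvPolynomial (Fin n) ℝ) (φ : AForm n) (d : ℕ) (h : p.totalDegree ≤ d)
    (h' : φ.DegLE d) : (fScale p φ).DegLE (d + d) := by
  refine ⟨fun i => ?_, (totalDegree_mul _ _).trans (Nat.add_le_add h h'.2)⟩
  simp only [fScale, Finsupp.mapRange_apply]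
  exact (totalDegree_mul _ _).trans (Nat.add_le_add h (h'.1 i))

/-! ### Symbolic execution -/

/-- Symbolic trees. -/
inductive STree (n : ℕ) : Type
  | halt (b : Bool) : STree n
  | tick (t : STree n) : STree n
  | coin (t u : STree n) : STree n
  | sgn (f : MvPolynomial (Fin n) ℝ) (t u : STree n) : STree n
  | test (φ : AForm n) (t u : STree n) : STree n
  | round (φ : AForm n) (t : STree n) : STree n

/-- Symbolic states. -/
structure SSt (n : ℕ) : Type where
  /-- the counters -/
  ctr : ℕ → ℕ
  /-- the real cells -/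
  cell : ℕ → ℕ → AForm n
  /-- the tags -/
  tag : ℕ → ℕ → Bool
  /-- the number of messages received -/
  k : ℕ

/-- Set a counter. -/
def SSt.setCtr (s : SSt n) (i v : ℕ) : SSt n :=
  { s with ctr := Function.update s.ctr i v }

/-- Set a cell. -/
noncomputable def SSt.put (s : SSt n) (A i : ℕ) (v : AForm n) (t : Bool) : SSt n :=
  { s with
    cell := Function.update s.cell A (Function.update (s.cell A) i v)
    tag := Function.update s.tag A (Function.update (s.tag A) i t) }

/-- Symbolic loops. -/
def siter (F : SSt n → (SSt n → STree n) → STree n) (i : ℕ) :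
    ℕ → ℕ → (SSt n → STree n) → SSt n → STree n
  | 0, _, K, s => K s
  | r + 1, j, K, s => .tick (F (s.setCtr i j) (fun s' => siter F i r (j + 1) K s'))

/-- Symbolic execution. -/
noncomputable def sexec : Cmd → SSt n → (SSt n → STree n) → STree n
  | .skip, s, K => .tick (K s)
  | .halt b, _, _ => .halt b
  | .seq a b, s, K => sexec a s (fun s' => sexec b s' K)
  | .set i e, s, K => .tick (K (s.setCtr i (e.eval s.ctr)))
  | .const A e r, s, K => .tick (K (s.put A (e.eval s.ctr) (fPoly (C r)) false))
  | .nat A e f, s, K => .tick (K (s.put A (e.eval s.ctr)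
      (fPoly (C ((f.eval s.ctr : ℕ) : ℝ))) false))
  | .copy A e B f, s, K => .tick (K (s.put A (e.eval s.ctr)
      (s.cell B (f.eval s.ctr)) (s.tag B (f.eval s.ctr))))
  | .add A e B f C' g, s, K => .tick (K (s.put A (e.eval s.ctr)
      (fAdd (s.cell B (f.eval s.ctr)) (s.cell C' (g.eval s.ctr)))
      (s.tag B (f.eval s.ctr) || s.tag C' (g.eval s.ctr))))
  | .sub A e B f C' g, s, K => .tick (K (s.put A (e.eval s.ctr)
      (fAdd (s.cell B (f.eval s.ctr)) (fScale (C (-1)) (s.cell C' (g.eval s.ctr))))
      (s.tag B (f.eval s.ctr) || s.tag C' (g.eval s.ctr))))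
  | .mul A e B f C' g, s, K =>
      if s.tag B (f.eval s.ctr) && s.tag C' (g.eval s.ctr) then .halt false
      else .tick (K (s.put A (e.eval s.ctr)
        (if s.tag B (f.eval s.ctr) then
          fScale (s.cell C' (g.eval s.ctr)).const (s.cell B (f.eval s.ctr))
        else fScale (s.cell B (f.eval s.ctr)).const (s.cell C' (g.eval s.ctr)))
        (s.tag B (f.eval s.ctr) || s.tag C' (g.eval s.ctr))))
  | .ifle e f a b, s, K =>
      .tick (if e.eval s.ctr ≤ f.eval s.ctr then sexec a s K else sexec b s K)
  | .ifzero A e a b, s, K => .test (s.cell A (e.eval s.ctr)) (sexec a s K) (sexec b s K)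
  | .ifnonneg A e a b, s, K =>
      if s.tag A (e.eval s.ctr) then .halt false
      else .sgn (s.cell A (e.eval s.ctr)).const (sexec a s K) (sexec b s K)
  | .flip i, s, K => .coin (K (s.setCtr i 0)) (K (s.setCtr i 1))
  | .ask A e B f, s, K => .round (s.cell A (e.eval s.ctr))
      (K { s.put B (f.eval s.ctr) (fMsg s.k) true with k := s.k + 1 })
  | .loop i e a, s, K => .tick (siter (sexec a) i (e.eval s.ctr) 0 K s)

/-- The computation described by a symbolic tree. -/
noncomputable def inst (x : Fin n → ℝ) : STree n → ℕ → (ℕ → ℝ) → ITree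
  | .halt b, _, _ => .halt b
  | .tick t, k, s => .tick (inst x t k s)
  | .coin t u, k, s => .coin (inst x t k s) (inst x u k s)
  | .sgn f t u, k, s => .tick (open scoped Classical in
      if 0 ≤ eval x f then inst x t k s else inst x u k s)
  | .test φ t u, k, s => .tick (open scoped Classical in
      if φ.val x s = 0 then inst x t k s else inst x u k s)
  | .round φ t, k, s => .ask (φ.val x s) (fun p => inst x t (k + 1) (Function.update s k p))

/-- The state described by a symbolic state. -/
noncomputable def instSt (x : Fin n → ℝ) (σ : SSt n) (s : ℕ → ℝ) : St where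
  ctr := σ.ctr
  cell := fun A i => (σ.cell A i).val x s
  tag := σ.tag

/-- Well formed symbolic states. -/
def WF (σ : SSt n) : Prop := ∀ A i, (σ.tag A i = false → (σ.cell A i).coef = 0) ∧
  ∀ j, σ.k ≤ j → (σ.cell A i).coef j = 0

theorem instSt_put (x : Fin n → ℝ) (σ : SSt n) (s : ℕ → ℝ) (A i : ℕ) (φ : AForm n) (t : Bool) :
    instSt x (σ.put A i φ t) s = (instSt x σ s).put A i (φ.val x s) t := by
  unfold instSt SSt.put St.put
  congr 1
  ext A' i'
  by_cases hA : A' = A
  · subst hA
    by_cases hi : i' = i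
    · subst hi; simp
    · simp [Function.update_of_ne hi]
  · simp [Function.update_of_ne hA]

theorem WF_put (σ : SSt n) (h : WF σ) (A i : ℕ) (φ : AForm n) (t : Bool)
    (h1 : t = false → φ.coef = 0) (h2 : ∀ j, σ.k ≤ j → φ.coef j = 0) : WF (σ.put A i φ t) := by
  intro A' i'
  simp only [SSt.put]
  by_cases hA : A' = A
  · subst hA
    by_cases hi : i' = i
    · subst hi
      simp only [Function.update_self]
      exact ⟨h1, h2⟩
    · simp only [Function.update_self, Function.update_of_ne hi]
      exact h A' i'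
  · simp only [Function.update_of_ne hA]
    exact h A' i'

theorem WF_setCtr (σ : SSt n) (h : WF σ) (i v : ℕ) : WF (σ.setCtr i v) := h

theorem inst_ite (x : Fin n → ℝ) (p : Prop) [Decidable p] (t u : STree n) (k : ℕ) (s : ℕ → ℝ) :
    inst x (if p then t else u) k s = if p then inst x t k s else inst x u k s := by
  split_ifs <;> rfl

theorem inst_sexec (x : Fin n → ℝ) (c : Cmd) (σ : SSt n) (s : ℕ → ℝ) (K : SSt n → STree n)
    (K' : St → ITree) (hσ : WF σ)
    (hK : ∀ σ' s', WF σ' → inst x (K σ') σ'.k s' = K' (instSt x σ' s')) :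
    inst x (sexec c σ K) σ.k s = exec c (instSt x σ s) K' := by
  induction c generalizing σ s K K' with
  | skip => simp only [sexec, inst, exec]; rw [hK σ s hσ]
  | halt b => rfl
  | seq a b iha ihb =>
    simp only [sexec, exec]
    exact iha σ s _ _ hσ (fun σ' s' h' => ihb σ' s' K K' h' hK)
  | set i e =>
    simp only [sexec, inst, exec]
    have := hK (σ.setCtr i (e.eval σ.ctr)) s (WF_setCtr _ hσ _ _)
    rw [show (σ.setCtr i (e.eval σ.ctr)).k = σ.k from rfl] at this
    rw [this]
    rfl
  | const A e r =>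
    simp only [sexec, inst, exec]
    have := hK (σ.put A (e.eval σ.ctr) (fPoly (C r)) false) s
      (WF_put _ hσ _ _ _ _ (fun _ => rfl) (fun _ _ => rfl))
    rw [show (σ.put A (e.eval σ.ctr) (fPoly (C r)) false).k = σ.k from rfl, instSt_put,
      fPoly_val, eval_C] at this
    rw [this]
    rfl
  | nat A e f =>
    simp only [sexec, inst, exec]
    have := hK (σ.put A (e.eval σ.ctr) (fPoly (C ((f.eval σ.ctr : ℕ) : ℝ))) false) s
      (WF_put _ hσ _ _ _ _ (fun _ => rfl) (fun _ _ => rfl))
    rw [show (σ.put A (e.eval σ.ctr) (fPoly (C ((f.eval σ.ctr : ℕ) : ℝ))) false).k = σ.k from rfl,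
      instSt_put, fPoly_val, eval_C] at this
    rw [this]
    rfl
  | copy A e B f =>
    simp only [sexec, inst, exec]
    have := hK (σ.put A (e.eval σ.ctr) (σ.cell B (f.eval σ.ctr)) (σ.tag B (f.eval σ.ctr))) s
      (WF_put _ hσ _ _ _ _ (hσ _ _).1 (hσ _ _).2)
    rw [show (σ.put A (e.eval σ.ctr) (σ.cell B (f.eval σ.ctr))
      (σ.tag B (f.eval σ.ctr))).k = σ.k from rfl, instSt_put] at this
    rw [this]
    rfl
  | add A e B f C' g =>
    simp only [sexec, inst, exec]
    have := hK (σ.put A (e.eval σ.ctr) (fAdd (σ.cell B (f.eval σ.ctr)) (σ.cell C' (g.eval σ.ctr)))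
      (σ.tag B (f.eval σ.ctr) || σ.tag C' (g.eval σ.ctr))) s
      (WF_put _ hσ _ _ _ _ (fun h => by
        rw [Bool.or_eq_false_iff] at h
        simp [fAdd, (hσ _ _).1 h.1, (hσ _ _).1 h.2]) (fun j hj => by
        simp [fAdd, (hσ _ _).2 j hj]))
    rw [show (σ.put A (e.eval σ.ctr) (fAdd (σ.cell B (f.eval σ.ctr)) (σ.cell C' (g.eval σ.ctr)))
      (σ.tag B (f.eval σ.ctr) || σ.tag C' (g.eval σ.ctr))).k = σ.k from rfl, instSt_put,
      fAdd_val] at this
    rw [this]
    rfl
  | sub A e B f C' g =>
    simp only [sexec, inst, exec]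
    have := hK (σ.put A (e.eval σ.ctr) (fAdd (σ.cell B (f.eval σ.ctr))
      (fScale (C (-1)) (σ.cell C' (g.eval σ.ctr))))
      (σ.tag B (f.eval σ.ctr) || σ.tag C' (g.eval σ.ctr))) s
      (WF_put _ hσ _ _ _ _ (fun h => by
        rw [Bool.or_eq_false_iff] at h
        simp [fAdd, fScale, (hσ _ _).1 h.1, (hσ _ _).1 h.2]) (fun j hj => by
        simp [fAdd, fScale, (hσ _ _).2 j hj]))
    rw [show (σ.put A (e.eval σ.ctr) (fAdd (σ.cell B (f.eval σ.ctr))
      (fScale (C (-1)) (σ.cell C' (g.eval σ.ctr))))
      (σ.tag B (f.eval σ.ctr) || σ.tag C' (g.eval σ.ctr))).k = σ.k from rfl, instSt_put,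
      fAdd_val, fScale_val] at this
    rw [this]
    simp only [eval_C, neg_mul, one_mul, ← sub_eq_add_neg]
    rfl
  | mul A e B f C' g =>
    simp only [sexec, exec]
    have htag : (instSt x σ s).tag = σ.tag := rfl
    have hctr : (instSt x σ s).ctr = σ.ctr := rfl
    rw [htag, hctr]
    by_cases h1 : σ.tag B (f.eval σ.ctr) = true
    · by_cases h2 : σ.tag C' (g.eval σ.ctr) = true
      · simp [h1, h2, inst]
      · have h2' : σ.tag C' (g.eval σ.ctr) = false := by simpa using h2
        simp only [h1, h2', Bool.and_false, Bool.false_eq_true, if_false, if_true, Bool.or_false,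
          inst]
        have := hK (σ.put A (e.eval σ.ctr)
          (fScale (σ.cell C' (g.eval σ.ctr)).const (σ.cell B (f.eval σ.ctr))) true) s
          (WF_put _ hσ _ _ _ _ (fun h => by simp at h) (fun j hj => by
            simp [fScale, (hσ _ _).2 j hj]))
        rw [show (σ.put A (e.eval σ.ctr)
          (fScale (σ.cell C' (g.eval σ.ctr)).const (σ.cell B (f.eval σ.ctr))) true).k = σ.k
          from rfl, instSt_put, fScale_val] at this
        rw [this]
        have h3 : (σ.cell C' (g.eval σ.ctr)).val x s =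
            eval x (σ.cell C' (g.eval σ.ctr)).const := by
          simp [AForm.val, (hσ _ _).1 h2']
        simp only [instSt, h3, mul_comm]
    · have h1' : σ.tag B (f.eval σ.ctr) = false := by simpa using h1
      simp only [h1', Bool.false_and, Bool.false_eq_true, if_false, Bool.false_or, inst]
      have := hK (σ.put A (e.eval σ.ctr)
        (fScale (σ.cell B (f.eval σ.ctr)).const (σ.cell C' (g.eval σ.ctr)))
        (σ.tag C' (g.eval σ.ctr))) s
        (WF_put _ hσ _ _ _ _ (fun h => by simp [fScale, (hσ _ _).1 h]) (fun j hj => by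
          simp [fScale, (hσ _ _).2 j hj]))
      rw [show (σ.put A (e.eval σ.ctr)
        (fScale (σ.cell B (f.eval σ.ctr)).const (σ.cell C' (g.eval σ.ctr)))
        (σ.tag C' (g.eval σ.ctr))).k = σ.k from rfl, instSt_put, fScale_val] at this
      rw [this]
      have h3 : (σ.cell B (f.eval σ.ctr)).val x s =
          eval x (σ.cell B (f.eval σ.ctr)).const := by
        simp [AForm.val, (hσ _ _).1 h1']
      simp only [instSt, h3]
  | ifle e f a b iha ihb =>
    simp only [sexec, inst, exec]
    have hctr : (instSt x σ s).ctr = σ.ctr := rfl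
    rw [hctr]
    split_ifs
    · rw [iha σ s K K' hσ hK]
    · rw [ihb σ s K K' hσ hK]
  | ifzero A e a b iha ihb =>
    simp only [sexec, inst, exec]
    rw [iha σ s K K' hσ hK, ihb σ s K K' hσ hK]
    rfl
  | ifnonneg A e a b iha ihb =>
    simp only [sexec, exec]
    have htag : (instSt x σ s).tag = σ.tag := rfl
    have hctr : (instSt x σ s).ctr = σ.ctr := rfl
    rw [htag, hctr]
    by_cases h1 : σ.tag A (e.eval σ.ctr) = true
    · simp [h1, inst]
    · have h1' : σ.tag A (e.eval σ.ctr) = false := by simpa using h1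
      simp only [h1', Bool.false_eq_true, if_false, inst]
      rw [iha σ s K K' hσ hK, ihb σ s K K' hσ hK]
      have h3 : (σ.cell A (e.eval σ.ctr)).val x s =
          eval x (σ.cell A (e.eval σ.ctr)).const := by
        simp [AForm.val, (hσ _ _).1 h1']
      simp only [instSt, h3]
  | flip i =>
    simp only [sexec, inst, exec]
    have h1 := hK (σ.setCtr i 0) s (WF_setCtr _ hσ _ _)
    have h2 := hK (σ.setCtr i 1) s (WF_setCtr _ hσ _ _)
    rw [show (σ.setCtr i 0).k = σ.k from rfl] at h1
    rw [show (σ.setCtr i 1).k = σ.k from rfl] at h2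
    rw [h1, h2]
    rfl
  | ask A e B f =>
    simp only [sexec, inst, exec]
    have hctr : (instSt x σ s).ctr = σ.ctr := rfl
    rw [hctr]
    congr 1
    funext p
    have hwf : WF ({ σ.put B (f.eval σ.ctr) (fMsg σ.k) true with k := σ.k + 1 } : SSt n) := by
      intro A' i'
      simp only [SSt.put]
      by_cases hA : A' = B
      · subst hA
        by_cases hi : i' = f.eval σ.ctr
        · subst hi
          simp only [Function.update_self]
          refine ⟨fun h => by simp at h, fun j hj => ?_⟩
          have : σ.k ≠ j := by omega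
          simp [fMsg, this]
        · simp only [Function.update_self, Function.update_of_ne hi]
          exact ⟨(hσ A' i').1, fun j hj => (hσ A' i').2 j (by omega)⟩
      · simp only [Function.update_of_ne hA]
        exact ⟨(hσ A' i').1, fun j hj => (hσ A' i').2 j (by omega)⟩
    have := hK _ (Function.update s σ.k p) hwf
    simp only at this
    rw [this]
    congr 1
    unfold instSt St.put SSt.put
    simp only
    congr 1
    ext A' i'
    have hv : ∀ A'' i'', (σ.cell A'' i'').val x (Function.update s σ.k p) =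
        (σ.cell A'' i'').val x s := fun A'' i'' =>
      val_congr _ x σ.k (hσ A'' i'').2 _ _ (fun j hj => Function.update_of_ne (by omega) _ _)
    by_cases hA : A' = B
    · subst hA
      by_cases hi : i' = f.eval σ.ctr
      · subst hi
        simp [fMsg_val]
      · simp [Function.update_of_ne hi, hv]
    · simp [Function.update_of_ne hA, hv]
  | loop i e a iha =>
    simp only [sexec, inst, exec]
    congr 1
    have hloop : ∀ (r j : ℕ) (σ : SSt n) (s : ℕ → ℝ), WF σ →
        inst x (siter (sexec a) i r j K σ) σ.k s = iter (exec a) i r j K' (instSt x σ s) := by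
      intro r
      induction r with
      | zero => intro j σ s h; exact hK σ s h
      | succ r ihr =>
        intro j σ s h
        simp only [siter, iter, inst]
        congr 1
        exact iha (σ.setCtr i j) s _ _ (WF_setCtr _ h _ _) (fun σ' s' h' => ihr (j + 1) σ' s' h')
    exact hloop _ 0 σ s hσ

end AIP
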