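import Pool.Agent.AIP.Machine

/-!
# Rules for the analysis of programs
-/

namespace AIP

/-- Memory without tags. -/
structure S0 : Type where
  /-- the counters -/
  ctr : ℕ → ℕ
  /-- the real cells -/
  cell : ℕ → ℕ → ℝ

/-- Forget the tags. -/
def St.er (s : St) : S0 := ⟨s.ctr, s.cell⟩

/-- Set a counter. -/
def S0.setCtr (s : S0) (i v : ℕ) : S0 :=
  { s with ctr := Function.update s.ctr i v }

/-- Set a cell. -/
noncomputable def S0.put (s : S0) (A i : ℕ) (v : ℝ) : S0 :=
  { s with cell := Function.update s.cell A (Function.update (s.cell A) i v) }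

theorem S0.cell_put (s : S0) (A i : ℕ) (v : ℝ) (B j : ℕ) :
    (s.put A i v).cell B j = if B = A ∧ j = i then v else s.cell B j := by
  simp only [S0.put]
  by_cases hA : B = A
  · subst hA
    by_cases hi : j = i
    · subst hi; simp
    · simp [hi]
  · simp [hA]

@[simp] theorem S0.ctr_put (s : S0) (A i : ℕ) (v : ℝ) : (s.put A i v).ctr = s.ctr := rfl

@[simp] theorem S0.cell_setCtr (s : S0) (i v : ℕ) : (s.setCtr i v).cell = s.cell := rfl

theorem S0.ctr_setCtr (s : S0) (i v j : ℕ) :
    (s.setCtr i v).ctr j = if j = i then v else s.ctr j := by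
  simp only [S0.setCtr]
  by_cases h : j = i
  · subst h; simp
  · simp [h]

/-- Loops without ticks. -/
def iter0 (F : S0 → (S0 → ITree) → ITree) (i : ℕ) : ℕ → ℕ → (S0 → ITree) → S0 → ITree
  | 0, _, K, s => K s
  | r + 1, j, K, s => F (s.setCtr i j) (fun s' => iter0 F i r (j + 1) K s')

/-- Execution without tags and ticks. -/
noncomputable def exec0 : Cmd → S0 → (S0 → ITree) → ITree
  | .skip, s, K => K s
  | .halt b, _, _ => .halt b
  | .seq a b, s, K => exec0 a s (fun s' => exec0 b s' K)
  | .set i e, s, K => K (s.setCtr i (e.eval s.ctr))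
  | .const A e r, s, K => K (s.put A (e.eval s.ctr) r)
  | .nat A e f, s, K => K (s.put A (e.eval s.ctr) (f.eval s.ctr))
  | .copy A e B f, s, K => K (s.put A (e.eval s.ctr) (s.cell B (f.eval s.ctr)))
  | .add A e B f C g, s, K => K (s.put A (e.eval s.ctr)
      (s.cell B (f.eval s.ctr) + s.cell C (g.eval s.ctr)))
  | .sub A e B f C g, s, K => K (s.put A (e.eval s.ctr)
      (s.cell B (f.eval s.ctr) - s.cell C (g.eval s.ctr)))
  | .mul _ _ _ _ _ _, _, _ => .halt false
  | .ifle e f a b, s, K => if e.eval s.ctr ≤ f.eval s.ctr then exec0 a s K else exec0 b s K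
  | .ifzero A e a b, s, K => open scoped Classical in
      if s.cell A (e.eval s.ctr) = 0 then exec0 a s K else exec0 b s K
  | .ifnonneg _ _ _ _, _, _ => .halt false
  | .flip i, s, K => .coin (K (s.setCtr i 0)) (K (s.setCtr i 1))
  | .ask A e B f, s, K => .ask (s.cell A (e.eval s.ctr)) (fun p => K (s.put B (f.eval s.ctr) p))
  | .loop i e a, s, K => iter0 (exec0 a) i (e.eval s.ctr) 0 K s

theorem acc_exec0 (c : Cmd) (hc : c.Additive) (K : St → ITree) (K₀ : S0 → ITree)
    (hK : ∀ s P, (K s).acc P = (K₀ s.er).acc P) (s : St) (P : List ℝ → ℝ) :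
    (exec c s K).acc P = (exec0 c s.er K₀).acc P := by
  induction c generalizing K K₀ s P with
  | skip => exact hK s P
  | halt b => rfl
  | seq a b iha ihb =>
    exact iha hc.1 _ _ (fun s P => ihb hc.2 K K₀ hK s P) s P
  | set i e => exact hK _ P
  | const A e r => exact hc.elim
  | nat A e f => exact hK _ P
  | copy A e B f => exact hK _ P
  | add A e B f C g => exact hK _ P
  | sub A e B f C g => exact hK _ P
  | mul A e B f C g => exact hc.elim
  | ifle e f a b iha ihb =>
    simp only [exec, exec0, ITree.acc]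
    have : s.er.ctr = s.ctr := rfl
    rw [this]
    split_ifs
    · exact iha hc.1 K K₀ hK s P
    · exact ihb hc.2 K K₀ hK s P
  | ifzero A e a b iha ihb =>
    simp only [exec, exec0, ITree.acc]
    have : s.er.ctr = s.ctr := rfl
    have h2 : s.er.cell = s.cell := rfl
    rw [this, h2]
    split_ifs
    · exact iha hc.1 K K₀ hK s P
    · exact ihb hc.2 K K₀ hK s P
  | ifnonneg A e a b iha ihb => exact hc.elim
  | flip i =>
    simp only [exec, exec0, ITree.acc]
    rw [hK _ P, hK _ P]
    rfl
  | ask A e B f =>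
    simp only [exec, exec0, ITree.acc]
    rw [hK]
    rfl
  | loop i e a iha =>
    simp only [exec, exec0, ITree.acc]
    have hloop : ∀ (r j : ℕ) (s : St) (P : List ℝ → ℝ),
        (iter (exec a) i r j K s).acc P = (iter0 (exec0 a) i r j K₀ s.er).acc P := by
      intro r
      induction r with
      | zero => intro j s P; exact hK s P
      | succ r ihr =>
        intro j s P
        simp only [iter, iter0, ITree.acc]
        exact iha hc _ _ (fun s P => ihr (j + 1) s P) (s.setCtr i j) P
    exact hloop _ 0 s P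

/-! ### Winning and bounds -/

/-- Some prover is accepted with probability `1`. -/
def W (t : ITree) : Prop := ∃ P, t.acc P = 1

/-- No prover is accepted with probability more than `ε`. -/
def B (ε : ℝ) (t : ITree) : Prop := ∀ P, t.acc P ≤ ε

theorem acc_congr (t : ITree) (P Q : List ℝ → ℝ) (h : ∀ v l, P (v :: l) = Q (v :: l)) :
    t.acc P = t.acc Q := by
  induction t generalizing P Q with
  | halt b => rfl
  | tick t ih => exact ih P Q h
  | coin t u iht ihu => simp only [ITree.acc]; rw [iht P Q h, ihu P Q h]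
  | ask w f ih =>
    simp only [ITree.acc]
    rw [h w []]
    exact ih _ _ _ (fun v l => h w (v :: l))

theorem acc_nonneg (t : ITree) (P : List ℝ → ℝ) : 0 ≤ t.acc P := by
  induction t generalizing P with
  | halt b => simp only [ITree.acc]; split_ifs <;> norm_num
  | tick t ih => exact ih P
  | coin t u iht ihu =>
    have := iht P
    have := ihu P
    simp only [ITree.acc]; linarith
  | ask w f ih => exact ih _ _

theorem acc_le_one (t : ITree) (P : List ℝ → ℝ) : t.acc P ≤ 1 := by
  induction t generalizing P with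
  | halt b => simp only [ITree.acc]; split_ifs <;> norm_num
  | tick t ih => exact ih P
  | coin t u iht ihu =>
    have := iht P
    have := ihu P
    simp only [ITree.acc]; linarith
  | ask w f ih => exact ih _ _

theorem W_halt : W (.halt true) := ⟨fun _ => 0, by simp [ITree.acc]⟩

theorem W_ask (w : ℝ) (f : ℝ → ITree) (p : ℝ) (h : W (f p)) : W (.ask w f) := by
  obtain ⟨P, hP⟩ := h
  refine ⟨fun l => match l with
    | [] => 0
    | _ :: [] => p
    | _ :: v :: l => P (v :: l), ?_⟩
  simp only [ITree.acc]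
  rw [← hP]
  exact acc_congr _ _ _ (fun v l => rfl)

theorem W_reveal (w₀ w₁ : ℝ) (hw : w₀ ≠ w₁) (f₀ f₁ : ℝ → ITree) (p₀ p₁ : ℝ) (h₀ : W (f₀ p₀))
    (h₁ : W (f₁ p₁)) : W (.coin (.ask w₀ f₀) (.ask w₁ f₁)) := by
  classical
  obtain ⟨P, hP⟩ := h₀
  obtain ⟨Q, hQ⟩ := h₁
  refine ⟨fun l => match l with
    | [] => 0
    | w :: [] => if w = w₀ then p₀ else p₁
    | w :: v :: l => if w = w₀ then P (v :: l) else Q (v :: l), ?_⟩
  simp only [ITree.acc, if_true, if_neg hw.symm]
  have h1 : (f₀ p₀).acc (fun h => match w₀ :: h with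
      | [] => 0
      | w :: [] => if w = w₀ then p₀ else p₁
      | w :: v :: l => if w = w₀ then P (v :: l) else Q (v :: l)) = 1 := by
    rw [← hP]
    exact acc_congr _ _ _ (fun v l => by simp)
  have h2 : (f₁ p₁).acc (fun h => match w₁ :: h with
      | [] => 0
      | w :: [] => if w = w₀ then p₀ else p₁
      | w :: v :: l => if w = w₀ then P (v :: l) else Q (v :: l)) = 1 := by
    rw [← hQ]
    exact acc_congr _ _ _ (fun v l => by simp [if_neg hw.symm])
  rw [h1, h2]
  norm_num

theorem B_halt (ε : ℝ) (h : 0 ≤ ε) : B ε (.halt false) := fun P => by simpa [ITree.acc] using h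

theorem B_one (t : ITree) : B 1 t := fun P => acc_le_one t P

theorem B_mono {ε ε' : ℝ} (h : ε ≤ ε') {t : ITree} (ht : B ε t) : B ε' t :=
  fun P => (ht P).trans h

theorem B_ask (ε : ℝ) (w : ℝ) (f : ℝ → ITree) (h : ∀ p, B ε (f p)) : B ε (.ask w f) :=
  fun _ => h _ _

theorem B_coin (ε₀ ε₁ : ℝ) (t u : ITree) (h₀ : B ε₀ t) (h₁ : B ε₁ u) :
    B ((ε₀ + ε₁) / 2) (.coin t u) := by
  intro P
  have h1 := h₀ P
  have h2 := h₁ P
  simp only [ITree.acc]
  linarith

/-! ### Loops -/

/-- `f 0; f 1; …; f (N - 1)`. -/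
def rng : ℕ → (ℕ → Cmd) → Cmd
  | 0, _ => .skip
  | N + 1, f => .seq (rng N f) (f N)

/-- Reject unless the cell is `0`. -/
def guard (A : ℕ) (e : NExp) : Cmd := .ifzero A e .skip (.halt false)

theorem rng_rule (Q : S0 → ITree → Prop) (f : ℕ → Cmd) (N : ℕ) (Inv : ℕ → S0 → Prop)
    (φ : ℕ → (S0 → ITree → Prop))
    (h : ∀ j < N, ∀ s K, Inv j s → (∀ s', Inv (j + 1) s' → φ (j + 1) s' (K s')) →
      φ j s (exec0 (f j) s K)) (s : S0) (K : S0 → ITree) (h0 : Inv 0 s)
    (hK : ∀ s', Inv N s' → φ N s' (K s')) (hQ : Q = φ 0) : Q s (exec0 (rng N f) s K) := by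
  subst hQ
  induction N generalizing K with
  | zero => exact hK s h0
  | succ N ih =>
    refine ih (fun j hj => h j (by omega)) _ fun s' hs' => ?_
    exact h N (by omega) s' K hs' hK

theorem loop_rule (i : ℕ) (e : NExp) (a : Cmd) (N : ℕ) (Inv : ℕ → S0 → Prop)
    (φ : ℕ → (S0 → ITree → Prop))
    (h : ∀ j < N, ∀ s K, Inv j s → (∀ s', Inv (j + 1) s' → φ (j + 1) s' (K s')) →
      φ j s (exec0 a (s.setCtr i j) K)) (s : S0) (K : S0 → ITree) (hN : e.eval s.ctr = N)
    (h0 : Inv 0 s) (hK : ∀ s', Inv N s' → φ N s' (K s')) :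
    φ 0 s (exec0 (.loop i e a) s K) := by
  have hloop : ∀ (r j : ℕ) (s : S0), j + r = N → Inv j s →
      φ j s (iter0 (exec0 a) i r j K s) := by
    intro r
    induction r with
    | zero =>
      intro j s hj hs
      have : j = N := by omega
      subst this
      exact hK s hs
    | succ r ihr =>
      intro j s hj hs
      exact h j (by omega) s _ hs (fun s' hs' => ihr (j + 1) s' (by omega) hs')
  simp only [exec0]
  rw [hN]
  exact hloop N 0 s (by omega) h0

end AIP
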